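import Mathlib

/-!
Definitions used in the statement on closed points in general position on del Pezzo surfaces of
degree three and four.
-/

namespace Pool.Agent.R865.DP

open MvPolynomial LinearAlgebra.Projectivization

/-- `f` (a family of `c` forms of degree `e` in `c + 3` variables over an algebraically closed
field `K`) defines a smooth integral surface `X` in projective space of dimension `c + 2`:
for `(c, e) = (1, 3)` a smooth cubic surface, that is, the anticanonical model of a del Pezzo
surface of degree `3`; for `(c, e) = (2, 2)` a smooth intersection of two quadrics, that is, the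
anticanonical model of a del Pezzo surface of degree `4`. -/
structure IsDelPezzo {K : Type*} [Field K] {c : ℕ} (e : ℕ)
    (f : Fin c → MvPolynomial (Fin (c + 3)) K) : Prop where
  /-- the equations are forms of degree `e` -/
  homog : ∀ a, (f a).IsHomogeneous e
  /-- the surface is integral -/
  integral : (Ideal.span (Set.range f)).IsPrime
  /-- Jacobian criterion: at every point of the surface the gradients are independent -/
  smooth : ∀ x : Fin (c + 3) → K, x ≠ 0 → (∀ a, aeval x (f a) = 0) →
    LinearIndependent K (fun a => (fun l => aeval x (pderiv l (f a)) : Fin (c + 3) → K))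

/-- The point with parameters `(s : t)` of the rational normal curve of degree `m` attached to
the vectors `v 0, ..., v m` (linearly independent in the applications): a line for `m = 1`, a
smooth conic for `m = 2`, a twisted cubic for `m = 3`. -/
def ratCurve {K : Type*} [Field K] {n m : ℕ} (v : Fin (m + 1) → (Fin n → K)) (s t : K) :
    Fin n → K := ∑ i : Fin (m + 1), (s ^ (m - (i : ℕ)) * t ^ (i : ℕ)) • v i

/-- A finite set `S` of geometric points of the surface `X` of degree `d = c + 2` defined by `f`
is in general position:
no point of `S` lies on a line of `X`, no two points on a conic of `X`, no three points on a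
twisted cubic of `X`, and, if `S` has `d - 1` points, no hyperplane section of `X` through `S` is
singular at a point of `S`.
For `|S| ≤ d - 1` this is equivalent to the blow-up of `X` in `S` being a del Pezzo surface. -/
structure InGeneralPosition {K : Type*} [Field K] {c : ℕ}
    (f : Fin c → MvPolynomial (Fin (c + 3)) K) (S : Set (ℙ K (Fin (c + 3) → K))) : Prop where
  finite : S.Finite
  mem : ∀ x : Fin (c + 3) → K, ∀ hx : x ≠ 0, Projectivization.mk K x hx ∈ S →
    ∀ a, aeval x (f a) = 0
  curves : ∀ m, 1 ≤ m → m ≤ 3 → ∀ v : Fin (m + 1) → (Fin (c + 3) → K), LinearIndependent K v →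
    (∀ s t : K, ∀ a, aeval (ratCurve v s t) (f a) = 0) →
    {P ∈ S | ∃ (s t : K) (h : ratCurve v s t ≠ 0),
      P = Projectivization.mk K (ratCurve v s t) h}.ncard < m
  sections : S.ncard = c + 1 →
    ∀ x : Fin (c + 3) → K, ∀ hx : x ≠ 0, Projectivization.mk K x hx ∈ S →
    ∀ h : Fin (c + 3) → K, h ≠ 0 →
      (∀ y : Fin (c + 3) → K, ∀ hy : y ≠ 0, Projectivization.mk K y hy ∈ S → ∑ l, h l * y l = 0) →
      LinearIndependent K (Matrix.vecCons h
        (fun a => (fun l => aeval x (pderiv l (f a)) : Fin (c + 3) → K)))

/-- `O` is a closed point, with residue field separable over `k`, of the scheme `X` defined by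
the forms `F` over `k`, given by its set of geometric points: the orbit under the automorphisms
of `K` over `k` of a point of `X` with coordinates separable over `k`. Its degree is the
cardinality of `O`. -/
def IsSepClosedPoint {k : Type*} (K : Type*) [Field k] [Field K] [Algebra k K] {c : ℕ}
    (F : Fin c → MvPolynomial (Fin (c + 3)) k) (O : Set (ℙ K (Fin (c + 3) → K))) : Prop :=
  ∃ (x : Fin (c + 3) → K), x ≠ 0 ∧ (∀ i, IsSeparable k (x i)) ∧ (∀ a, aeval x (F a) = 0) ∧
    O = {P | ∃ (τ : K ≃ₐ[k] K) (h : (fun i => τ (x i)) ≠ 0),
      P = Projectivization.mk K (fun i => τ (x i)) h}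

/-- The surface `X` defined by the forms `F` over `k` is unirational: there is a dominant rational
map `φ` over `k` from the projective plane to `X`, given by forms `φ i` of the same degree.
Dominance is expressed as density of the image in the set of `K`-points of `X`. -/
def IsUnirational {k : Type*} (K : Type*) [Field k] [Field K] [Algebra k K] {c : ℕ}
    (F : Fin c → MvPolynomial (Fin (c + 3)) k) : Prop :=
  ∃ (r : ℕ) (φ : Fin (c + 3) → MvPolynomial (Fin 3) k), (∀ i, (φ i).IsHomogeneous r) ∧
    (∀ a, aeval φ (F a) = 0) ∧
    ∀ (m : ℕ) (G : MvPolynomial (Fin (c + 3)) K), G.IsHomogeneous m →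
      (∀ y : Fin 3 → K, aeval (fun i => aeval y (φ i)) G = 0) →
      ∀ x : Fin (c + 3) → K, (∀ a, aeval x (F a) = 0) → aeval x G = 0

end Pool.Agent.R865.DP
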