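import Pool.Agent.R865.DPPencil
import Pool.Agent.R865.DPDefs

/-!
General position of tuples of points as the nonvanishing of finitely many polynomial conditions,
each of which is nonzero on the surface.
-/

namespace Pool.Agent.R865.DP

open MvPolynomial

variable {K : Type*} [Field K]

/-- evaluation of polynomials in the coordinates of `N` vectors, as an algebra map -/
noncomputable def evalFn (K : Type*) [Field K] (N n : ℕ) :
    MvPolynomial (Fin N × Fin n) K →ₐ[K] ((Fin N → Fin n → K) → K) :=
  aeval (fun (q : Fin N × Fin n) (P : Fin N → Fin n → K) => P q.1 q.2)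

theorem evalFn_apply (N n : ℕ) (p : MvPolynomial (Fin N × Fin n) K) (P : Fin N → Fin n → K) :
    evalFn K N n p P = aeval (fun q : Fin N × Fin n => P q.1 q.2) p := by
  have : (Pi.evalAlgHom K (fun _ : (Fin N → Fin n → K) => K) P).comp (evalFn K N n) =
      aeval (fun q : Fin N × Fin n => P q.1 q.2) := by
    ext q
    simp [evalFn]
  exact DFunLike.congr_fun this p

/-- polynomial functions of `N` vectors -/
noncomputable def polyFn (K : Type*) [Field K] (N n : ℕ) :
    Subalgebra K ((Fin N → Fin n → K) → K) := (evalFn K N n).range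

theorem coord_mem {N n : ℕ} (i : Fin N) (l : Fin n) :
    (fun P : Fin N → Fin n → K => P i l) ∈ polyFn K N n :=
  ⟨X (i, l), by
    change evalFn K N n (X (i, l)) = _
    funext P
    rw [evalFn_apply]
    simp⟩

theorem const_mem {N n : ℕ} (a : K) :
    (fun _ : Fin N → Fin n → K => a) ∈ polyFn K N n :=
  ⟨C a, by
    change evalFn K N n (C a) = _
    funext P
    rw [evalFn_apply]
    simp⟩

theorem aeval_mem {N n : ℕ} (i : Fin N) (p : MvPolynomial (Fin n) K) :
    (fun P : Fin N → Fin n → K => aeval (P i) p) ∈ polyFn K N n :=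
  ⟨rename (fun l => (i, l)) p, by
    change evalFn K N n (rename (fun l => (i, l)) p) = _
    funext P
    rw [evalFn_apply, aeval_rename]
    rfl⟩

theorem dd_mem {N n : ℕ} (i j : Fin N) (p : MvPolynomial (Fin n) K) :
    (fun P : Fin N → Fin n → K => dd p (P i) (P j)) ∈ polyFn K N n := by
  have : (fun P : Fin N → Fin n → K => dd p (P i) (P j)) =
      ∑ l, (fun P : Fin N → Fin n → K => aeval (P i) (pderiv l p)) *
        (fun P : Fin N → Fin n → K => P j l) := by
    funext P
    simp [dd, Finset.sum_apply]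
  rw [this]
  exact Subalgebra.sum_mem _ fun l _ => Subalgebra.mul_mem _ (aeval_mem i _) (coord_mem j l)

theorem det_mem {N n m : ℕ} (M : Fin m → Fin m → ((Fin N → Fin n → K) → K))
    (hM : ∀ i j, M i j ∈ polyFn K N n) :
    (fun P => Matrix.det (Matrix.of fun i j => M i j P)) ∈ polyFn K N n := by
  have : (fun P => Matrix.det (Matrix.of fun i j => M i j P)) =
      ∑ σ : Equiv.Perm (Fin m), (Equiv.Perm.sign σ : ℤ) • ∏ i, M (σ i) i := by
    funext P
    rw [Matrix.det_apply]
    simp [Finset.sum_apply, Finset.prod_apply, Units.smul_def]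
  rw [this]
  exact Subalgebra.sum_mem _ fun σ _ => by
    apply Subalgebra.zsmul_mem
    exact Subalgebra.prod_mem _ fun i _ => hM _ _

/-- A tuple of `c + 1` vectors on the surface representing points in general position. -/
structure TupleGP {c : ℕ} (f : Fin c → MvPolynomial (Fin (c + 3)) K)
    (P : Fin (c + 1) → (Fin (c + 3) → K)) : Prop where
  ne_zero : ∀ i, P i ≠ 0
  distinct : ∀ i j, i ≠ j → ∀ r : K, P j ≠ r • P i
  curves : ∀ m, 1 ≤ m → m ≤ 3 → ∀ v : Fin (m + 1) → (Fin (c + 3) → K), LinearIndependent K v →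
    (∀ s t : K, ∀ a, aeval (ratCurve v s t) (f a) = 0) →
    ∀ T : Finset (Fin (c + 1)), (∀ i ∈ T, P i ∈ Submodule.span K (Set.range v)) → T.card < m
  sections : ∀ i, ∀ r : K, r ≠ 0 → ∀ h : Fin (c + 3) → K, h ≠ 0 → (∀ j, ∑ l, h l * P j l = 0) →
    LinearIndependent K (Matrix.vecCons h
      (fun a => (fun l => aeval (r • P i) (pderiv l (f a)) : Fin (c + 3) → K)))

/-! ### the surface spans -/

theorem coeff_zero_of_mem {n e : ℕ} {c : ℕ} (he : 2 ≤ e) (f : Fin c → MvPolynomial (Fin n) K)
    (hf : ∀ a, (f a).IsHomogeneous e) (p : MvPolynomial (Fin n) K)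
    (hp : p ∈ Ideal.span (Set.range f)) : ∀ m : Fin n →₀ ℕ, m.degree < 2 → coeff m p = 0 := by
  classical
  induction hp using Submodule.span_induction with
  | mem p hp =>
    obtain ⟨a, rfl⟩ := hp
    intro m hm
    by_contra hne
    have := hf a hne
    rw [Finsupp.degree_eq_weight_one (R := ℕ)] at hm
    have h2 : (Finsupp.weight 1) m = e := this
    change (Finsupp.weight 1) m < 2 at hm
    omega
  | zero => intro m _; simp
  | add p q _ _ hp hq => intro m hm; rw [coeff_add, hp m hm, hq m hm, add_zero]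
  | smul a p _ hp =>
    intro m hm
    rw [smul_eq_mul, coeff_mul]
    apply Finset.sum_eq_zero
    rintro ⟨x, y⟩ hxy
    rw [Finset.HasAntidiagonal.mem_antidiagonal] at hxy
    simp only at hxy ⊢
    rw [hp y, mul_zero]
    have := congrArg Finsupp.degree hxy
    rw [map_add] at this
    omega

theorem spans [IsAlgClosed K] {n e c : ℕ} (he : 2 ≤ e) (f : Fin c → MvPolynomial (Fin n) K)
    (hf : ∀ a, (f a).IsHomogeneous e) (hp : (Ideal.span (Set.range f)).IsPrime) :
    Submodule.span K {x : Fin n → K | ∀ a, aeval x (f a) = 0} = ⊤ := by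
  classical
  by_contra hne
  obtain ⟨h, hh, hle⟩ := Submodule.exists_le_ker_of_lt_top _ (lt_top_iff_ne_top.mpr hne)
  apply hh
  let H : MvPolynomial (Fin n) K := ∑ l, C (h (Pi.single l 1)) * X l
  have hev : ∀ x : Fin n → K, aeval x H = h x := by
    intro x
    have hx : x = ∑ l, x l • (Pi.single l 1 : Fin n → K) := by
      ext i
      simp [Finset.sum_apply, Pi.single_apply]
    conv_rhs => rw [hx, map_sum]
    simp [H, mul_comm]
  have hmem : H ∈ Ideal.span (Set.range f) := by
    rw [← IsPrime.vanishingIdeal_zeroLocus (K := K) (Ideal.span (Set.range f)),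
      mem_vanishingIdeal_iff]
    intro x hx
    rw [zeroLocus_span] at hx
    rw [hev]
    apply hle
    apply Submodule.subset_span
    intro a
    exact hx _ ⟨a, rfl⟩
  apply LinearMap.pi_ext'
  intro l
  ext
  have := coeff_zero_of_mem he f hf H hmem (Finsupp.single l 1) (by
    rw [Finsupp.degree_single]; norm_num)
  simp only [H, coeff_sum, coeff_C_mul, coeff_X] at this
  rw [Finset.sum_eq_single l] at this
  · simpa using this
  · intro b _ hb
    simp [Finsupp.single_left_inj, hb]
  · simp

theorem exists_extend_in {n r : ℕ} (S : Set (Fin n → K)) (hS : Submodule.span K S = ⊤)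
    (hr : r < n) (v : Fin r → (Fin n → K))
    (hv : LinearIndependent K v) : ∃ z ∈ S, LinearIndependent K (Matrix.vecCons z v) := by
  obtain ⟨z, hz, hz'⟩ : ∃ z ∈ S, z ∉ Submodule.span K (Set.range v) := by
    by_contra hcon
    push Not at hcon
    have h : Submodule.span K (Set.range v) = ⊤ := by
      rw [eq_top_iff, ← hS, Submodule.span_le]
      exact hcon
    have h1 := finrank_range_le_card (R := K) v
    rw [Set.finrank, h, finrank_top, Module.finrank_fin_fun] at h1
    simp at h1
    omega
  exact ⟨z, hz, linearIndependent_finCons.mpr ⟨hv, hz'⟩⟩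

theorem exists_ne_zero_in {n : ℕ} (S : Set (Fin n → K)) (hS : Submodule.span K S = ⊤)
    (h : (Fin n → K) →ₗ[K] K) (hh : h ≠ 0) : ∃ z ∈ S, h z ≠ 0 := by
  by_contra hcon
  push Not at hcon
  apply hh
  rw [← LinearMap.ker_eq_top, eq_top_iff, ← hS, Submodule.span_le]
  exact hcon

theorem det_ne_zero_iff_indep {n : ℕ} (v : Fin n → (Fin n → K)) :
    Matrix.det (Matrix.of v) ≠ 0 ↔ LinearIndependent K v := by
  have := Matrix.linearIndependent_rows_iff_isUnit (A := Matrix.of v)
  rw [Matrix.isUnit_iff_isUnit_det, isUnit_iff_ne_zero] at this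
  rw [← this]
  rfl

theorem not_indep_of_span {n r m : ℕ} (hrm : r < m) (v : Fin r → (Fin n → K))
    (w : Fin m → (Fin n → K)) (hw : ∀ i, w i ∈ Submodule.span K (Set.range v)) :
    ¬ LinearIndependent K w := by
  intro h
  have h1 := finrank_range_le_card (R := K) v
  have h2 := finrank_span_eq_card h
  have h3 : Submodule.span K (Set.range w) ≤ Submodule.span K (Set.range v) := by
    rw [Submodule.span_le]
    rintro _ ⟨i, rfl⟩
    exact hw i
  have h4 := Submodule.finrank_mono h3
  rw [Set.finrank] at h1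
  simp at h1 h2
  omega

end Pool.Agent.R865.DP
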