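import Pool.Agent.R865.DPCond

/-!
The conditions for cubic surfaces.
-/

namespace Pool.Agent.R865.DP

open MvPolynomial

variable {K : Type*} [Field K]

theorem ratCurve_one {n : ℕ} (v : Fin 2 → (Fin n → K)) (s t : K) :
    ratCurve v s t = s • v 0 + t • v 1 := by
  simp [ratCurve, Fin.sum_univ_two]

theorem ratCurve_two {n : ℕ} (v : Fin 3 → (Fin n → K)) (s t : K) :
    ratCurve v s t = s ^ 2 • v 0 + (s * t) • v 1 + t ^ 2 • v 2 := by
  simp [ratCurve, Fin.sum_univ_three]

theorem ratCurve_three {n : ℕ} (v : Fin 4 → (Fin n → K)) (s t : K) :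
    ratCurve v s t = s ^ 3 • v 0 + (s ^ 2 * t) • v 1 + (s * t ^ 2) • v 2 + t ^ 3 • v 3 := by
  simp [ratCurve, Fin.sum_univ_four]

theorem grad_dot {n : ℕ} (g : MvPolynomial (Fin n) K) (x y : Fin n → K) :
    ∑ l, aeval x (pderiv l g) * y l = dd g x y := rfl

theorem cubic_dd_smul_left {n : ℕ} (g : MvPolynomial (Fin n) K) (hg : g.IsHomogeneous 3)
    (r : K) (x y : Fin n → K) : dd g (r • x) y = r ^ 2 * dd g x y := by
  obtain ⟨β, h1, -⟩ := cubic_expand g hg x 0
  have := h1 r 0 y
  simpa using this

theorem cubic_smul {n : ℕ} (g : MvPolynomial (Fin n) K) (hg : g.IsHomogeneous 3)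
    (r : K) (x : Fin n → K) : aeval (r • x) g = r ^ 3 * aeval x g := by
  obtain ⟨β, -, h1, -⟩ := cubic_expand g hg x 0
  have := h1 r 0
  simpa using this

theorem cubic_dd_self {n : ℕ} (g : MvPolynomial (Fin n) K) (hg : g.IsHomogeneous 3)
    (x : Fin n → K) : dd g x x = 3 * aeval x g := by
  obtain ⟨β, -, -, -, -, h1, -⟩ := cubic_expand g hg x 0
  exact h1

theorem span_pair_eq {n : ℕ} (v : Fin 2 → (Fin n → K)) :
    Submodule.span K (Set.range v) = Submodule.span K {v 0, v 1} := by
  congr 1
  ext x
  simp only [Set.mem_range, Fin.exists_fin_two, Set.mem_insert_iff, Set.mem_singleton_iff,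
    eq_comm]

theorem indep_pair_of_fin_two {n : ℕ} (v : Fin 2 → (Fin n → K)) (hv : LinearIndependent K v) :
    LinearIndependent K ![v 0, v 1] := by
  have : v = ![v 0, v 1] := by
    funext i; fin_cases i <;> rfl
  rwa [this] at hv

theorem conditions_cubic [IsAlgClosed K] (f : Fin 1 → MvPolynomial (Fin (1 + 3)) K)
    (hf : IsDelPezzo 3 f) :
    ∃ W : Set ((Fin (1 + 1) → Fin (1 + 3) → K) → K), W.Finite ∧
      (∀ w ∈ W, w ∈ polyFn K (1 + 1) (1 + 3) ∧
        ∃ P, (∀ i a, aeval (P i) (f a) = 0) ∧ w P ≠ 0) ∧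
      ∀ P : Fin (1 + 1) → Fin (1 + 3) → K, (∀ i a, aeval (P i) (f a) = 0) →
        (∀ w ∈ W, w P ≠ 0) → TupleGP f P := by
  classical
  have hg : (f 0).IsHomogeneous 3 := hf.homog 0
  have hspan := spans (by norm_num) f hf.homog hf.integral
  set S : Set (Fin 4 → K) := {x | ∀ a, aeval x (f a) = 0} with hS
  have hsm : ∀ x : Fin 4 → K, x ≠ 0 → aeval x (f 0) = 0 → ddL (f 0) x ≠ 0 := by
    intro x hx hx0 h
    have := (hf.smooth x hx (by intro a; rw [Fin.fin_one_eq_zero a]; exact hx0)).ne_zero 0
    apply this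
    funext l
    simp only [Pi.zero_apply]
    rw [aeval_pderiv_eq_dd]
    exact LinearMap.congr_fun h _
  obtain ⟨L, hLfin, hLind, hL⟩ := lines_finite (n := 4) {f 0} (by
    intro u w u' w' huw h1 h2
    exact cubic_no_deformation (f 0) hg hsm u w u' w' huw (fun s t => h1 s t _ rfl)
      (fun s t => h2 s t _ rfl))
  let D : (Fin 4 → K) × (Fin 4 → K) → (Fin (1 + 1) → Fin (1 + 3) → K) → K := fun ℓ P =>
    Matrix.det (Matrix.of ![P 0, P 1, ℓ.1, ℓ.2])
  refine ⟨{fun P => dd (f 0) (P 0) (P 1), fun P => dd (f 0) (P 1) (P 0)} ∪ D '' L,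
    (Set.toFinite _).union (hLfin.image D), ?_, ?_⟩
  · have hpair : ∃ x ∈ S, ∃ y ∈ S, dd (f 0) x y ≠ 0 := by
      obtain ⟨x, hxS, hx⟩ := exists_ne_zero_in S hspan (LinearMap.proj 0) (by
        intro h
        have := LinearMap.congr_fun h (Pi.single 0 1)
        simp at this)
      have hx0 : x ≠ 0 := by
        rintro rfl
        simp at hx
      obtain ⟨y, hyS, hy⟩ := exists_ne_zero_in S hspan (ddL (f 0) x) (hsm x hx0 (hxS 0))
      exact ⟨x, hxS, y, hyS, hy⟩
    obtain ⟨x, hxS, y, hyS, hxy⟩ := hpair
    rintro w (hw | ⟨ℓ, hℓ, rfl⟩)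
    · simp only [Set.mem_insert_iff, Set.mem_singleton_iff] at hw
      rcases hw with rfl | rfl
      · refine ⟨dd_mem 0 1 (f 0), ![x, y], ?_, hxy⟩
        intro i a
        fin_cases i
        · exact hxS a
        · exact hyS a
      · refine ⟨dd_mem 1 0 (f 0), ![y, x], ?_, hxy⟩
        intro i a
        fin_cases i
        · exact hyS a
        · exact hxS a
    · constructor
      · apply det_mem (fun i j P => (![P 0, P 1, ℓ.1, ℓ.2] : Fin 4 → Fin 4 → K) i j)
        intro i j
        fin_cases i
        · exact coord_mem 0 j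
        · exact coord_mem 1 j
        · exact const_mem (ℓ.1 j)
        · exact const_mem (ℓ.2 j)
      · obtain ⟨z₁, hz₁S, hz₁⟩ := exists_extend_in S hspan (by norm_num) _ (hLind ℓ hℓ)
        obtain ⟨z₀, hz₀S, hz₀⟩ := exists_extend_in S hspan (by norm_num) _ hz₁
        refine ⟨![z₀, z₁], ?_, ?_⟩
        · intro i a
          fin_cases i
          · exact hz₀S a
          · exact hz₁S a
        · exact (det_ne_zero_iff_indep _).mpr hz₀
  · intro P hP hW
    have h01 : dd (f 0) (P 0) (P 1) ≠ 0 := hW (fun P => dd (f 0) (P 0) (P 1)) (Or.inl (Or.inl rfl))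
    have h10 : dd (f 0) (P 1) (P 0) ≠ 0 := hW (fun P => dd (f 0) (P 1) (P 0)) (Or.inl (Or.inr rfl))
    have hD : ∀ ℓ ∈ L, LinearIndependent K (![P 0, P 1, ℓ.1, ℓ.2] : Fin 4 → Fin 4 → K) := by
      intro ℓ hℓ
      rw [← det_ne_zero_iff_indep]
      exact hW (D ℓ) (Or.inr ⟨ℓ, hℓ, rfl⟩)
    have hne : ∀ i j, i ≠ j → dd (f 0) (P i) (P j) ≠ 0 := by
      intro i j hij
      fin_cases i <;> fin_cases j
      · exact absurd rfl hij
      · exact h01
      · exact h10
      · exact absurd rfl hij
    have hex : ∀ i : Fin (1 + 1), ∃ j, i ≠ j := by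
      intro i
      fin_cases i
      · exact ⟨1, by decide⟩
      · exact ⟨0, by decide⟩
    have hne0 : ∀ i, P i ≠ 0 := by
      intro i hi
      obtain ⟨j, hj⟩ := hex i
      apply hne i j hj
      rw [hi]
      have := cubic_dd_smul_left (f 0) hg 0 0 (P j)
      simpa using this
    refine ⟨hne0, ?_, ?_, ?_⟩
    · intro i j hij r h
      apply hne i j hij
      rw [h, dd_smul_right, cubic_dd_self (f 0) hg, hP i 0]
      ring
    · intro m hm1 hm3 v hv hline T hT
      interval_cases m
      · -- lines
        by_contra hcon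
        obtain ⟨i, hi⟩ : ∃ i, i ∈ T := by
          by_contra hno
          push Not at hno
          apply hcon
          have : T = ∅ := Finset.eq_empty_of_forall_notMem hno
          rw [this]; simp
        obtain ⟨ℓ, hℓ, hspanℓ⟩ := hL (v 0) (v 1) (indep_pair_of_fin_two v hv) (by
          rintro s t _ rfl
          have := hline s t 0
          rwa [ratCurve_one] at this)
        have hPi := hT i hi
        rw [span_pair_eq, hspanℓ] at hPi
        have hle : ∀ z : Fin 4 → K, Submodule.span K {ℓ.1, ℓ.2} ≤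
            Submodule.span K (Set.range ![z, ℓ.1, ℓ.2]) := by
          intro z
          rw [Submodule.span_le]
          rintro x (rfl | rfl)
          · exact Submodule.subset_span ⟨1, rfl⟩
          · exact Submodule.subset_span ⟨2, rfl⟩
        fin_cases i
        · refine not_indep_of_span (by norm_num) ![P 1, ℓ.1, ℓ.2] _ ?_ (hD ℓ hℓ)
          intro i
          fin_cases i
          · exact hle _ hPi
          · exact Submodule.subset_span ⟨0, rfl⟩
          · exact Submodule.subset_span ⟨1, rfl⟩
          · exact Submodule.subset_span ⟨2, rfl⟩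
        · refine not_indep_of_span (by norm_num) ![P 0, ℓ.1, ℓ.2] _ ?_ (hD ℓ hℓ)
          intro i
          fin_cases i
          · exact Submodule.subset_span ⟨0, rfl⟩
          · exact hle _ hPi
          · exact Submodule.subset_span ⟨1, rfl⟩
          · exact Submodule.subset_span ⟨2, rfl⟩
      · -- conics
        by_contra hcon
        have hTu : T = Finset.univ := by
          apply Finset.eq_univ_of_card
          have := Finset.card_le_univ T
          simp only [Fintype.card_fin] at this ⊢
          omega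
        obtain ⟨u, w, huw, hlin, hu, hw⟩ := cubic_conic_residual (f 0) hg v hv (by
          intro s t
          have := hline s t 0
          rwa [ratCurve_two] at this)
        obtain ⟨ℓ, hℓ, hspanℓ⟩ := hL u w huw (by
          rintro s t _ rfl
          exact hlin s t)
        have hle : Submodule.span K {ℓ.1, ℓ.2} ≤ Submodule.span K (Set.range v) := by
          rw [← hspanℓ, Submodule.span_le]
          rintro x (rfl | rfl)
          · exact hu
          · exact hw
        refine not_indep_of_span (by norm_num) v _ ?_ (hD ℓ hℓ)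
        intro i
        fin_cases i
        · exact hT 0 (by rw [hTu]; exact Finset.mem_univ _)
        · exact hT 1 (by rw [hTu]; exact Finset.mem_univ _)
        · exact hle (Submodule.subset_span (Or.inl rfl))
        · exact hle (Submodule.subset_span (Or.inr rfl))
      · have := Finset.card_le_univ T
        simp only [Fintype.card_fin] at this
        omega
    · intro i r hr h hh hz
      have hPi : r • P i ≠ 0 := smul_ne_zero hr (hne0 i)
      have hPi0 : ∀ a, aeval (r • P i) (f a) = 0 := by
        intro a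
        rw [Fin.fin_one_eq_zero a, cubic_smul (f 0) hg, hP i 0, mul_zero]
      refine linearIndependent_finCons.mpr ⟨hf.smooth _ hPi hPi0, ?_⟩
      intro hmem
      obtain ⟨μ, hμ⟩ := (Submodule.mem_span_range_iff_exists_fun K).mp hmem
      rw [Fin.sum_univ_one] at hμ
      obtain ⟨j, hj⟩ := hex i
      have h1 := hz j
      rw [← hμ] at h1
      have h2 : ∑ l, (μ 0 • fun l => aeval (r • P i) (pderiv l (f 0))) l * P j l =
          μ 0 * dd (f 0) (r • P i) (P j) := by
        unfold dd
        rw [Finset.mul_sum]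
        apply Finset.sum_congr rfl
        intro l _
        simp only [Pi.smul_apply, smul_eq_mul]
        ring
      rw [h2, cubic_dd_smul_left (f 0) hg] at h1
      have h3 : μ 0 = 0 := by
        rcases mul_eq_zero.mp h1 with h | h
        · exact h
        · exact absurd h (mul_ne_zero (pow_ne_zero 2 hr) (hne i j hj))
      apply hh
      rw [← hμ, h3, zero_smul]

end Pool.Agent.R865.DP
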