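import Pool.Agent.R865.DPDef

/-!
Residual lines of conics and twisted cubics, and the singular members of a pencil of quadrics.
-/

namespace Pool.Agent.R865.DP

open MvPolynomial

variable {K : Type*} [Field K]

theorem two_in_ker {a b : ℕ} (hab : b + 2 ≤ a) (f : (Fin a → K) →ₗ[K] (Fin b → K)) :
    ∃ p q : Fin a → K, LinearIndependent K ![p, q] ∧ f p = 0 ∧ f q = 0 := by
  have h1 := LinearMap.finrank_range_add_finrank_ker f
  have h2 : Module.finrank K (LinearMap.range f) ≤ b := by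
    have := Submodule.finrank_le (LinearMap.range f)
    simpa using this
  rw [Module.finrank_fin_fun] at h1
  have h3 : 1 < Module.finrank K (LinearMap.ker f) := by omega
  have : Nontrivial (LinearMap.ker f) := Module.nontrivial_of_finrank_pos (R := K) (by omega)
  obtain ⟨x, hx⟩ := exists_ne (0 : LinearMap.ker f)
  obtain ⟨y, hy⟩ := exists_linearIndependent_pair_of_one_lt_finrank h3 hx
  refine ⟨x.1, y.1, ?_, x.2, y.2⟩
  rw [LinearIndependent.pair_iff] at hy ⊢
  intro s t hst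
  apply hy s t
  apply Subtype.ext
  simpa using hst

theorem one_in_ker {a b : ℕ} (hab : b < a) (f : (Fin a → K) →ₗ[K] (Fin b → K)) :
    ∃ p : Fin a → K, p ≠ 0 ∧ f p = 0 := by
  have h1 := LinearMap.finrank_range_add_finrank_ker f
  have h2 : Module.finrank K (LinearMap.range f) ≤ b := by
    have := Submodule.finrank_le (LinearMap.range f)
    simpa using this
  rw [Module.finrank_fin_fun] at h1
  have : Nontrivial (LinearMap.ker f) := Module.nontrivial_of_finrank_pos (R := K) (by omega)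
  obtain ⟨x, hx⟩ := exists_ne (0 : LinearMap.ker f)
  exact ⟨x.1, fun h => hx (Subtype.ext h), x.2⟩

theorem comb_indep {n r : ℕ} (v : Fin r → (Fin n → K)) (hv : LinearIndependent K v)
    (p q : Fin r → K) (hpq : LinearIndependent K ![p, q]) :
    LinearIndependent K ![∑ i, p i • v i, ∑ i, q i • v i] := by
  rw [LinearIndependent.pair_iff] at hpq ⊢
  intro s t hst
  apply hpq s t
  rw [Fintype.linearIndependent_iff] at hv
  funext i
  apply hv (s • p + t • q)
  rw [← hst, Finset.smul_sum, Finset.smul_sum, ← Finset.sum_add_distrib]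
  apply Finset.sum_congr rfl
  intro i _
  simp only [Pi.add_apply, Pi.smul_apply, smul_eq_mul, add_smul, mul_smul]

theorem comb_ne_zero {n r : ℕ} (v : Fin r → (Fin n → K)) (hv : LinearIndependent K v)
    (p : Fin r → K) (hp : p ≠ 0) : ∑ i, p i • v i ≠ 0 := by
  rw [Fintype.linearIndependent_iff] at hv
  intro h
  exact hp (funext fun i => hv p h i)

/-! ### conics on cubic surfaces -/

theorem sextic_coeffs [Infinite K] (a b c d e f g : K)
    (h : ∀ t : K, a + t * b + t ^ 2 * c + t ^ 3 * d + t ^ 4 * e + t ^ 5 * f + t ^ 6 * g = 0) :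
    a = 0 ∧ b = 0 ∧ c = 0 ∧ d = 0 ∧ e = 0 ∧ f = 0 ∧ g = 0 := by
  have hp : Polynomial.C a + Polynomial.C b * Polynomial.X + Polynomial.C c * Polynomial.X ^ 2 +
      Polynomial.C d * Polynomial.X ^ 3 + Polynomial.C e * Polynomial.X ^ 4 +
      Polynomial.C f * Polynomial.X ^ 5 + Polynomial.C g * Polynomial.X ^ 6 = 0 := by
    apply Polynomial.funext
    intro t
    have := h t
    simp only [Polynomial.eval_add, Polynomial.eval_C, Polynomial.eval_mul, Polynomial.eval_X,
      Polynomial.eval_pow, Polynomial.eval_zero]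
    linear_combination this
  refine ⟨?_, ?_, ?_, ?_, ?_, ?_, ?_⟩
  · have := congrArg (fun p => Polynomial.coeff p 0) hp
    simpa [Polynomial.coeff_X, Polynomial.coeff_C, Polynomial.coeff_X_pow] using this
  · have := congrArg (fun p => Polynomial.coeff p 1) hp
    simpa [Polynomial.coeff_X, Polynomial.coeff_C, Polynomial.coeff_X_pow] using this
  · have := congrArg (fun p => Polynomial.coeff p 2) hp
    simpa [Polynomial.coeff_X, Polynomial.coeff_C, Polynomial.coeff_X_pow] using this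
  · have := congrArg (fun p => Polynomial.coeff p 3) hp
    simpa [Polynomial.coeff_X, Polynomial.coeff_C, Polynomial.coeff_X_pow] using this
  · have := congrArg (fun p => Polynomial.coeff p 4) hp
    simpa [Polynomial.coeff_X, Polynomial.coeff_C, Polynomial.coeff_X_pow] using this
  · have := congrArg (fun p => Polynomial.coeff p 5) hp
    simpa [Polynomial.coeff_X, Polynomial.coeff_C, Polynomial.coeff_X_pow] using this
  · have := congrArg (fun p => Polynomial.coeff p 6) hp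
    simpa [Polynomial.coeff_X, Polynomial.coeff_C, Polynomial.coeff_X_pow] using this

theorem cubic_conic_residual [Infinite K] {n : ℕ} (g : MvPolynomial (Fin n) K)
    (hg : g.IsHomogeneous 3) (v : Fin 3 → (Fin n → K)) (hv : LinearIndependent K v)
    (h : ∀ s t : K, aeval (s ^ 2 • v 0 + (s * t) • v 1 + t ^ 2 • v 2) g = 0) :
    ∃ u w : Fin n → K, LinearIndependent K ![u, w] ∧ (∀ s t : K, aeval (s • u + t • w) g = 0) ∧
      u ∈ Submodule.span K (Set.range v) ∧ w ∈ Submodule.span K (Set.range v) := by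
  obtain ⟨T, hT, -⟩ := cubic_trilinear g hg
  have hexp : ∀ x y z : K, aeval (x • v 0 + y • v 1 + z • v 2) g =
      x ^ 3 * T (v 0) (v 0) (v 0) +
      x ^ 2 * y * (T (v 0) (v 0) (v 1) + T (v 0) (v 1) (v 0) + T (v 1) (v 0) (v 0)) +
      x ^ 2 * z * (T (v 0) (v 0) (v 2) + T (v 0) (v 2) (v 0) + T (v 2) (v 0) (v 0)) +
      x * y ^ 2 * (T (v 0) (v 1) (v 1) + T (v 1) (v 0) (v 1) + T (v 1) (v 1) (v 0)) +
      x * y * z * (T (v 0) (v 1) (v 2) + T (v 0) (v 2) (v 1) + T (v 1) (v 0) (v 2) +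
        T (v 1) (v 2) (v 0) + T (v 2) (v 0) (v 1) + T (v 2) (v 1) (v 0)) +
      x * z ^ 2 * (T (v 0) (v 2) (v 2) + T (v 2) (v 0) (v 2) + T (v 2) (v 2) (v 0)) +
      y ^ 3 * T (v 1) (v 1) (v 1) +
      y ^ 2 * z * (T (v 1) (v 1) (v 2) + T (v 1) (v 2) (v 1) + T (v 2) (v 1) (v 1)) +
      y * z ^ 2 * (T (v 1) (v 2) (v 2) + T (v 2) (v 1) (v 2) + T (v 2) (v 2) (v 1)) +
      z ^ 3 * T (v 2) (v 2) (v 2) := by
    intro x y z
    rw [hT]
    simp only [map_add, map_smul, LinearMap.add_apply, LinearMap.smul_apply, smul_eq_mul]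
    ring
  obtain ⟨c0, c1, c2, c3, c4, c5, c6⟩ := sextic_coeffs
    (T (v 0) (v 0) (v 0))
    (T (v 0) (v 0) (v 1) + T (v 0) (v 1) (v 0) + T (v 1) (v 0) (v 0))
    ((T (v 0) (v 0) (v 2) + T (v 0) (v 2) (v 0) + T (v 2) (v 0) (v 0)) +
      (T (v 0) (v 1) (v 1) + T (v 1) (v 0) (v 1) + T (v 1) (v 1) (v 0)))
    ((T (v 0) (v 1) (v 2) + T (v 0) (v 2) (v 1) + T (v 1) (v 0) (v 2) +
        T (v 1) (v 2) (v 0) + T (v 2) (v 0) (v 1) + T (v 2) (v 1) (v 0)) +
      T (v 1) (v 1) (v 1))
    ((T (v 0) (v 2) (v 2) + T (v 2) (v 0) (v 2) + T (v 2) (v 2) (v 0)) +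
      (T (v 1) (v 1) (v 2) + T (v 1) (v 2) (v 1) + T (v 2) (v 1) (v 1)))
    (T (v 1) (v 2) (v 2) + T (v 2) (v 1) (v 2) + T (v 2) (v 2) (v 1))
    (T (v 2) (v 2) (v 2)) (by
      intro t
      have := h 1 t
      rw [hexp] at this
      linear_combination this)
  -- the residual linear form
  let L : (Fin 3 → K) →ₗ[K] (Fin 1 → K) :=
    LinearMap.pi fun _ =>
      (T (v 0) (v 1) (v 1) + T (v 1) (v 0) (v 1) + T (v 1) (v 1) (v 0)) • LinearMap.proj 0 +
      (T (v 1) (v 1) (v 1)) • LinearMap.proj 1 +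
      (T (v 1) (v 1) (v 2) + T (v 1) (v 2) (v 1) + T (v 2) (v 1) (v 1)) • LinearMap.proj 2
  obtain ⟨p, q, hpq, hp, hq⟩ := two_in_ker (by norm_num) L
  have hp' := congrFun hp 0
  have hq' := congrFun hq 0
  simp only [L, LinearMap.pi_apply, LinearMap.add_apply, LinearMap.smul_apply,
    LinearMap.proj_apply, smul_eq_mul, Pi.zero_apply] at hp' hq'
  refine ⟨∑ i, p i • v i, ∑ i, q i • v i, comb_indep v hv p q hpq, ?_, ?_, ?_⟩
  · intro s t
    have e : s • ∑ i, p i • v i + t • ∑ i, q i • v i =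
        (s * p 0 + t * q 0) • v 0 + (s * p 1 + t * q 1) • v 1 + (s * p 2 + t * q 2) • v 2 := by
      rw [Fin.sum_univ_three, Fin.sum_univ_three]
      module
    rw [e, hexp]
    set x := s * p 0 + t * q 0 with hx
    set y := s * p 1 + t * q 1 with hy
    set z := s * p 2 + t * q 2 with hz
    have hL : (T (v 0) (v 1) (v 1) + T (v 1) (v 0) (v 1) + T (v 1) (v 1) (v 0)) * x +
      (T (v 1) (v 1) (v 1)) * y +
      (T (v 1) (v 1) (v 2) + T (v 1) (v 2) (v 1) + T (v 2) (v 1) (v 1)) * z = 0 := by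
      rw [hx, hy, hz]
      linear_combination s * hp' + t * hq'
    linear_combination x ^ 3 * c0 + x ^ 2 * y * c1 + x ^ 2 * z * c2 + x * y * z * c3 +
      x * z ^ 2 * c4 + y * z ^ 2 * c5 + z ^ 3 * c6 + (y ^ 2 - x * z) * hL
  · exact Submodule.sum_mem _ fun i _ => Submodule.smul_mem _ _ (Submodule.subset_span ⟨i, rfl⟩)
  · exact Submodule.sum_mem _ fun i _ => Submodule.smul_mem _ _ (Submodule.subset_span ⟨i, rfl⟩)

/-! ### twisted cubics on intersections of two quadrics -/

theorem quad_twisted_coeffs [Infinite K] {n : ℕ} (g : MvPolynomial (Fin n) K)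
    (hg : g.IsHomogeneous 2) (v : Fin 4 → (Fin n → K))
    (h : ∀ s t : K, aeval (s ^ 3 • v 0 + (s ^ 2 * t) • v 1 + (s * t ^ 2) • v 2 + t ^ 3 • v 3) g
      = 0) :
    ∃ a b c : K, ∀ x y z w : K, aeval (x • v 0 + y • v 1 + z • v 2 + w • v 3) g =
      a * (y * w - z ^ 2) + b * (z * y - x * w) + c * (x * z - y ^ 2) := by
  obtain ⟨T, hT, -⟩ := quad_bilinear g hg
  have hexp : ∀ x y z w : K, aeval (x • v 0 + y • v 1 + z • v 2 + w • v 3) g =
      x ^ 2 * T (v 0) (v 0) + x * y * (T (v 0) (v 1) + T (v 1) (v 0)) +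
      x * z * (T (v 0) (v 2) + T (v 2) (v 0)) + x * w * (T (v 0) (v 3) + T (v 3) (v 0)) +
      y ^ 2 * T (v 1) (v 1) + y * z * (T (v 1) (v 2) + T (v 2) (v 1)) +
      y * w * (T (v 1) (v 3) + T (v 3) (v 1)) + z ^ 2 * T (v 2) (v 2) +
      z * w * (T (v 2) (v 3) + T (v 3) (v 2)) + w ^ 2 * T (v 3) (v 3) := by
    intro x y z w
    rw [hT]
    simp only [map_add, map_smul, LinearMap.add_apply, LinearMap.smul_apply, smul_eq_mul]
    ring
  obtain ⟨c0, c1, c2, c3, c4, c5, c6⟩ := sextic_coeffs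
    (T (v 0) (v 0)) (T (v 0) (v 1) + T (v 1) (v 0))
    (T (v 0) (v 2) + T (v 2) (v 0) + T (v 1) (v 1))
    (T (v 0) (v 3) + T (v 3) (v 0) + (T (v 1) (v 2) + T (v 2) (v 1)))
    (T (v 1) (v 3) + T (v 3) (v 1) + T (v 2) (v 2))
    (T (v 2) (v 3) + T (v 3) (v 2)) (T (v 3) (v 3)) (by
      intro t
      have := h 1 t
      rw [hexp] at this
      linear_combination this)
  refine ⟨T (v 1) (v 3) + T (v 3) (v 1), -(T (v 0) (v 3) + T (v 3) (v 0)),
    T (v 0) (v 2) + T (v 2) (v 0), ?_⟩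
  intro x y z w
  rw [hexp]
  linear_combination x ^ 2 * c0 + x * y * c1 + y ^ 2 * c2 + y * z * c3 + z ^ 2 * c4 +
    z * w * c5 + w ^ 2 * c6

theorem quad_twisted_residual [Infinite K] {n : ℕ} (g : Fin 2 → MvPolynomial (Fin n) K)
    (hg : ∀ a, (g a).IsHomogeneous 2) (v : Fin 4 → (Fin n → K)) (hv : LinearIndependent K v)
    (h : ∀ s t : K, ∀ a,
      aeval (s ^ 3 • v 0 + (s ^ 2 * t) • v 1 + (s * t ^ 2) • v 2 + t ^ 3 • v 3) (g a) = 0) :
    ∃ u w : Fin n → K, LinearIndependent K ![u, w] ∧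
      (∀ s t : K, ∀ a, aeval (s • u + t • w) (g a) = 0) ∧
      u ∈ Submodule.span K (Set.range v) ∧ w ∈ Submodule.span K (Set.range v) := by
  choose α β γ hform using fun a => quad_twisted_coeffs (g a) (hg a) v (fun s t => h s t a)
  -- a nonzero vector orthogonal to both coefficient vectors
  let M : (Fin 3 → K) →ₗ[K] (Fin 2 → K) :=
    LinearMap.pi fun a => α a • LinearMap.proj 0 + β a • LinearMap.proj 1 + γ a • LinearMap.proj 2
  obtain ⟨m, hm0, hm⟩ := one_in_ker (by norm_num) M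
  have hm' : ∀ a, α a * m 0 + β a * m 1 + γ a * m 2 = 0 := by
    intro a
    have := congrFun hm a
    simpa [M] using this
  let L : (Fin 4 → K) →ₗ[K] (Fin 2 → K) :=
    LinearMap.pi ![m 0 • LinearMap.proj 0 + m 1 • LinearMap.proj 1 + m 2 • LinearMap.proj 2,
      m 0 • LinearMap.proj 1 + m 1 • LinearMap.proj 2 + m 2 • LinearMap.proj 3]
  obtain ⟨p, q, hpq, hp, hq⟩ := two_in_ker (by norm_num) L
  have hp0 : m 0 * p 0 + m 1 * p 1 + m 2 * p 2 = 0 := by simpa [L] using congrFun hp 0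
  have hp1 : m 0 * p 1 + m 1 * p 2 + m 2 * p 3 = 0 := by simpa [L] using congrFun hp 1
  have hq0 : m 0 * q 0 + m 1 * q 1 + m 2 * q 2 = 0 := by simpa [L] using congrFun hq 0
  have hq1 : m 0 * q 1 + m 1 * q 2 + m 2 * q 3 = 0 := by simpa [L] using congrFun hq 1
  refine ⟨∑ i, p i • v i, ∑ i, q i • v i, comb_indep v hv p q hpq, ?_, ?_, ?_⟩
  · intro s t a
    have e : s • ∑ i, p i • v i + t • ∑ i, q i • v i =
        (s * p 0 + t * q 0) • v 0 + (s * p 1 + t * q 1) • v 1 + (s * p 2 + t * q 2) • v 2 +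
        (s * p 3 + t * q 3) • v 3 := by
      rw [Fin.sum_univ_four, Fin.sum_univ_four]
      module
    rw [e, hform]
    set x := s * p 0 + t * q 0 with hx
    set y := s * p 1 + t * q 1 with hy
    set z := s * p 2 + t * q 2 with hz
    set w := s * p 3 + t * q 3 with hw
    have r1 : m 0 * x + m 1 * y + m 2 * z = 0 := by
      rw [hx, hy, hz]; linear_combination s * hp0 + t * hq0
    have r2 : m 0 * y + m 1 * z + m 2 * w = 0 := by
      rw [hy, hz, hw]; linear_combination s * hp1 + t * hq1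
    have r3 := hm' a
    -- determinant of three vectors orthogonal to m
    have d0 : (α a * (y * w - z ^ 2) + β a * (z * y - x * w) + γ a * (x * z - y ^ 2)) * m 0 = 0 := by
      linear_combination (y * w - z ^ 2) * r3 - (β a * w - γ a * z) * r1 + (β a * z - γ a * y) * r2
    have d1 : (α a * (y * w - z ^ 2) + β a * (z * y - x * w) + γ a * (x * z - y ^ 2)) * m 1 = 0 := by
      linear_combination (z * y - x * w) * r3 + (α a * w - γ a * y) * r1 - (α a * z - γ a * x) * r2
    have d2 : (α a * (y * w - z ^ 2) + β a * (z * y - x * w) + γ a * (x * z - y ^ 2)) * m 2 = 0 := by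
      linear_combination (x * z - y ^ 2) * r3 - (α a * z - β a * y) * r1 + (α a * y - β a * x) * r2
    by_contra hne
    apply hm0
    funext i
    fin_cases i
    · exact (mul_eq_zero.mp d0).resolve_left hne
    · exact (mul_eq_zero.mp d1).resolve_left hne
    · exact (mul_eq_zero.mp d2).resolve_left hne
  · exact Submodule.sum_mem _ fun i _ => Submodule.smul_mem _ _ (Submodule.subset_span ⟨i, rfl⟩)
  · exact Submodule.sum_mem _ fun i _ => Submodule.smul_mem _ _ (Submodule.subset_span ⟨i, rfl⟩)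

end Pool.Agent.R865.DP
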