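import Pool.Agent.R865.DPForms

/-!
First order deformations of lines on smooth cubic surfaces and on smooth complete intersections
of two quadrics in four dimensional projective space: there are none.
-/

namespace Pool.Agent.R865.DP

open MvPolynomial

variable {K : Type*} [Field K]

/-! ### elementary facts -/

theorem quad_zero [IsAlgClosed K] (a b c : K) :
    ∃ s t : K, (s ≠ 0 ∨ t ≠ 0) ∧ s ^ 2 * a + s * t * b + t ^ 2 * c = 0 := by
  by_cases ha : a = 0
  · exact ⟨1, 0, Or.inl one_ne_zero, by simp [ha]⟩
  · obtain ⟨x, hx⟩ := IsAlgClosed.exists_root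
      (Polynomial.C a * Polynomial.X ^ 2 + Polynomial.C b * Polynomial.X + Polynomial.C c)
      (by rw [Polynomial.degree_quadratic ha]; decide)
    refine ⟨x, 1, Or.inr one_ne_zero, ?_⟩
    simp [Polynomial.IsRoot.def] at hx
    linear_combination hx

theorem lin_zero (a b : K) : ∃ s t : K, (s ≠ 0 ∨ t ≠ 0) ∧ s * a + t * b = 0 := by
  by_cases ha : a = 0
  · exact ⟨1, 0, Or.inl one_ne_zero, by simp [ha]⟩
  · exact ⟨-b, a, Or.inr ha, by ring⟩

theorem poly_coeffs [Infinite K] (a b c d : K)
    (h : ∀ t : K, a + t * b + t ^ 2 * c + t ^ 3 * d = 0) : a = 0 ∧ b = 0 ∧ c = 0 ∧ d = 0 := by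
  have hp : Polynomial.C a + Polynomial.C b * Polynomial.X + Polynomial.C c * Polynomial.X ^ 2 +
      Polynomial.C d * Polynomial.X ^ 3 = 0 := by
    apply Polynomial.funext
    intro t
    have := h t
    simp only [Polynomial.eval_add, Polynomial.eval_C, Polynomial.eval_mul, Polynomial.eval_X,
      Polynomial.eval_pow, Polynomial.eval_zero]
    linear_combination this
  refine ⟨?_, ?_, ?_, ?_⟩
  · have := congrArg (fun p => Polynomial.coeff p 0) hp
    simpa [Polynomial.coeff_X, Polynomial.coeff_C] using this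
  · have := congrArg (fun p => Polynomial.coeff p 1) hp
    simpa [Polynomial.coeff_X, Polynomial.coeff_C, Polynomial.coeff_X_pow] using this
  · have := congrArg (fun p => Polynomial.coeff p 2) hp
    simpa [Polynomial.coeff_X, Polynomial.coeff_C, Polynomial.coeff_X_pow] using this
  · have := congrArg (fun p => Polynomial.coeff p 3) hp
    simpa [Polynomial.coeff_X, Polynomial.coeff_C, Polynomial.coeff_X_pow] using this

theorem exists_extend {n r : ℕ} (hr : r < n) (v : Fin r → (Fin n → K))
    (hv : LinearIndependent K v) : ∃ z, LinearIndependent K (Matrix.vecCons z v) := by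
  have hne : Submodule.span K (Set.range v) ≠ ⊤ := by
    intro h
    have h1 := finrank_range_le_card (R := K) v
    rw [Set.finrank, h, finrank_top, Module.finrank_fin_fun] at h1
    simp at h1
    omega
  obtain ⟨z, hz⟩ : ∃ z, z ∉ Submodule.span K (Set.range v) := by
    by_contra hcon
    push Not at hcon
    exact hne (eq_top_iff.mpr fun x _ => hcon x)
  exact ⟨z, linearIndependent_finCons.mpr ⟨hv, hz⟩⟩

theorem functional_zero {n : ℕ} (v : Fin n → (Fin n → K)) (hv : LinearIndependent K v)
    (h : (Fin n → K) →ₗ[K] K) (hh : ∀ i, h (v i) = 0) : h = 0 := by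
  have hs : Submodule.span K (Set.range v) = ⊤ :=
    hv.span_eq_top_of_card_eq_finrank' (by simp)
  rw [← LinearMap.ker_eq_top, eq_top_iff, ← hs, Submodule.span_le]
  rintro _ ⟨i, rfl⟩
  exact hh i

/-- the derivative of a form as a functional -/
noncomputable def ddL {n : ℕ} (f : MvPolynomial (Fin n) K) (x : Fin n → K) :
    (Fin n → K) →ₗ[K] K where
  toFun := dd f x
  map_add' := dd_add_right f x
  map_smul' t y := by simp [dd_smul_right]

@[simp] theorem ddL_apply {n : ℕ} (f : MvPolynomial (Fin n) K) (x y : Fin n → K) :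
    ddL f x y = dd f x y := rfl

/-- dichotomy for first order deformations of a line -/
theorem dichotomy {n : ℕ} (u w u' w' : Fin n → K) (h : LinearIndependent K ![u, w])
    (hn : ¬ (u' ∈ Submodule.span K {u, w} ∧ w' ∈ Submodule.span K {u, w})) :
    LinearIndependent K ![w', u', u, w] ∨
    ∃ (m : Fin n → K) (p q : K), (p ≠ 0 ∨ q ≠ 0) ∧ LinearIndependent K ![m, u, w] ∧
      (∃ a b : K, u' = p • m + a • u + b • w) ∧ (∃ a b : K, w' = q • m + a • u + b • w) := by
  have hrange : Set.range ![u, w] = {u, w} := by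
    ext x
    simp [Matrix.range_cons, Matrix.range_empty]
    tauto
  by_cases hu : u' ∈ Submodule.span K {u, w}
  · right
    have hw : w' ∉ Submodule.span K {u, w} := fun h => hn ⟨hu, h⟩
    refine ⟨w', 0, 1, Or.inr one_ne_zero, linearIndependent_finCons.mpr ⟨h, by rwa [hrange]⟩,
      ?_, ⟨0, 0, by simp⟩⟩
    obtain ⟨a, b, hab⟩ := Submodule.mem_span_pair.mp hu
    exact ⟨a, b, by rw [← hab]; simp⟩
  · have hu3 : LinearIndependent K ![u', u, w] :=
      linearIndependent_finCons.mpr ⟨h, by rwa [hrange]⟩
    by_cases hw : w' ∈ Submodule.span K {u', u, w}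
    · right
      obtain ⟨q, a, b, hab⟩ := Submodule.mem_span_triple.mp hw
      exact ⟨u', 1, q, Or.inl one_ne_zero, hu3, ⟨0, 0, by simp⟩, ⟨a, b, by rw [← hab]⟩⟩
    · left
      apply linearIndependent_finCons.mpr
      refine ⟨hu3, ?_⟩
      have : Set.range ![u', u, w] = {u', u, w} := by
        ext x
        simp [Matrix.range_cons, Matrix.range_empty]
        tauto
      rwa [this]

theorem ne_zero_of_indep {n : ℕ} {u w : Fin n → K} (h : LinearIndependent K ![u, w]) {s t : K}
    (hst : s ≠ 0 ∨ t ≠ 0) : s • u + t • w ≠ 0 := by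
  intro h0
  rw [LinearIndependent.pair_iff] at h
  have := h s t h0
  rcases hst with h1 | h1
  · exact h1 this.1
  · exact h1 this.2

/-! ### cubic surfaces -/

theorem cubic_expand {n : ℕ} (g : MvPolynomial (Fin n) K) (hg : g.IsHomogeneous 3)
    (u w : Fin n → K) : ∃ β : (Fin n → K) →ₗ[K] K,
      (∀ s t z, dd g (s • u + t • w) z = s ^ 2 * dd g u z + s * t * β z + t ^ 2 * dd g w z) ∧
      (∀ s t, aeval (s • u + t • w) g = s ^ 3 * aeval u g + s ^ 2 * t * dd g u w +
        s * t ^ 2 * dd g w u + t ^ 3 * aeval w g) ∧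
      (β u = 2 * dd g u w) ∧ (β w = 2 * dd g w u) ∧ dd g u u = 3 * aeval u g ∧
      dd g w w = 3 * aeval w g := by
  obtain ⟨T, hT, hT'⟩ := cubic_trilinear g hg
  refine ⟨ddL g (u + w) - ddL g u - ddL g w, ?_, ?_, ?_, ?_, ?_, ?_⟩
  · intro s t z
    simp only [LinearMap.sub_apply, ddL_apply, hT', map_add, map_smul, LinearMap.add_apply,
      LinearMap.smul_apply, smul_eq_mul]
    ring
  · intro s t
    simp only [hT, hT', map_add, map_smul, LinearMap.add_apply,
      LinearMap.smul_apply, smul_eq_mul]
    ring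
  · simp only [LinearMap.sub_apply, ddL_apply, hT', map_add, map_smul, LinearMap.add_apply,
      LinearMap.smul_apply, smul_eq_mul]
    ring
  · simp only [LinearMap.sub_apply, ddL_apply, hT', map_add, map_smul, LinearMap.add_apply,
      LinearMap.smul_apply, smul_eq_mul]
    ring
  · rw [hT, hT']; ring
  · rw [hT, hT']; ring

theorem cubic_no_deformation [IsAlgClosed K] (g : MvPolynomial (Fin 4) K) (hg : g.IsHomogeneous 3)
    (hsm : ∀ x : Fin 4 → K, x ≠ 0 → aeval x g = 0 → ddL g x ≠ 0)
    (u w u' w' : Fin 4 → K) (h : LinearIndependent K ![u, w])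
    (hline : ∀ s t : K, aeval (s • u + t • w) g = 0)
    (htan : ∀ s t : K, dd g (s • u + t • w) (s • u' + t • w') = 0) :
    u' ∈ Submodule.span K {u, w} ∧ w' ∈ Submodule.span K {u, w} := by
  obtain ⟨β, h1, h2, h3, h4, h5, h6⟩ := cubic_expand g hg u w
  -- the coefficients along the line vanish
  have hu0 : aeval u g = 0 := by simpa using hline 1 0
  have hw0 : aeval w g = 0 := by simpa using hline 0 1
  have hc := poly_coeffs 0 (dd g u w) (dd g w u) 0 (by
    intro t
    have := hline 1 t
    rw [h2, hu0, hw0] at this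
    linear_combination this)
  obtain ⟨-, huw, hwu, -⟩ := hc
  rw [huw, mul_zero] at h3
  rw [hwu, mul_zero] at h4
  rw [hu0, mul_zero] at h5
  rw [hw0, mul_zero] at h6
  have hsmooth : ∀ s t : K, (s ≠ 0 ∨ t ≠ 0) → ddL g (s • u + t • w) ≠ 0 := fun s t hst =>
    hsm _ (ne_zero_of_indep h hst) (hline s t)
  have htan2 : ∀ s t : K, s ^ 3 * dd g u u' + s ^ 2 * t * (dd g u w' + β u') +
      s * t ^ 2 * (β w' + dd g w u') + t ^ 3 * dd g w w' = 0 := by
    intro s t
    have := htan s t
    rw [dd_add_right, dd_smul_right, dd_smul_right, h1, h1] at this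
    linear_combination this
  obtain ⟨e1, e2, e3, e4⟩ := poly_coeffs (dd g u u') (dd g u w' + β u') (β w' + dd g w u')
    (dd g w w') (by
      intro t
      have := htan2 1 t
      linear_combination this)
  by_contra hn
  rcases dichotomy u w u' w' h hn with hB | ⟨m, p, q, hpq, hm, ⟨a, b, hab⟩, ⟨a', b', hab'⟩⟩
  · -- generic case
    obtain ⟨s, t, hst, hz⟩ := lin_zero (dd g u w') (β w')
    apply hsmooth s t hst
    apply functional_zero _ hB
    intro i
    fin_cases i
    · change ddL g (s • u + t • w) w' = 0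
      rw [ddL_apply, h1, e4]
      linear_combination s * hz
    · change ddL g (s • u + t • w) u' = 0
      rw [ddL_apply, h1, e1]
      linear_combination s * t * e2 + t ^ 2 * e3 - t * hz
    · change ddL g (s • u + t • w) u = 0
      rw [ddL_apply, h1, h5, h3, hwu]; ring
    · change ddL g (s • u + t • w) w = 0
      rw [ddL_apply, h1, h6, h4, huw]; ring
  · -- special case
    have hdu' : dd g u u' = p * dd g u m := by
      rw [hab, dd_add_right, dd_add_right, dd_smul_right, dd_smul_right, dd_smul_right, h5, huw]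
      ring
    have hdw' : dd g w w' = q * dd g w m := by
      rw [hab', dd_add_right, dd_add_right, dd_smul_right, dd_smul_right, dd_smul_right, hwu, h6]
      ring
    have hduw' : dd g u w' = q * dd g u m := by
      rw [hab', dd_add_right, dd_add_right, dd_smul_right, dd_smul_right, dd_smul_right, h5, huw]
      ring
    have hdwu' : dd g w u' = p * dd g w m := by
      rw [hab, dd_add_right, dd_add_right, dd_smul_right, dd_smul_right, dd_smul_right, hwu, h6]
      ring
    have hβu' : β u' = p * β m := by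
      rw [hab]; simp [h3, h4]
    have hβw' : β w' = q * β m := by
      rw [hab']; simp [h3, h4]
    rw [hdu'] at e1
    rw [hduw', hβu'] at e2
    rw [hβw', hdwu'] at e3
    rw [hdw'] at e4
    have hzero : dd g u m = 0 ∧ β m = 0 ∧ dd g w m = 0 := by
      by_cases hp : p = 0
      · have hq : q ≠ 0 := by
          rcases hpq with h | h
          · exact absurd hp h
          · exact h
        subst hp
        simp only [zero_mul, add_zero] at e2 e3
        exact ⟨(mul_eq_zero.mp e2).resolve_left hq, (mul_eq_zero.mp e3).resolve_left hq,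
          (mul_eq_zero.mp e4).resolve_left hq⟩
      · have h1 := (mul_eq_zero.mp e1).resolve_left hp
        rw [h1, mul_zero, zero_add] at e2
        have h2 := (mul_eq_zero.mp e2).resolve_left hp
        rw [h2, mul_zero, zero_add] at e3
        exact ⟨h1, h2, (mul_eq_zero.mp e3).resolve_left hp⟩
    obtain ⟨z1, z2, z3⟩ := hzero
    obtain ⟨z, hz⟩ := exists_extend (by norm_num) _ hm
    obtain ⟨s, t, hst, hq⟩ := quad_zero (dd g u z) (β z) (dd g w z)
    apply hsmooth s t hst
    apply functional_zero _ hz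
    intro i
    fin_cases i
    · change ddL g (s • u + t • w) z = 0
      rw [ddL_apply, h1]; exact hq
    · change ddL g (s • u + t • w) m = 0
      rw [ddL_apply, h1, z1, z2, z3]; ring
    · change ddL g (s • u + t • w) u = 0
      rw [ddL_apply, h1, h5, h3, hwu]; ring
    · change ddL g (s • u + t • w) w = 0
      rw [ddL_apply, h1, h6, h4, huw]; ring

/-! ### intersections of two quadrics -/

theorem quad_expand {n : ℕ} (g : MvPolynomial (Fin n) K) (hg : g.IsHomogeneous 2)
    (u w : Fin n → K) :
      (∀ s t z, dd g (s • u + t • w) z = s * dd g u z + t * dd g w z) ∧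
      (∀ s t, aeval (s • u + t • w) g = s ^ 2 * aeval u g + s * t * dd g u w + t ^ 2 * aeval w g) ∧
      dd g u w = dd g w u ∧ dd g u u = 2 * aeval u g ∧ dd g w w = 2 * aeval w g := by
  obtain ⟨T, hT, hT'⟩ := quad_bilinear g hg
  refine ⟨?_, ?_, ?_, ?_, ?_⟩
  · intro s t z
    simp only [hT', map_add, map_smul, LinearMap.add_apply,
      LinearMap.smul_apply, smul_eq_mul]
    ring
  · intro s t
    simp only [hT, hT', map_add, map_smul, LinearMap.add_apply,
      LinearMap.smul_apply, smul_eq_mul]
    ring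
  · rw [hT', hT', add_comm]
  · rw [hT, hT']; ring
  · rw [hT, hT']; ring

/-- smoothness of the intersection of two quadrics, in terms of derivatives -/
def Smooth2 (g : Fin 2 → MvPolynomial (Fin 5) K) : Prop :=
  ∀ x : Fin 5 → K, x ≠ 0 → (∀ a, aeval x (g a) = 0) →
    ∀ μ ν : K, (∀ y, μ * dd (g 0) x y + ν * dd (g 1) x y = 0) → μ = 0 ∧ ν = 0

theorem singular_two (a b c d : K) (h : a * d - b * c = 0) :
    ∃ μ ν : K, (μ ≠ 0 ∨ ν ≠ 0) ∧ μ * a + ν * c = 0 ∧ μ * b + ν * d = 0 := by
  by_cases h1 : a = 0 ∧ c = 0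
  · obtain ⟨rfl, rfl⟩ := h1
    by_cases h2 : b = 0 ∧ d = 0
    · obtain ⟨rfl, rfl⟩ := h2
      exact ⟨1, 0, Or.inl one_ne_zero, by simp, by simp⟩
    · refine ⟨d, -b, ?_, by ring, by ring⟩
      by_contra hcon
      push Not at hcon
      exact h2 ⟨by simpa using hcon.2, hcon.1⟩
  · refine ⟨c, -a, ?_, by ring, by linear_combination -h⟩
    by_contra hcon
    push Not at hcon
    exact h1 ⟨by simpa using hcon.2, hcon.1⟩

theorem quad_no_deformation [IsAlgClosed K] (g : Fin 2 → MvPolynomial (Fin 5) K)
    (hg : ∀ a, (g a).IsHomogeneous 2) (hsm : Smooth2 g)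
    (u w u' w' : Fin 5 → K) (h : LinearIndependent K ![u, w])
    (hline : ∀ s t : K, ∀ a, aeval (s • u + t • w) (g a) = 0)
    (htan : ∀ s t : K, ∀ a, dd (g a) (s • u + t • w) (s • u' + t • w') = 0) :
    u' ∈ Submodule.span K {u, w} ∧ w' ∈ Submodule.span K {u, w} := by
  have h1 := fun a => (quad_expand (g a) (hg a) u w).1
  have h2 := fun a => (quad_expand (g a) (hg a) u w).2.1
  have hsymm := fun a => (quad_expand (g a) (hg a) u w).2.2.1
  have h5 := fun a => (quad_expand (g a) (hg a) u w).2.2.2.1
  have h6 := fun a => (quad_expand (g a) (hg a) u w).2.2.2.2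
  have hu0 : ∀ a, aeval u (g a) = 0 := fun a => by simpa using hline 1 0 a
  have hw0 : ∀ a, aeval w (g a) = 0 := fun a => by simpa using hline 0 1 a
  have huw : ∀ a, dd (g a) u w = 0 := fun a => by
    have := hline 1 1 a
    rw [h2, hu0, hw0] at this
    linear_combination this
  have hwu : ∀ a, dd (g a) w u = 0 := fun a => by rw [← hsymm a, huw]
  have huu : ∀ a, dd (g a) u u = 0 := fun a => by rw [h5, hu0, mul_zero]
  have hww : ∀ a, dd (g a) w w = 0 := fun a => by rw [h6, hw0, mul_zero]
  have hsmooth : ∀ s t : K, (s ≠ 0 ∨ t ≠ 0) → ∀ μ ν : K,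
      (∀ y, μ * dd (g 0) (s • u + t • w) y + ν * dd (g 1) (s • u + t • w) y = 0) →
        μ = 0 ∧ ν = 0 := fun s t hst =>
    hsm _ (ne_zero_of_indep h hst) (hline s t)
  have htan2 : ∀ a, ∀ t : K, dd (g a) u u' + t * (dd (g a) u w' + dd (g a) w u') +
      t ^ 2 * dd (g a) w w' + t ^ 3 * 0 = 0 := by
    intro a t
    have := htan 1 t a
    rw [dd_add_right, dd_smul_right, dd_smul_right, h1, h1] at this
    linear_combination this
  have e1 := fun a => (poly_coeffs _ _ _ _ (htan2 a)).1
  have e2 := fun a => (poly_coeffs _ _ _ _ (htan2 a)).2.1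
  have e3 := fun a => (poly_coeffs _ _ _ _ (htan2 a)).2.2.1
  by_contra hn
  rcases dichotomy u w u' w' h hn with hB | ⟨m, p, q, hpq, hm, ⟨a, b, hab⟩, ⟨a', b', hab'⟩⟩
  · obtain ⟨z, hz⟩ := exists_extend (by norm_num) _ hB
    obtain ⟨s, t, hst, hlin⟩ := lin_zero
      (dd (g 1) u w' * dd (g 0) u z - dd (g 0) u w' * dd (g 1) u z)
      (dd (g 1) u w' * dd (g 0) w z - dd (g 0) u w' * dd (g 1) w z)
    have key : ∀ μ ν : K, (μ * dd (g 0) (s • u + t • w) z + ν * dd (g 1) (s • u + t • w) z = 0) →
        (μ * dd (g 0) (s • u + t • w) w' + ν * dd (g 1) (s • u + t • w) w' = 0) →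
        (μ * dd (g 0) (s • u + t • w) u' + ν * dd (g 1) (s • u + t • w) u' = 0) →
        μ = 0 ∧ ν = 0 := by
      intro μ ν k1 k2 k3
      apply hsmooth s t hst
      have : μ • ddL (g 0) (s • u + t • w) + ν • ddL (g 1) (s • u + t • w) = 0 := by
        apply functional_zero _ hz
        intro i
        fin_cases i
        · exact k1
        · exact k2
        · exact k3
        · change μ * dd (g 0) (s • u + t • w) u + ν * dd (g 1) (s • u + t • w) u = 0
          rw [h1, h1, huu, huu, hwu, hwu]; ring
        · change μ * dd (g 0) (s • u + t • w) w + ν * dd (g 1) (s • u + t • w) w = 0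
          rw [h1, h1, hww, hww, huw, huw]; ring
      intro y
      exact LinearMap.congr_fun this y
    have k := key (dd (g 1) u w') (-dd (g 0) u w')
      (by rw [h1, h1]; linear_combination hlin)
      (by rw [h1, h1, e3, e3]; ring)
      (by rw [h1, h1, e1, e1]; linear_combination t * dd (g 1) u w' * e2 0 -
            t * dd (g 0) u w' * e2 1)
    have x0 : dd (g 0) u w' = 0 := by simpa using k.2
    have x1 : dd (g 1) u w' = 0 := k.1
    -- now both functionals vanish on w', u', u, w
    have y0 : dd (g 0) w u' = 0 := by have := e2 0; rw [x0, zero_add] at this; exact this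
    have y1 : dd (g 1) w u' = 0 := by have := e2 1; rw [x1, zero_add] at this; exact this
    obtain ⟨μ, ν, hμν, hlin2⟩ := lin_zero (dd (g 0) (s • u + t • w) z) (dd (g 1) (s • u + t • w) z)
    have k' := key μ ν hlin2 (by rw [h1, h1, e3, e3, x0, x1]; ring)
      (by rw [h1, h1, e1, e1, y0, y1]; ring)
    rcases hμν with h | h
    · exact h k'.1
    · exact h k'.2
  · have hdu' : ∀ i, dd (g i) u u' = p * dd (g i) u m := fun i => by
      rw [hab, dd_add_right, dd_add_right, dd_smul_right, dd_smul_right, dd_smul_right, huu, huw]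
      ring
    have hdw' : ∀ i, dd (g i) w w' = q * dd (g i) w m := fun i => by
      rw [hab', dd_add_right, dd_add_right, dd_smul_right, dd_smul_right, dd_smul_right, hwu, hww]
      ring
    have hduw' : ∀ i, dd (g i) u w' = q * dd (g i) u m := fun i => by
      rw [hab', dd_add_right, dd_add_right, dd_smul_right, dd_smul_right, dd_smul_right, huu, huw]
      ring
    have hdwu' : ∀ i, dd (g i) w u' = p * dd (g i) w m := fun i => by
      rw [hab, dd_add_right, dd_add_right, dd_smul_right, dd_smul_right, dd_smul_right, hwu, hww]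
      ring
    have hzero : ∀ i, dd (g i) u m = 0 ∧ dd (g i) w m = 0 := by
      intro i
      have e1 := e1 i
      have e2 := e2 i
      have e3 := e3 i
      rw [hdu'] at e1
      rw [hduw', hdwu'] at e2
      rw [hdw'] at e3
      by_cases hp : p = 0
      · have hq : q ≠ 0 := by
          rcases hpq with h | h
          · exact absurd hp h
          · exact h
        subst hp
        simp only [zero_mul, add_zero] at e2
        exact ⟨(mul_eq_zero.mp e2).resolve_left hq, (mul_eq_zero.mp e3).resolve_left hq⟩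
      · have h1 := (mul_eq_zero.mp e1).resolve_left hp
        rw [h1, mul_zero, zero_add] at e2
        exact ⟨h1, (mul_eq_zero.mp e2).resolve_left hp⟩
    obtain ⟨z, hz⟩ := exists_extend (by norm_num) _ hm
    obtain ⟨z', hz'⟩ := exists_extend (by norm_num) _ hz
    obtain ⟨s, t, hst, hq⟩ := quad_zero
      (dd (g 0) u z * dd (g 1) u z' - dd (g 0) u z' * dd (g 1) u z)
      (dd (g 0) u z * dd (g 1) w z' + dd (g 0) w z * dd (g 1) u z'
        - dd (g 0) u z' * dd (g 1) w z - dd (g 0) w z' * dd (g 1) u z)
      (dd (g 0) w z * dd (g 1) w z' - dd (g 0) w z' * dd (g 1) w z)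
    obtain ⟨μ, ν, hμν, r1, r2⟩ := singular_two (dd (g 0) (s • u + t • w) z)
      (dd (g 0) (s • u + t • w) z') (dd (g 1) (s • u + t • w) z) (dd (g 1) (s • u + t • w) z')
      (by rw [h1, h1, h1, h1]; linear_combination hq)
    have k : μ = 0 ∧ ν = 0 := by
      apply hsmooth s t hst
      have : μ • ddL (g 0) (s • u + t • w) + ν • ddL (g 1) (s • u + t • w) = 0 := by
        apply functional_zero _ hz'
        intro i
        fin_cases i
        · exact r2
        · exact r1
        · change μ * dd (g 0) (s • u + t • w) m + ν * dd (g 1) (s • u + t • w) m = 0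
          rw [h1, h1, (hzero 0).1, (hzero 0).2, (hzero 1).1, (hzero 1).2]; ring
        · change μ * dd (g 0) (s • u + t • w) u + ν * dd (g 1) (s • u + t • w) u = 0
          rw [h1, h1, huu, huu, hwu, hwu]; ring
        · change μ * dd (g 0) (s • u + t • w) w + ν * dd (g 1) (s • u + t • w) w = 0
          rw [h1, h1, hww, hww, huw, huw]; ring
      intro y
      exact LinearMap.congr_fun this y
    rcases hμν with h | h
    · exact h k.1
    · exact h k.2

end Pool.Agent.R865.DP
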