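import Pool.Agent.R865.DPQuad

/-!
Density of the points defined over an étale algebra.
-/

namespace Pool.Agent.R865.DP

open MvPolynomial

theorem aeval_smul_homog {σ R A : Type*} [Fintype σ] [CommRing R] [CommRing A] [Algebra R A]
    {m : ℕ} (p : MvPolynomial σ R) (hp : p.IsHomogeneous m) (t : A) (x : σ → A) :
    aeval (fun i => t * x i) p = t ^ m * aeval x p := by
  rw [aeval_def, aeval_def, eval₂_eq', eval₂_eq', Finset.mul_sum]
  apply Finset.sum_congr rfl
  intro d hd
  have hdeg : ∑ i, d i = m := by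
    have h1 := hp (mem_support_iff.mp hd)
    have h2 : (Finsupp.weight 1) d = m := h1
    rw [← h2, Finsupp.weight_apply, Finsupp.sum_fintype]
    · simp
    · simp
  simp only [mul_pow, Finset.prod_mul_distrib, Finset.prod_pow_eq_pow_sum, hdeg]
  ring

variable {k K : Type*} [Field k] [Field K] [Algebra k K]

theorem dominant_all [Infinite K] {c : ℕ} {F : Fin c → MvPolynomial (Fin (c + 3)) k} {r : ℕ}
    (hr : r ≠ 0) (φ : Fin (c + 3) → MvPolynomial (Fin 3) k) (hφ : ∀ i, (φ i).IsHomogeneous r)
    (hdom : ∀ (m : ℕ) (G : MvPolynomial (Fin (c + 3)) K), G.IsHomogeneous m →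
      (∀ y : Fin 3 → K, aeval (fun i => aeval y (φ i)) G = 0) →
      ∀ x : Fin (c + 3) → K, (∀ a, aeval x (F a) = 0) → aeval x G = 0)
    (G : MvPolynomial (Fin (c + 3)) K)
    (hG : ∀ y : Fin 3 → K, aeval (fun i => aeval y (φ i)) G = 0)
    (x : Fin (c + 3) → K) (hx : ∀ a, aeval x (F a) = 0) : aeval x G = 0 := by
  classical
  have hcomp : ∀ m, ∀ y : Fin 3 → K,
      aeval (fun i => aeval y (φ i)) (homogeneousComponent m G) = 0 := by
    intro m₀ y
    let z : Fin (c + 3) → K := fun i => aeval y (φ i)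
    let p : Polynomial K := ∑ m ∈ Finset.range (G.totalDegree + 1),
      Polynomial.C (aeval z (homogeneousComponent m G)) * Polynomial.X ^ (r * m)
    have hp : p = 0 := by
      apply Polynomial.funext
      intro t
      have h1 := hG (fun j => t * y j)
      have h2 : (fun i => aeval (fun j => t * y j) (φ i)) = fun i => t ^ r * z i := by
        funext i
        exact aeval_smul_homog (φ i) (hφ i) t y
      rw [h2] at h1
      rw [← sum_homogeneousComponent G, map_sum] at h1
      simp only [p, Polynomial.eval_finset_sum, Polynomial.eval_mul, Polynomial.eval_C,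
        Polynomial.eval_pow, Polynomial.eval_X, Polynomial.eval_zero]
      rw [← h1]
      apply Finset.sum_congr rfl
      intro m _
      rw [aeval_smul_homog _ (homogeneousComponent_isHomogeneous m G) (t ^ r) z, ← pow_mul]
      ring
    by_cases hm : m₀ ∈ Finset.range (G.totalDegree + 1)
    · have h3 := congrArg (fun q => Polynomial.coeff q (r * m₀)) hp
      simp only [p, Polynomial.finset_sum_coeff, Polynomial.coeff_C_mul, Polynomial.coeff_X_pow,
        Polynomial.coeff_zero] at h3
      rw [Finset.sum_eq_single m₀] at h3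
      · simpa using h3
      · intro b _ hb
        have : r * m₀ ≠ r * b := fun h => hb (Nat.eq_of_mul_eq_mul_left (Nat.pos_of_ne_zero hr) h).symm
        simp [this]
      · intro h; exact absurd hm h
    · rw [Finset.mem_range, not_lt] at hm
      rw [homogeneousComponent_eq_zero _ _ (by omega), map_zero]
  rw [← sum_homogeneousComponent G, map_sum]
  apply Finset.sum_eq_zero
  intro m _
  exact hdom m _ (homogeneousComponent_isHomogeneous m G) (hcomp m) x hx

/-- restriction of a polynomial function to one of the vectors -/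
theorem exists_slot {N n : ℕ} (W : (Fin N → Fin n → K) → K) (hW : W ∈ polyFn K N n)
    (P : Fin N → Fin n → K) (i₀ : Fin N) :
    ∃ G : MvPolynomial (Fin n) K, ∀ z, aeval z G = W (Function.update P i₀ z) := by
  classical
  obtain ⟨p, rfl⟩ := hW
  refine ⟨aeval (fun q : Fin N × Fin n => if q.1 = i₀ then X q.2 else C (P q.1 q.2)) p, ?_⟩
  intro z
  change _ = evalFn K N n p _
  rw [evalFn_apply, ← AlgHom.comp_apply, comp_aeval]
  congr 2
  funext q
  by_cases h : q.1 = i₀
  · rw [if_pos h, h]; simp
  · rw [if_neg h]; simp [Function.update_of_ne h]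

theorem dominant_product [Infinite K] {c N : ℕ} {F : Fin c → MvPolynomial (Fin (c + 3)) k}
    (φ : Fin (c + 3) → MvPolynomial (Fin 3) k) (hφF : ∀ a, aeval φ (F a) = 0)
    (hdom : ∀ G : MvPolynomial (Fin (c + 3)) K,
      (∀ y : Fin 3 → K, aeval (fun i => aeval y (φ i)) G = 0) →
      ∀ x : Fin (c + 3) → K, (∀ a, aeval x (F a) = 0) → aeval x G = 0)
    (W : (Fin N → Fin (c + 3) → K) → K) (hW : W ∈ polyFn K N (c + 3))
    (P : Fin N → Fin (c + 3) → K) (hP : ∀ i a, aeval (P i) (F a) = 0) (hWP : W P ≠ 0) :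
    ∃ y : Fin N → Fin 3 → K, W (fun i l => aeval (y i) (φ l)) ≠ 0 := by
  classical
  have hX : ∀ y : Fin 3 → K, ∀ a, aeval (fun l => aeval y (φ l)) (F a) = 0 := by
    intro y a
    have := congrArg (aeval y) (hφF a)
    rw [← AlgHom.comp_apply, comp_aeval, map_zero] at this
    exact this
  have key : ∀ I : Finset (Fin N), ∃ P' : Fin N → Fin (c + 3) → K,
      (∀ i ∈ I, ∃ y : Fin 3 → K, P' i = fun l => aeval y (φ l)) ∧
      (∀ i a, aeval (P' i) (F a) = 0) ∧ W P' ≠ 0 := by
    intro I
    induction I using Finset.induction_on with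
    | empty => exact ⟨P, by simp, hP, hWP⟩
    | insert i₀ I hi₀ ih =>
      obtain ⟨P', h1, h2, h3⟩ := ih
      obtain ⟨G, hG⟩ := exists_slot W hW P' i₀
      have hne : aeval (P' i₀) G ≠ 0 := by
        rw [hG, Function.update_eq_self]
        exact h3
      have : ∃ y : Fin 3 → K, aeval (fun l => aeval y (φ l)) G ≠ 0 := by
        by_contra hcon
        push Not at hcon
        exact hne (hdom G hcon (P' i₀) (h2 i₀))
      obtain ⟨y, hy⟩ := this
      refine ⟨Function.update P' i₀ (fun l => aeval y (φ l)), ?_, ?_, ?_⟩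
      · intro i hi
        rw [Finset.mem_insert] at hi
        by_cases h : i = i₀
        · subst h
          exact ⟨y, by simp⟩
        · obtain ⟨y', hy'⟩ := h1 i (hi.resolve_left h)
          exact ⟨y', by rw [Function.update_of_ne h]; exact hy'⟩
      · intro i a
        by_cases h : i = i₀
        · subst h
          rw [Function.update_self]
          exact hX y a
        · rw [Function.update_of_ne h]
          exact h2 i a
      · rw [← hG]; exact hy
  obtain ⟨P', h1, -, h3⟩ := key Finset.univ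
  choose y hy using fun i => h1 i (Finset.mem_univ i)
  exact ⟨y, by
    have : P' = fun i l => aeval (y i) (φ l) := funext hy
    rwa [this] at h3⟩

/-! ### étale algebras -/

theorem embeddings_surj {L ι : Type*} [Field L] [Algebra k L] [FiniteDimensional k L] [Fintype ι]
    (b : Module.Basis ι k L) (z : (L →ₐ[k] K) → K) :
    ∃ y : ι → K, ∀ σ : L →ₐ[k] K, ∑ a, y a * σ (b a) = z σ := by
  classical
  have hfin : Fintype (L →ₐ[k] K) := Fintype.ofFinite _
  let Λ : (ι → K) →ₗ[K] ((L →ₐ[k] K) → K) :=
    LinearMap.pi fun σ => ∑ a, σ (b a) • LinearMap.proj a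
  have hΛ : ∀ y σ, Λ y σ = ∑ a, y a * σ (b a) := by
    intro y σ
    simp [Λ, mul_comm]
  have htop : LinearMap.range Λ = ⊤ := by
    by_contra hne
    obtain ⟨h, hh, hle⟩ := Submodule.exists_le_ker_of_lt_top _ (lt_top_iff_ne_top.mpr hne)
    have hcoef : ∀ y : (L →ₐ[k] K) → K, h y = ∑ σ, h (Pi.single σ 1) * y σ := by
      intro y
      conv_lhs => rw [show y = ∑ σ, y σ • (Pi.single σ 1 : (L →ₐ[k] K) → K) by
        ext i; simp [Finset.sum_apply, Pi.single_apply]]
      rw [map_sum]
      apply Finset.sum_congr rfl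
      intro σ _
      rw [map_smul, smul_eq_mul, mul_comm]
    have h1 : ∀ a, ∑ σ : L →ₐ[k] K, h (Pi.single σ 1) * σ (b a) = 0 := by
      intro a
      have := hle ⟨Pi.single a 1, rfl⟩
      rw [LinearMap.mem_ker, hcoef] at this
      rw [← this]
      apply Finset.sum_congr rfl
      intro σ _
      rw [hΛ]
      congr 1
      simp [Pi.single_apply]
    have h2 : ∑ σ : L →ₐ[k] K, h (Pi.single σ 1) • (σ.toLinearMap : L →ₗ[k] K) = 0 := by
      apply b.ext
      intro a
      simpa using h1 a
    have h3 := Fintype.linearIndependent_iff.mp (linearIndependent_toLinearMap k L K) _ h2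
    apply hh
    apply LinearMap.ext
    intro y
    rw [hcoef]
    simp [h3]
  have : z ∈ LinearMap.range Λ := by rw [htop]; trivial
  obtain ⟨y, hy⟩ := this
  exact ⟨y, fun σ => by rw [← hΛ, hy]⟩

/-- A nonzero polynomial in the conjugates does not vanish at suitable elements of the étale
algebra `∏ L t`. -/
theorem density [Infinite k] {T : Type*} [Fintype T] (L : T → Type*) [∀ t, Field (L t)]
    [∀ t, Algebra k (L t)] [∀ t, FiniteDimensional k (L t)] {τ : Type*} [Fintype τ]
    (W : MvPolynomial ((Σ t, (L t →ₐ[k] K)) × τ) K) (hW : W ≠ 0) :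
    ∃ u : ∀ t, τ → L t, aeval (fun q : (Σ t, (L t →ₐ[k] K)) × τ => q.1.2 (u q.1.1 q.2)) W ≠ 0 := by
  classical
  have hKinf : Infinite K := Infinite.of_injective _ (algebraMap k K).injective
  let b : ∀ t, Module.Basis (Fin (Module.finrank k (L t))) k (L t) := fun t =>
    Module.finBasis k (L t)
  let Z := (Σ t, Fin (Module.finrank k (L t))) × τ
  let W' : MvPolynomial Z K := aeval (fun q : (Σ t, (L t →ₐ[k] K)) × τ =>
    ∑ a, C (q.1.2 (b q.1.1 a)) * (X (⟨q.1.1, a⟩, q.2) : MvPolynomial Z K)) W
  have hev : ∀ y : Z → K, aeval y W' = aeval (fun q : (Σ t, (L t →ₐ[k] K)) × τ =>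
      ∑ a, y (⟨q.1.1, a⟩, q.2) * q.1.2 (b q.1.1 a)) W := by
    intro y
    simp only [W']
    rw [← AlgHom.comp_apply, comp_aeval]
    congr 2
    funext q
    rw [map_sum]
    apply Finset.sum_congr rfl
    intro a _
    simp [mul_comm]
  have hW' : W' ≠ 0 := by
    intro h0
    apply hW
    apply MvPolynomial.funext
    intro z
    -- lift z
    choose y hy using fun (t : T) (j : τ) =>
      embeddings_surj (b t) (fun σ : L t →ₐ[k] K => z (⟨t, σ⟩, j))
    have h1 := hev (fun q => y q.1.1 q.2 q.1.2)
    rw [h0, map_zero] at h1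
    have h2 : (fun q : (Σ t, (L t →ₐ[k] K)) × τ =>
        ∑ a, y q.1.1 q.2 a * q.1.2 (b q.1.1 a)) = z := by
      funext ⟨⟨t, σ⟩, j⟩
      exact hy t j σ
    simp only at h1
    rw [h2] at h1
    rw [map_zero, h1]
    rfl
  -- a k-point
  have hpt : ∃ y : Z → k, aeval (fun q => algebraMap k K (y q)) W' ≠ 0 := by
    by_contra hcon
    push Not at hcon
    apply hW'
    apply MvPolynomial.funext_set (fun _ => Set.range (algebraMap k K))
      (fun _ => Set.infinite_range_of_injective (algebraMap k K).injective)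
    intro x hx
    choose y hy using fun q => hx q (Set.mem_univ q)
    have := hcon y
    have h1 : (fun q => algebraMap k K (y q)) = x := funext hy
    rw [h1] at this
    rw [map_zero, ← this]
    rfl
  obtain ⟨y, hy⟩ := hpt
  refine ⟨fun t j => ∑ a, y (⟨t, a⟩, j) • b t a, ?_⟩
  rw [hev] at hy
  convert! hy using 2
  congr 1
  funext q
  rw [map_sum]
  apply Finset.sum_congr rfl
  intro a _
  rw [map_smul, Algebra.smul_def]

theorem exists_conj {L : Type*} [Field L] [Algebra k L] [Normal k K] (σ σ' : L →ₐ[k] K) :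
    ∃ τ : K ≃ₐ[k] K, ∀ x, τ (σ x) = σ' x := by
  let χ : σ.fieldRange ≃ₐ[k] σ'.fieldRange :=
    (AlgHom.equivFieldRange σ).symm.trans (AlgHom.equivFieldRange σ')
  refine ⟨χ.liftNormal K, ?_⟩
  intro x
  have h1 : σ x = algebraMap σ.fieldRange K (AlgHom.equivFieldRange σ x) := rfl
  rw [h1, AlgEquiv.liftNormal_commutes]
  simp only [χ, AlgEquiv.trans_apply, AlgEquiv.symm_apply_apply]
  rfl

end Pool.Agent.R865.DP
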