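import Pool.Agent.R865.DPMain

/-!
Closed points: from tuples of conjugate points to sets of closed points.
-/

universe u

namespace Pool.Agent.R865.DP

open MvPolynomial LinearAlgebra.Projectivization

theorem exists_field {k : Type u} [Field k] (m : ℕ) (hm : 0 < m)
    (h : ∃ (L : Type u) (_ : Field L) (_ : Algebra k L),
      Algebra.IsSeparable k L ∧ Module.finrank k L = m) :
    ∃ E : IntermediateField k (AlgebraicClosure k), FiniteDimensional k E ∧
      Algebra.IsSeparable k E ∧ Module.finrank k E = m := by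
  obtain ⟨L, _, _, hsep, hfr⟩ := h
  have hfd : FiniteDimensional k L := Module.finite_of_finrank_pos (by omega)
  let σ : L →ₐ[k] AlgebraicClosure k := IsAlgClosed.lift
  have e : L ≃ₐ[k] σ.fieldRange := AlgHom.equivFieldRange σ
  refine ⟨σ.fieldRange, ?_, ?_, ?_⟩
  · exact Module.Finite.equiv e.toLinearEquiv
  · exact Algebra.IsSeparable.of_algHom k L e.symm.toAlgHom
  · rw [← hfr]
    exact e.toLinearEquiv.finrank_eq.symm

theorem final {k : Type u} [Field k] [Infinite k] {c e : ℕ}
    (hce : (c = 1 ∧ e = 3) ∨ (c = 2 ∧ e = 2))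
    (F : Fin c → MvPolynomial (Fin (c + 3)) k)
    (hX : IsDelPezzo e (fun a => map (algebraMap k (AlgebraicClosure k)) (F a)))
    (hU : IsUnirational (AlgebraicClosure k) F)
    (n : ℕ → ℕ) (hn : ∑ i ∈ Finset.Icc 1 8, i * n i ≤ c + 1)
    (hsep : ∀ i ∈ Finset.Icc 1 8, 0 < n i → ∃ (L : Type u) (_ : Field L) (_ : Algebra k L),
      Algebra.IsSeparable k L ∧ Module.finrank k L = i) :
    ∃ M : Set (Set (ℙ (AlgebraicClosure k) (Fin (c + 3) → AlgebraicClosure k))), M.Finite ∧
      (∀ O ∈ M, IsSepClosedPoint (AlgebraicClosure k) F O ∧ O.ncard ∈ Finset.Icc 1 8) ∧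
      (∀ i ∈ Finset.Icc 1 8, {O ∈ M | O.ncard = i}.ncard = n i) ∧
      InGeneralPosition (fun a => map (algebraMap k (AlgebraicClosure k)) (F a)) (⋃₀ M) := by
  classical
  set K := AlgebraicClosure k with hK
  let T₁ := Σ i : {i // i ∈ Finset.Icc 1 8}, Fin (n i.1)
  let N := ∑ i ∈ Finset.Icc 1 8, i * n i
  let T := T₁ ⊕ Fin (c + 1 - N)
  let m : T → ℕ := Sum.elim (fun p => p.1.1) (fun _ => 1)
  have hEex : ∀ t : T, ∃ E : IntermediateField k K, FiniteDimensional k E ∧
      Algebra.IsSeparable k E ∧ Module.finrank k E = m t := by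
    rintro (⟨⟨i, hi⟩, j⟩ | j)
    · have h1 : 1 ≤ i := (Finset.mem_Icc.mp hi).1
      exact exists_field i (by omega) (hsep i hi (Fin.pos j))
    · refine exists_field 1 one_pos ⟨k, inferInstance, inferInstance, inferInstance, ?_⟩
      exact Module.finrank_self k
  choose E hEfd hEsep hEfr using hEex
  have hsum : ∑ t, Module.finrank k (E t) = c + 1 := by
    simp only [hEfr]
    rw [Fintype.sum_sum_type]
    simp only [m, Sum.elim_inl, Sum.elim_inr]
    have h1 : ∑ p : T₁, p.1.1 = N := by
      rw [Fintype.sum_sigma]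
      simp only [Finset.sum_const, Finset.card_univ, Fintype.card_fin, smul_eq_mul]
      change _ = ∑ i ∈ Finset.Icc 1 8, i * n i
      rw [← Finset.sum_coe_sort (Finset.Icc 1 8) (fun i => i * n i)]
      apply Finset.sum_congr rfl
      intro i _
      rw [mul_comm]
    rw [h1]
    simp only [Finset.sum_const, Finset.card_univ, Fintype.card_fin, smul_eq_mul, mul_one]
    omega
  obtain ⟨P, x, hPx, hPX, ε, hGP⟩ := main hce F hX hU E hsum
  let f : Fin c → MvPolynomial (Fin (c + 3)) K := fun a => map (algebraMap k K) (F a)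
  have hfF : ∀ (x : Fin (c + 3) → K) a, aeval x (f a) = aeval x (F a) := by
    intro x a
    simp only [f]
    rw [aeval_map_algebraMap]
  have hP0 : ∀ i, P i ≠ 0 := by
    intro i
    have := hGP.ne_zero (ε i)
    simpa using this
  have hPd : ∀ i j, i ≠ j → ∀ r : K, P j ≠ r • P i := by
    intro i j hij r
    have := hGP.distinct (ε i) (ε j) (fun h => hij (ε.injective h)) r
    simpa using this
  let pt : (Σ t, (E t →ₐ[k] K)) → ℙ K (Fin (c + 3) → K) := fun i =>
    Projectivization.mk K (P i) (hP0 i)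
  have hpt : Function.Injective pt := by
    intro i j hij
    by_contra hne
    obtain ⟨a, ha⟩ := (Projectivization.mk_eq_mk_iff' K _ _ (hP0 i) (hP0 j)).mp hij
    exact hPd j i (Ne.symm hne) a ha.symm
  let O : T → Set (ℙ K (Fin (c + 3) → K)) := fun t =>
    Set.range fun σ : E t →ₐ[k] K => pt ⟨t, σ⟩
  have hOcard : ∀ t, (O t).ncard = m t := by
    intro t
    have hinj : Function.Injective fun σ : E t →ₐ[k] K => pt ⟨t, σ⟩ := by
      intro σ σ' h
      have := hpt h
      simpa using this
    change (Set.range fun σ : E t →ₐ[k] K => pt ⟨t, σ⟩).ncard = m t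
    rw [← Set.image_univ, Set.ncard_image_of_injective _ hinj, Set.ncard_univ,
      Nat.card_eq_fintype_card, AlgHom.card k (E t) K, hEfr]
  have hOinj : Function.Injective O := by
    intro t t' h
    have h1 : pt ⟨t, (E t).val⟩ ∈ O t' := by
      rw [← h]
      exact ⟨_, rfl⟩
    obtain ⟨σ, hσ⟩ := h1
    have := hpt hσ
    exact (congrArg Sigma.fst this).symm
  have hOcl : ∀ t, IsSepClosedPoint K F (O t) := by
    intro t
    have hx : (fun l => (E t).val (x t l)) = P ⟨t, (E t).val⟩ := (hPx t (E t).val).symm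
    refine ⟨fun l => (E t).val (x t l), ?_, ?_, ?_, ?_⟩
    · rw [hx]; exact hP0 _
    · intro l
      exact (isSeparable_map_iff (E t).val (E t).val.injective).mpr
        (Algebra.IsSeparable.isSeparable k (x t l))
    · intro a
      rw [hx]
      exact hPX _ a
    · apply Set.eq_of_subset_of_subset
      · rintro _ ⟨σ, rfl⟩
        obtain ⟨τ, hτ⟩ := exists_conj (K := K) (E t).val σ
        have h1 : (fun i => τ ((E t).val (x t i))) = P ⟨t, σ⟩ := by
          rw [hPx t σ]
          funext l
          exact hτ _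
        refine ⟨τ, by rw [h1]; exact hP0 _, ?_⟩
        simp only [h1]
        rfl
      · rintro _ ⟨τ, h, rfl⟩
        refine ⟨τ.toAlgHom.comp (E t).val, ?_⟩
        have h1 : (fun i => τ ((E t).val (x t i))) = P ⟨t, τ.toAlgHom.comp (E t).val⟩ := by
          rw [hPx]
          rfl
        simp only [h1]
        rfl
  let M : Set (Set (ℙ K (Fin (c + 3) → K))) := Set.range fun t : T₁ => O (Sum.inl t)
  have hMinj : Function.Injective fun t : T₁ => O (Sum.inl t) := by
    intro t t' h
    exact Sum.inl_injective (hOinj h)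
  have hS : ∀ Q ∈ ⋃₀ M, ∃ i, Q = pt i := by
    rintro Q ⟨_, ⟨t, rfl⟩, ⟨σ, rfl⟩⟩
    exact ⟨_, rfl⟩
  have hSfin : (⋃₀ M).Finite := (Set.finite_range pt).subset (by
    intro Q hQ
    obtain ⟨i, rfl⟩ := hS Q hQ
    exact ⟨i, rfl⟩)
  have hmk : ∀ (y : Fin (c + 3) → K) (hy : y ≠ 0) i, Projectivization.mk K y hy = pt i →
      ∃ r : K, r ≠ 0 ∧ y = r • P i := by
    intro y hy i h
    obtain ⟨a, ha⟩ := (Projectivization.mk_eq_mk_iff' K _ _ hy (hP0 i)).mp h
    refine ⟨a, ?_, ha.symm⟩
    rintro rfl
    apply hy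
    rw [← ha, zero_smul]
  refine ⟨M, Set.finite_range _, ?_, ?_, ?_⟩
  · rintro _ ⟨t, rfl⟩
    refine ⟨hOcl _, ?_⟩
    simp only
    rw [hOcard]
    exact t.1.2
  · intro i hi
    have h1 : {O' ∈ M | O'.ncard = i} =
        (fun t : T₁ => O (Sum.inl t)) '' Set.range (fun j : Fin (n i) => (⟨⟨i, hi⟩, j⟩ : T₁)) := by
      ext A
      constructor
      · rintro ⟨⟨⟨⟨i', hi'⟩, j⟩, rfl⟩, h⟩
        simp only at h
        rw [hOcard] at h
        have h' : i' = i := h
        subst h'
        exact ⟨_, ⟨j, rfl⟩, rfl⟩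
      · rintro ⟨_, ⟨j, rfl⟩, rfl⟩
        refine ⟨⟨_, rfl⟩, ?_⟩
        simp only
        rw [hOcard]
        rfl
    rw [h1, Set.ncard_image_of_injective _ hMinj, ← Set.image_univ,
      Set.ncard_image_of_injective, Set.ncard_univ, Nat.card_eq_fintype_card, Fintype.card_fin]
    intro j j' h
    exact eq_of_heq (Sigma.mk.inj_iff.mp h).2
  · refine ⟨hSfin, ?_, ?_, ?_⟩
    · intro y hy hmem a
      obtain ⟨i, hi⟩ := hS _ hmem
      obtain ⟨r, -, hr⟩ := hmk y hy i hi
      change aeval y (f a) = 0
      rw [hfF, hr]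
      have h1 := aeval_smul_homog (f a) (hX.homog a) r (P i)
      have h2 : (fun l => r * P i l) = r • P i := rfl
      rw [h2, hfF, hfF, hPX, mul_zero] at h1
      exact h1
    · intro m' hm1 hm3 v hv hline
      let T' : Finset (Fin (c + 1)) := Finset.univ.filter fun i =>
        P (ε.symm i) ∈ Submodule.span K (Set.range v)
      have hT' := hGP.curves m' hm1 hm3 v hv hline T' (by
        intro i hi
        exact (Finset.mem_filter.mp hi).2)
      refine lt_of_le_of_lt ?_ hT'
      rw [← Set.ncard_coe_finset T']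
      have hsub : {Q ∈ ⋃₀ M | ∃ (s t : K) (h : ratCurve v s t ≠ 0),
          Q = Projectivization.mk K (ratCurve v s t) h} ⊆
          (fun i => pt (ε.symm i)) '' (T' : Set (Fin (c + 1))) := by
        rintro Q ⟨hQ, s, t, h, rfl⟩
        obtain ⟨i, hi⟩ := hS _ hQ
        obtain ⟨r, hr0, hr⟩ := hmk _ h i hi
        refine ⟨ε i, ?_, by simp [hi]⟩
        simp only [T', Finset.coe_filter, Finset.mem_univ, true_and, Set.mem_ofPred_eq,
          Equiv.symm_apply_apply]
        have h1 : P i = r⁻¹ • ratCurve v s t := by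
          rw [hr, smul_smul, inv_mul_cancel₀ hr0, one_smul]
        rw [h1]
        apply Submodule.smul_mem
        unfold ratCurve
        exact Submodule.sum_mem _ fun i _ =>
          Submodule.smul_mem _ _ (Submodule.subset_span ⟨i, rfl⟩)
      calc _ ≤ ((fun i => pt (ε.symm i)) '' (T' : Set (Fin (c + 1)))).ncard :=
            Set.ncard_le_ncard hsub (Set.toFinite _)
        _ ≤ _ := Set.ncard_image_le (Set.toFinite _)
    · intro hcard y hy hmem h hh hz
      have hall : ∀ i, pt i ∈ ⋃₀ M := by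
        have hsub : ⋃₀ M ⊆ Set.range pt := by
          intro Q hQ
          obtain ⟨i, rfl⟩ := hS Q hQ
          exact ⟨i, rfl⟩
        have hcard2 : (Set.range pt).ncard = c + 1 := by
          rw [← Set.image_univ, Set.ncard_image_of_injective _ hpt, Set.ncard_univ,
            Nat.card_congr ε, Nat.card_eq_fintype_card, Fintype.card_fin]
        have heq := Set.eq_of_subset_of_ncard_le hsub (by rw [hcard, hcard2])
          (Set.finite_range pt)
        intro i
        rw [heq]
        exact ⟨i, rfl⟩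
      obtain ⟨i, hi⟩ := hS _ hmem
      obtain ⟨r, hr0, hr⟩ := hmk y hy i hi
      have h1 := hGP.sections (ε i) r hr0 h hh (by
        intro j
        exact hz _ (hP0 _) (hall _))
      simp only [Equiv.symm_apply_apply] at h1
      rw [hr]
      exact h1

end Pool.Agent.R865.DP
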