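import Pool.Agent.R865.DPLines

/-!
Multilinear representations of quadratic and cubic forms.
-/

namespace Pool.Agent.R865.DP

open MvPolynomial

variable {K : Type*} [Field K]

/-- A form of degree `m + 1` is a combination of the variables with forms of degree `m`
as coefficients. -/
theorem exists_sum_X_mul {n m : ℕ} (f : MvPolynomial (Fin n) K) (hf : f.IsHomogeneous (m + 1)) :
    ∃ g : Fin n → MvPolynomial (Fin n) K, (∀ i, (g i).IsHomogeneous m) ∧ f = ∑ i, X i * g i := by
  classical
  rw [f.as_sum]
  apply Finset.sum_induction _ (fun f : MvPolynomial (Fin n) K =>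
    ∃ g : Fin n → MvPolynomial (Fin n) K, (∀ i, (g i).IsHomogeneous m) ∧ f = ∑ i, X i * g i)
  · rintro a b ⟨g, hg, rfl⟩ ⟨g', hg', rfl⟩
    exact ⟨fun i => g i + g' i, fun i => (hg i).add (hg' i), by
      simp [mul_add, Finset.sum_add_distrib]⟩
  · exact ⟨fun _ => 0, fun _ => isHomogeneous_zero _ _ _, by simp⟩
  · intro d hd
    have hdeg : d.degree = m + 1 := by
      have := hf (mem_support_iff.mp hd)
      rw [Finsupp.degree_eq_weight_one (R := ℕ)]
      exact this
    have hne : ∃ i, d i ≠ 0 := by
      by_contra hcon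
      push Not at hcon
      have : d = 0 := by
        ext i; exact hcon i
      rw [this] at hdeg
      simp at hdeg
    obtain ⟨i, hi⟩ := hne
    refine ⟨Pi.single i (monomial (d - Finsupp.single i 1) (coeff d f)), ?_, ?_⟩
    · intro j
      by_cases hj : j = i
      · subst hj
        simp only [Pi.single_eq_same]
        apply isHomogeneous_monomial
        have h1 : d = (d - Finsupp.single j 1) + Finsupp.single j 1 := by
          ext l
          by_cases hl : l = j
          · subst hl
            simp only [Finsupp.coe_add, Finsupp.coe_tsub, Pi.add_apply, Pi.sub_apply,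
              Finsupp.single_eq_same]
            omega
          · simp [Finsupp.single_apply, Ne.symm hl]
        have h2 := congrArg Finsupp.degree h1
        rw [map_add, Finsupp.degree_single, hdeg] at h2
        omega
      · simp only [Pi.single_apply, hj, if_false]
        exact isHomogeneous_zero _ _ _
    · rw [Finset.sum_eq_single i]
      · simp only [Pi.single_eq_same]
        rw [X, monomial_mul, one_mul]
        have h1 : d = Finsupp.single i 1 + (d - Finsupp.single i 1) := by
          ext l
          by_cases hl : l = i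
          · subst hl
            simp only [Finsupp.coe_add, Finsupp.coe_tsub, Pi.add_apply, Pi.sub_apply,
              Finsupp.single_eq_same]
            omega
          · simp [Finsupp.single_apply, Ne.symm hl]
        rw [← h1]
      · intro b _ hb
        simp [Pi.single_apply, hb]
      · simp

theorem homog_zero {n : ℕ} (f : MvPolynomial (Fin n) K) (hf : f.IsHomogeneous 0) :
    ∃ a : K, f = C a :=
  ⟨coeff 0 f, totalDegree_eq_zero_iff_eq_C.mp (by
    by_cases h : f = 0
    · simp [h]
    · exact hf.totalDegree h)⟩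

theorem quad_coeffs {n : ℕ} (f : MvPolynomial (Fin n) K) (hf : f.IsHomogeneous 2) :
    ∃ a : Fin n → Fin n → K, f = ∑ i, ∑ j, C (a i j) * (X i * X j) := by
  obtain ⟨g, hg, rfl⟩ := exists_sum_X_mul f hf
  choose g' hg' hgg' using fun i => exists_sum_X_mul (g i) (hg i)
  choose a ha using fun i j => homog_zero (g' i j) (hg' i j)
  refine ⟨a, ?_⟩
  apply Finset.sum_congr rfl
  intro i _
  rw [hgg' i, Finset.mul_sum]
  apply Finset.sum_congr rfl
  intro j _
  rw [ha i j]
  ring

theorem cubic_coeffs {n : ℕ} (f : MvPolynomial (Fin n) K) (hf : f.IsHomogeneous 3) :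
    ∃ a : Fin n → Fin n → Fin n → K, f = ∑ i, ∑ j, ∑ l, C (a i j l) * (X i * X j * X l) := by
  obtain ⟨g, hg, rfl⟩ := exists_sum_X_mul f hf
  choose a ha using fun i => quad_coeffs (g i) (hg i)
  refine ⟨a, ?_⟩
  apply Finset.sum_congr rfl
  intro i _
  rw [ha i, Finset.mul_sum]
  apply Finset.sum_congr rfl
  intro j _
  rw [Finset.mul_sum]
  apply Finset.sum_congr rfl
  intro l _
  ring

theorem sum_pderiv_X {n : ℕ} (x y : Fin n → K) (i : Fin n) :
    ∑ l, aeval x (pderiv l (X i : MvPolynomial (Fin n) K)) * y l = y i := by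
  rw [Finset.sum_eq_single i]
  · simp
  · intro b _ hb
    simp [pderiv_X, Pi.single_apply, Ne.symm hb]
  · simp

/-- directional derivative as a derivation-like function -/
noncomputable def dd {n : ℕ} (f : MvPolynomial (Fin n) K) (x y : Fin n → K) : K :=
  ∑ l, aeval x (pderiv l f) * y l

theorem dd_X {n : ℕ} (i : Fin n) (x y : Fin n → K) : dd (X i) x y = y i := sum_pderiv_X x y i

theorem dd_mul {n : ℕ} (f g : MvPolynomial (Fin n) K) (x y : Fin n → K) :
    dd (f * g) x y = aeval x f * dd g x y + aeval x g * dd f x y := by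
  unfold dd
  rw [Finset.mul_sum, Finset.mul_sum, ← Finset.sum_add_distrib]
  apply Finset.sum_congr rfl
  intro l _
  simp only [Derivation.leibniz, smul_eq_mul, map_add, map_mul]
  ring

theorem dd_C_mul {n : ℕ} (a : K) (g : MvPolynomial (Fin n) K) (x y : Fin n → K) :
    dd (C a * g) x y = a * dd g x y := by
  rw [dd_mul]
  simp [dd]

theorem dd_sum {n : ℕ} {ι : Type*} (s : Finset ι) (f : ι → MvPolynomial (Fin n) K)
    (x y : Fin n → K) : dd (∑ i ∈ s, f i) x y = ∑ i ∈ s, dd (f i) x y := by
  unfold dd
  rw [Finset.sum_comm]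
  apply Finset.sum_congr rfl
  intro l _
  rw [map_sum, map_sum, Finset.sum_mul]

theorem quad_bilinear {n : ℕ} (f : MvPolynomial (Fin n) K) (hf : f.IsHomogeneous 2) :
    ∃ A : (Fin n → K) →ₗ[K] (Fin n → K) →ₗ[K] K, (∀ x, aeval x f = A x x) ∧
      ∀ x y, dd f x y = A x y + A y x := by
  obtain ⟨a, ha⟩ := quad_coeffs f hf
  refine ⟨∑ i, ∑ j, a i j • (LinearMap.proj i : (Fin n → K) →ₗ[K] K).smulRight
    (LinearMap.proj j : (Fin n → K) →ₗ[K] K), ?_, ?_⟩
  · intro x
    subst ha
    simp only [map_sum, map_mul, aeval_X, LinearMap.sum_apply, LinearMap.smul_apply,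
      LinearMap.smulRight_apply, LinearMap.proj_apply, smul_eq_mul, aeval_C,
      Algebra.algebraMap_self, RingHom.id_apply]
  · intro x y
    subst ha
    simp only [dd_sum, dd_C_mul]
    simp only [dd_mul, dd_X, aeval_X, LinearMap.sum_apply, LinearMap.smul_apply,
      LinearMap.smulRight_apply, LinearMap.proj_apply, smul_eq_mul]
    rw [← Finset.sum_add_distrib]
    apply Finset.sum_congr rfl
    intro i _
    rw [← Finset.sum_add_distrib]
    apply Finset.sum_congr rfl
    intro j _
    ring

theorem cubic_trilinear {n : ℕ} (f : MvPolynomial (Fin n) K) (hf : f.IsHomogeneous 3) :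
    ∃ T : (Fin n → K) →ₗ[K] (Fin n → K) →ₗ[K] (Fin n → K) →ₗ[K] K,
      (∀ x, aeval x f = T x x x) ∧
      ∀ x y, dd f x y = T y x x + T x y x + T x x y := by
  obtain ⟨a, ha⟩ := cubic_coeffs f hf
  refine ⟨∑ i, ∑ j, ∑ l, a i j l • (LinearMap.proj i : (Fin n → K) →ₗ[K] K).smulRight
    ((LinearMap.proj j : (Fin n → K) →ₗ[K] K).smulRight
      (LinearMap.proj l : (Fin n → K) →ₗ[K] K)), ?_, ?_⟩
  · intro x
    subst ha
    simp only [map_sum, map_mul, aeval_X, LinearMap.sum_apply, LinearMap.smul_apply,
      LinearMap.smulRight_apply, LinearMap.proj_apply, smul_eq_mul, aeval_C,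
      Algebra.algebraMap_self, RingHom.id_apply]
    apply Finset.sum_congr rfl
    intro i _
    apply Finset.sum_congr rfl
    intro j _
    apply Finset.sum_congr rfl
    intro l _
    ring
  · intro x y
    subst ha
    simp only [dd_sum, dd_C_mul]
    simp only [dd_mul, dd_X, aeval_X, LinearMap.sum_apply, LinearMap.smul_apply,
      LinearMap.smulRight_apply, LinearMap.proj_apply, smul_eq_mul, map_mul]
    simp only [← Finset.sum_add_distrib]
    apply Finset.sum_congr rfl
    intro i _
    apply Finset.sum_congr rfl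
    intro j _
    apply Finset.sum_congr rfl
    intro l _
    ring

theorem dd_add_right {n : ℕ} (f : MvPolynomial (Fin n) K) (x y z : Fin n → K) :
    dd f x (y + z) = dd f x y + dd f x z := by
  simp [dd, mul_add, Finset.sum_add_distrib]

theorem dd_smul_right {n : ℕ} (f : MvPolynomial (Fin n) K) (x y : Fin n → K) (t : K) :
    dd f x (t • y) = t * dd f x y := by
  unfold dd
  rw [Finset.mul_sum]
  apply Finset.sum_congr rfl
  intro l _
  simp only [Pi.smul_apply, smul_eq_mul]
  ring

end Pool.Agent.R865.DP
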