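import Pool.Agent.R865.DPZeros

/-!
Finiteness of the lines contained in a projective scheme, under the injectivity of the
derivative of the equations (no first order deformations).
-/

namespace Pool.Agent.R865.DP

open MvPolynomial

variable {K : Type*} [Field K]

theorem aeval_zero_of_dual {σ : Type*} [Fintype σ] (x v : σ → K) (p : MvPolynomial σ K)
    (h : aeval (fun j => (TrivSqZeroExt.inl (x j) + TrivSqZeroExt.inr (v j) : DualNumber K)) p = 0) :
    aeval x p = 0 ∧ ∑ j, aeval x (pderiv j p) * v j = 0 := by
  rw [aeval_dual] at h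
  constructor
  · have := congrArg TrivSqZeroExt.fst h
    simpa using this
  · have := congrArg TrivSqZeroExt.snd h
    simpa using this

theorem lines_finite [IsAlgClosed K] {n : ℕ} (F : Set (MvPolynomial (Fin n) K))
    (hJ : ∀ u w u' w' : Fin n → K, LinearIndependent K ![u, w] →
      (∀ s t : K, ∀ f ∈ F, aeval (s • u + t • w) f = 0) →
      (∀ s t : K, ∀ f ∈ F, ∑ l, aeval (s • u + t • w) (pderiv l f) * (s • u' + t • w') l = 0) →
      u' ∈ Submodule.span K {u, w} ∧ w' ∈ Submodule.span K {u, w}) :
    ∃ L : Set ((Fin n → K) × (Fin n → K)), L.Finite ∧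
      (∀ ℓ ∈ L, LinearIndependent K ![ℓ.1, ℓ.2]) ∧
      ∀ u w : Fin n → K, LinearIndependent K ![u, w] →
        (∀ s t : K, ∀ f ∈ F, aeval (s • u + t • w) f = 0) →
        ∃ ℓ ∈ L, Submodule.span K {u, w} = Submodule.span K {ℓ.1, ℓ.2} := by
  classical
  -- normalised lines
  let N : Fin n → Fin n → Set ((Fin n → K) × (Fin n → K)) := fun i j =>
    {ℓ | ℓ.1 i = 1 ∧ ℓ.1 j = 0 ∧ ℓ.2 i = 0 ∧ ℓ.2 j = 1 ∧
      ∀ s t : K, ∀ f ∈ F, aeval (s • ℓ.1 + t • ℓ.2) f = 0}
  have hind : ∀ i j, ∀ ℓ ∈ N i j, LinearIndependent K ![ℓ.1, ℓ.2] := by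
    rintro i j ⟨u, w⟩ ⟨h1, h2, h3, h4, -⟩
    simp only at h1 h2 h3 h4
    rw [LinearIndependent.pair_iff]
    intro s t hst
    simp only at hst
    constructor
    · have := congrFun hst i
      simpa [h1, h3] using this
    · have := congrFun hst j
      simpa [h2, h4] using this
  have hfin : ∀ i j, (N i j).Finite := by
    intro i j
    let S : Set (MvPolynomial (Fin 2 × Fin n) K) :=
      {X (0, i) - 1, X (0, j), X (1, i), X (1, j) - 1} ∪
        {p | ∃ f ∈ F, ∃ s t : K, p = aeval (fun l => C s * X (0, l) + C t * X (1, l)) f}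
    have hSfin : {x : Fin 2 × Fin n → K | ∀ p ∈ S, aeval x p = 0}.Finite := by
      apply finite_zeros
      intro x v hv
      have e1 := aeval_zero_of_dual x v _ (hv (X (0, i) - 1) (Or.inl (by simp)))
      have e2 := aeval_zero_of_dual x v _ (hv (X (0, j)) (Or.inl (by simp)))
      have e3 := aeval_zero_of_dual x v _ (hv (X (1, i)) (Or.inl (by simp)))
      have e4 := aeval_zero_of_dual x v _ (hv (X (1, j) - 1) (Or.inl (by simp)))
      have hsum : ∀ q : Fin 2 × Fin n, ∑ j, aeval x (pderiv j (X q : MvPolynomial _ K)) * v j
          = v q := by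
        intro q
        rw [Finset.sum_eq_single q]
        · simp
        · intro b _ hb
          simp [pderiv_X, Pi.single_apply, Ne.symm hb]
        · simp
      have hsum' : ∀ q : Fin 2 × Fin n, ∑ j, aeval x (pderiv j (X q - 1 : MvPolynomial _ K)) * v j
          = v q := by
        intro q
        rw [← hsum q]
        simp
      rw [hsum'] at e1 e4
      rw [hsum] at e2 e3
      simp only [map_sub, aeval_X, map_one, sub_eq_zero] at e1 e2 e3 e4
      let u : Fin n → K := fun l => x (0, l)
      let w : Fin n → K := fun l => x (1, l)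
      let u' : Fin n → K := fun l => v (0, l)
      let w' : Fin n → K := fun l => v (1, l)
      have hline : ∀ s t : K, ∀ f ∈ F, aeval (s • u + t • w) f = 0 ∧
          ∑ l, aeval (s • u + t • w) (pderiv l f) * (s • u' + t • w') l = 0 := by
        intro s t f hf
        have h1 := hv (aeval (fun l => C s * X (0, l) + C t * X (1, l)) f)
          (Or.inr ⟨f, hf, s, t, rfl⟩)
        have h2 : aeval (fun j => (TrivSqZeroExt.inl (x j) + TrivSqZeroExt.inr (v j) :
            DualNumber K)) (aeval (fun l => C s * X (0, l) + C t * X (1, l)) f :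
              MvPolynomial (Fin 2 × Fin n) K) =
            aeval (fun l => (TrivSqZeroExt.inl ((s • u + t • w) l) +
              TrivSqZeroExt.inr ((s • u' + t • w') l) : DualNumber K)) f := by
          rw [← AlgHom.comp_apply, comp_aeval]
          congr 2
          funext l
          simp only [map_add, map_mul, aeval_X, ← MvPolynomial.algebraMap_eq, AlgHom.commutes]
          ext
          · simp [u, w, TrivSqZeroExt.algebraMap_eq_inl]
          · simp [u', w', TrivSqZeroExt.algebraMap_eq_inl]
        rw [h2] at h1
        exact aeval_zero_of_dual _ _ _ h1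
      have hmem := hJ u w u' w' (hind i j (u, w) ⟨e1.1, e2.1, e3.1, e4.1,
        fun s t f hf => (hline s t f hf).1⟩) (fun s t f hf => (hline s t f hf).1)
        (fun s t f hf => (hline s t f hf).2)
      rw [Submodule.mem_span_pair, Submodule.mem_span_pair] at hmem
      obtain ⟨⟨a, b, hab⟩, ⟨a', b', hab'⟩⟩ := hmem
      have hi := congrFun hab i
      have hj := congrFun hab j
      have hi' := congrFun hab' i
      have hj' := congrFun hab' j
      simp only [Pi.add_apply, Pi.smul_apply, smul_eq_mul, u, w, u', w', e1.1, e2.1, e3.1, e4.1,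
        e1.2, e2.2, e3.2, e4.2, mul_one, mul_zero, add_zero, zero_add] at hi hj hi' hj'
      subst hi hj hi' hj'
      funext ⟨q, l⟩
      fin_cases q
      · have := congrFun hab l
        simpa [u, w, u', w'] using this.symm
      · have := congrFun hab' l
        simpa [u, w, u', w'] using this.symm
    apply (hSfin.image (fun x => ((fun l => x (0, l), fun l => x (1, l)) :
      (Fin n → K) × (Fin n → K)))).subset
    rintro ⟨u, w⟩ ⟨h1, h2, h3, h4, h5⟩
    simp only at h1 h2 h3 h4 h5
    refine ⟨fun q => if q.1 = 0 then u q.2 else w q.2, ?_, ?_⟩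
    · rintro p (hp | ⟨f, hf, s, t, rfl⟩)
      · simp only [Set.mem_insert_iff, Set.mem_singleton_iff] at hp
        rcases hp with rfl | rfl | rfl | rfl
        · simp [h1]
        · simp [h2]
        · simp [h3]
        · simp [h4]
      · rw [← AlgHom.comp_apply, comp_aeval]
        have := h5 s t f hf
        convert! this using 2
        congr 1
        funext l
        simp
    · simp
  refine ⟨⋃ i, ⋃ j, N i j, Set.finite_iUnion fun i => Set.finite_iUnion fun j => hfin i j, ?_, ?_⟩
  · intro ℓ hℓ
    simp only [Set.mem_iUnion] at hℓ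
    obtain ⟨i, j, h⟩ := hℓ
    exact hind i j ℓ h
  · intro u w huw hline
    -- find a pivot
    have : ∃ i j, u i * w j - u j * w i ≠ 0 := by
      by_contra hcon
      push Not at hcon
      have hu : u ≠ 0 := by
        have := huw.ne_zero 0
        simpa using this
      obtain ⟨i, hi⟩ := Function.ne_iff.mp hu
      simp only [Pi.zero_apply] at hi
      rw [LinearIndependent.pair_iff] at huw
      have := huw (w i) (-(u i)) (by
        funext j
        have := hcon i j
        simp only [Pi.add_apply, Pi.smul_apply, smul_eq_mul, Pi.zero_apply]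
        linear_combination -this)
      exact hi (by simpa using this.2)
    obtain ⟨i, j, hd⟩ := this
    set d := u i * w j - u j * w i with hddef
    let u₁ : Fin n → K := (w j / d) • u - (u j / d) • w
    let w₁ : Fin n → K := -(w i / d) • u + (u i / d) • w
    have hu : u = u i • u₁ + u j • w₁ := by
      funext l
      simp only [u₁, w₁, Pi.add_apply, Pi.smul_apply, Pi.sub_apply, smul_eq_mul]
      field_simp
      rw [hddef]
      ring
    have hw : w = w i • u₁ + w j • w₁ := by
      funext l
      simp only [u₁, w₁, Pi.add_apply, Pi.smul_apply, Pi.sub_apply, smul_eq_mul]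
      field_simp
      rw [hddef]
      ring
    refine ⟨(u₁, w₁), ?_, ?_⟩
    · simp only [Set.mem_iUnion]
      refine ⟨i, j, ?_, ?_, ?_, ?_, ?_⟩
      · simp only [u₁, Pi.sub_apply, Pi.smul_apply, smul_eq_mul]
        field_simp
        rw [hddef]; ring
      · simp only [u₁, Pi.sub_apply, Pi.smul_apply, smul_eq_mul]
        field_simp
        ring
      · simp only [w₁, Pi.add_apply, Pi.smul_apply, smul_eq_mul]
        field_simp
        ring
      · simp only [w₁, Pi.add_apply, Pi.smul_apply, smul_eq_mul]
        field_simp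
        rw [hddef]; ring
      · intro s t f hf
        have := hline (s * (w j / d) - t * (w i / d)) (-(s * (u j / d)) + t * (u i / d)) f hf
        convert! this using 2
        congr 1
        funext l
        simp only [u₁, w₁, Pi.add_apply, Pi.smul_apply, Pi.sub_apply, smul_eq_mul]
        ring
    · apply le_antisymm
      · rw [Submodule.span_le]
        rintro x (rfl | rfl)
        · rw [SetLike.mem_coe, Submodule.mem_span_pair]
          exact ⟨_, _, hu.symm⟩
        · rw [SetLike.mem_coe, Submodule.mem_span_pair]
          exact ⟨_, _, hw.symm⟩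
      · rw [Submodule.span_le]
        rintro x (rfl | rfl)
        · rw [SetLike.mem_coe, Submodule.mem_span_pair]
          exact ⟨w j / d, -(u j / d), by simp [u₁, sub_eq_add_neg]⟩
        · rw [SetLike.mem_coe, Submodule.mem_span_pair]
          exact ⟨-(w i / d), u i / d, by simp [w₁]⟩

end Pool.Agent.R865.DP
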