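import Pool.Agent.R865.DPDens

/-!
Assembly: closed points in general position on unirational del Pezzo surfaces of degree 3 and 4.
-/

universe u

namespace Pool.Agent.R865.DP

open MvPolynomial LinearAlgebra.Projectivization

theorem conditions {K : Type*} [Field K] [IsAlgClosed K] {c e : ℕ}
    (hce : (c = 1 ∧ e = 3) ∨ (c = 2 ∧ e = 2)) (f : Fin c → MvPolynomial (Fin (c + 3)) K)
    (hf : IsDelPezzo e f) :
    ∃ W : Set ((Fin (c + 1) → Fin (c + 3) → K) → K), W.Finite ∧
      (∀ w ∈ W, w ∈ polyFn K (c + 1) (c + 3) ∧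
        ∃ P, (∀ i a, aeval (P i) (f a) = 0) ∧ w P ≠ 0) ∧
      ∀ P : Fin (c + 1) → Fin (c + 3) → K, (∀ i a, aeval (P i) (f a) = 0) →
        (∀ w ∈ W, w P ≠ 0) → TupleGP f P := by
  rcases hce with ⟨rfl, rfl⟩ | ⟨rfl, rfl⟩
  · exact conditions_cubic f hf
  · exact conditions_quad f hf

/-- a dominant map is not constant -/
theorem degree_ne_zero {k K : Type*} [Field k] [Field K] [Algebra k K] [IsAlgClosed K] {c : ℕ}
    {F : Fin c → MvPolynomial (Fin (c + 3)) k} {r : ℕ}
    (hspan : Submodule.span K {x : Fin (c + 3) → K | ∀ a, aeval x (F a) = 0} = ⊤)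
    (φ : Fin (c + 3) → MvPolynomial (Fin 3) k) (hφ : ∀ i, (φ i).IsHomogeneous r)
    (hdom : ∀ (m : ℕ) (G : MvPolynomial (Fin (c + 3)) K), G.IsHomogeneous m →
      (∀ y : Fin 3 → K, aeval (fun i => aeval y (φ i)) G = 0) →
      ∀ x : Fin (c + 3) → K, (∀ a, aeval x (F a) = 0) → aeval x G = 0) : r ≠ 0 := by
  rintro rfl
  choose b hb using fun i => homog_zero (φ i) (hφ i)
  let M : (Fin (c + 3) → K) →ₗ[K] (Fin 1 → K) :=
    LinearMap.pi fun _ => ∑ l, algebraMap k K (b l) • LinearMap.proj l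
  obtain ⟨q, hq0, hq⟩ := one_in_ker (by omega) M
  have hq' : ∑ l, algebraMap k K (b l) * q l = 0 := by
    have := congrFun hq 0
    simpa [M, Algebra.smul_def] using this
  let H : MvPolynomial (Fin (c + 3)) K := ∑ l, C (q l) * X l
  have hH : H.IsHomogeneous 1 := by
    apply IsHomogeneous.sum
    intro l _
    have := (isHomogeneous_C (Fin (c + 3)) (q l)).mul (isHomogeneous_X K l)
    simpa using this
  have hHx : ∀ x : Fin (c + 3) → K, aeval x H = ∑ l, q l * x l := by
    intro x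
    simp [H]
  have hvan := hdom 1 H hH (by
    intro y
    rw [hHx, ← hq']
    apply Finset.sum_congr rfl
    intro l _
    rw [hb l, ← MvPolynomial.algebraMap_eq, AlgHom.commutes, mul_comm])
  let h : (Fin (c + 3) → K) →ₗ[K] K := ∑ l, q l • LinearMap.proj l
  have hh : ∀ x, h x = ∑ l, q l * x l := by
    intro x
    simp [h]
  have hne : h ≠ 0 := by
    intro h0
    apply hq0
    funext i
    have := LinearMap.congr_fun h0 (Pi.single i 1)
    rw [hh] at this
    simpa [Pi.single_apply] using this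
  obtain ⟨z, hz, hz'⟩ := exists_ne_zero_in _ hspan h hne
  apply hz'
  rw [hh, ← hHx]
  exact hvan z hz

theorem main {k : Type u} [Field k] [Infinite k] {c e : ℕ}
    (hce : (c = 1 ∧ e = 3) ∨ (c = 2 ∧ e = 2))
    (F : Fin c → MvPolynomial (Fin (c + 3)) k)
    (hX : IsDelPezzo e (fun a => map (algebraMap k (AlgebraicClosure k)) (F a)))
    (hU : IsUnirational (AlgebraicClosure k) F)
    {T : Type} [Fintype T] (E : T → IntermediateField k (AlgebraicClosure k))
    [∀ t, FiniteDimensional k (E t)] [∀ t, Algebra.IsSeparable k (E t)]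
    (hcard : ∑ t, Module.finrank k (E t) = c + 1) :
    ∃ (P : (Σ t, (E t →ₐ[k] AlgebraicClosure k)) → (Fin (c + 3) → AlgebraicClosure k))
      (x : ∀ t, Fin (c + 3) → E t),
      (∀ t (σ : E t →ₐ[k] AlgebraicClosure k), P ⟨t, σ⟩ = fun l => σ (x t l)) ∧
      (∀ i a, aeval (P i) (F a) = 0) ∧
      ∃ ε : (Σ t, (E t →ₐ[k] AlgebraicClosure k)) ≃ Fin (c + 1),
        TupleGP (fun a => map (algebraMap k (AlgebraicClosure k)) (F a))
          (fun i => P (ε.symm i)) := by
  classical
  set K := AlgebraicClosure k with hK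
  have hKinf : Infinite K := Infinite.of_injective _ (algebraMap k K).injective
  let f : Fin c → MvPolynomial (Fin (c + 3)) K := fun a => map (algebraMap k K) (F a)
  have hfF : ∀ (x : Fin (c + 3) → K) a, aeval x (f a) = aeval x (F a) := by
    intro x a
    simp only [f]
    rw [aeval_map_algebraMap]
  have he : 2 ≤ e := by rcases hce with ⟨-, rfl⟩ | ⟨-, rfl⟩ <;> norm_num
  obtain ⟨W, hWfin, hW1, hW2⟩ := conditions hce f hX
  obtain ⟨r, φ, hφ, hφF, hdom⟩ := hU
  have hspan : Submodule.span K {x : Fin (c + 3) → K | ∀ a, aeval x (F a) = 0} = ⊤ := by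
    rw [← spans he f hX.homog hX.integral]
    congr 1
    ext x
    simp only [Set.mem_ofPred_eq, hfF]
  have hr : r ≠ 0 := degree_ne_zero hspan φ hφ hdom
  have hdom' := fun G hG x hx => dominant_all hr φ hφ hdom G hG x hx
  -- the equivalence
  have hcard' : Fintype.card (Σ t, (E t →ₐ[k] K)) = Fintype.card (Fin (c + 1)) := by
    rw [Fintype.card_sigma, Fintype.card_fin, ← hcard]
    apply Finset.sum_congr rfl
    intro t _
    exact AlgHom.card k (E t) K
  let ε : (Σ t, (E t →ₐ[k] K)) ≃ Fin (c + 1) := Fintype.equivOfCardEq hcard'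
  -- pull back the conditions
  have hpull : ∀ w ∈ W, ∃ p : MvPolynomial ((Σ t, (E t →ₐ[k] K)) × Fin 3) K, p ≠ 0 ∧
      ∀ y : (Σ t, (E t →ₐ[k] K)) × Fin 3 → K,
        aeval y p = w (fun i l => aeval (fun j => y (ε.symm i, j)) (φ l)) := by
    intro w hw
    obtain ⟨⟨q, hq⟩, P₀, hP₀, hwP₀⟩ := hW1 w hw
    have hqw : ∀ P, w P = aeval (fun z : Fin (c + 1) × Fin (c + 3) => P z.1 z.2) q := by
      intro P
      rw [← evalFn_apply, ← hq]
      rfl
    let p : MvPolynomial ((Σ t, (E t →ₐ[k] K)) × Fin 3) K :=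
      aeval (fun z : Fin (c + 1) × Fin (c + 3) =>
        (aeval (fun j => (X (ε.symm z.1, j) : MvPolynomial ((Σ t, (E t →ₐ[k] K)) × Fin 3) K))
          (φ z.2))) q
    have hp : ∀ y : (Σ t, (E t →ₐ[k] K)) × Fin 3 → K,
        aeval y p = w (fun i l => aeval (fun j => y (ε.symm i, j)) (φ l)) := by
      intro y
      rw [hqw]
      simp only [p]
      rw [← AlgHom.comp_apply, comp_aeval]
      congr 2
      funext z
      have : (aeval y) ((aeval fun j => (X (ε.symm z.1, j) :
          MvPolynomial ((Σ t, (E t →ₐ[k] K)) × Fin 3) K)) (φ z.2)) =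
          ((aeval y : MvPolynomial ((Σ t, (E t →ₐ[k] K)) × Fin 3) K →ₐ[K] K).restrictScalars k).comp
            (aeval fun j => (X (ε.symm z.1, j) :
              MvPolynomial ((Σ t, (E t →ₐ[k] K)) × Fin 3) K)) (φ z.2) := rfl
      rw [this, comp_aeval]
      congr 2
      funext j
      simp
    refine ⟨p, ?_, hp⟩
    intro hpz
    obtain ⟨y, hy⟩ := dominant_product φ hφF hdom' w ⟨q, hq⟩ P₀
      (fun i a => by rw [← hfF]; exact hP₀ i a) hwP₀
    apply hy
    have := hp (fun z => y (ε z.1) z.2)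
    rw [hpz, map_zero] at this
    rw [this]
    congr 1
    funext i l
    simp
  -- the product of the pulled back conditions
  let p : ∀ w : W, MvPolynomial ((Σ t, (E t →ₐ[k] K)) × Fin 3) K := fun w =>
    (hpull w.1 w.2).choose
  have hp0 : ∀ w : W, p w ≠ 0 := fun w => (hpull w.1 w.2).choose_spec.1
  have hpw : ∀ w : W, ∀ y : (Σ t, (E t →ₐ[k] K)) × Fin 3 → K,
      aeval y (p w) = w.1 (fun i l => aeval (fun j => y (ε.symm i, j)) (φ l)) :=
    fun w => (hpull w.1 w.2).choose_spec.2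
  have hWft : Fintype W := hWfin.fintype
  have hprod : ∏ w : W, p w ≠ 0 := Finset.prod_ne_zero_iff.mpr fun w _ => hp0 w
  obtain ⟨uu, huu⟩ := density (K := K) (fun t => E t) (∏ w : W, p w) hprod
  rw [map_prod, Finset.prod_ne_zero_iff] at huu
  let x : ∀ t, Fin (c + 3) → E t := fun t l => aeval (uu t) (φ l)
  let P : (Σ t, (E t →ₐ[k] K)) → (Fin (c + 3) → K) := fun i l => i.2 (x i.1 l)
  have hPφ : ∀ i, P i = fun l => aeval (fun j => i.2 (uu i.1 j)) (φ l) := by
    intro i
    funext l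
    simp only [P, x]
    rw [← AlgHom.comp_apply, comp_aeval]
  have hPX : ∀ i a, aeval (P i) (F a) = 0 := by
    intro i a
    rw [hPφ i]
    have := congrArg (aeval (fun j => i.2 (uu i.1 j))) (hφF a)
    rw [← AlgHom.comp_apply, comp_aeval, map_zero] at this
    exact this
  refine ⟨P, x, fun t σ => rfl, hPX, ε, ?_⟩
  apply hW2
  · intro i a
    change aeval _ (f a) = 0
    rw [hfF]
    exact hPX _ a
  · intro w hw
    have h1 := huu ⟨w, hw⟩ (Finset.mem_univ _)
    rw [hpw] at h1
    simp only at h1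
    have h2 : (fun i => P (ε.symm i)) = fun i l => aeval (fun j => (ε.symm i).2
        (uu (ε.symm i).1 j)) (φ l) := by
      funext i
      exact hPφ _
    rw [h2]
    exact h1

end Pool.Agent.R865.DP
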