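import Pool.Agent.R865.DPCurves

/-!
The singular members of the pencil of quadrics through a smooth intersection of two quadrics
in four dimensional projective space, in every characteristic.
-/

namespace Pool.Agent.R865.DP

open MvPolynomial

variable {K : Type*} [Field K]

/-- A member of the pencil. -/
noncomputable def pen {n : ℕ} (g : Fin 2 → MvPolynomial (Fin n) K) (a b : K) :
    MvPolynomial (Fin n) K := C a * g 0 + C b * g 1

theorem pen_homog {n : ℕ} (g : Fin 2 → MvPolynomial (Fin n) K)
    (hg : ∀ a, (g a).IsHomogeneous 2) (a b : K) : (pen g a b).IsHomogeneous 2 := by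
  unfold pen
  apply IsHomogeneous.add
  · have := (isHomogeneous_C (Fin n) a).mul (hg 0)
    simpa using this
  · have := (isHomogeneous_C (Fin n) b).mul (hg 1)
    simpa using this

theorem aeval_pen {n : ℕ} (g : Fin 2 → MvPolynomial (Fin n) K) (a b : K) (x : Fin n → K) :
    aeval x (pen g a b) = a * aeval x (g 0) + b * aeval x (g 1) := by
  simp [pen]

theorem dd_add_left {n : ℕ} (f g : MvPolynomial (Fin n) K) (x y : Fin n → K) :
    dd (f + g) x y = dd f x y + dd g x y := by
  simp [dd, add_mul, Finset.sum_add_distrib]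

theorem dd_pen {n : ℕ} (g : Fin 2 → MvPolynomial (Fin n) K) (a b : K) (x y : Fin n → K) :
    dd (pen g a b) x y = a * dd (g 0) x y + b * dd (g 1) x y := by
  rw [pen, dd_add_left, dd_C_mul, dd_C_mul]

theorem dd_symm {n : ℕ} (q : MvPolynomial (Fin n) K) (hq : q.IsHomogeneous 2) (x y : Fin n → K) :
    dd q x y = dd q y x := (quad_expand q hq x y).2.2.1

theorem dd_self {n : ℕ} (q : MvPolynomial (Fin n) K) (hq : q.IsHomogeneous 2) (x : Fin n → K) :
    dd q x x = 2 * aeval x q := (quad_expand q hq x x).2.2.2.1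

theorem dd_smul_left {n : ℕ} (q : MvPolynomial (Fin n) K) (hq : q.IsHomogeneous 2) (t : K)
    (x y : Fin n → K) : dd q (t • x) y = t * dd q x y := by
  rw [dd_symm q hq, dd_smul_right, dd_symm q hq]

theorem dd_add_left' {n : ℕ} (q : MvPolynomial (Fin n) K) (hq : q.IsHomogeneous 2)
    (x x' y : Fin n → K) : dd q (x + x') y = dd q x y + dd q x' y := by
  rw [dd_symm q hq, dd_add_right, dd_symm q hq y x, dd_symm q hq y x']

theorem quad_add {n : ℕ} (q : MvPolynomial (Fin n) K) (hq : q.IsHomogeneous 2)
    (x y : Fin n → K) : aeval (x + y) q = aeval x q + dd q x y + aeval y q := by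
  have := (quad_expand q hq x y).2.1 1 1
  simpa using this

theorem quad_smul {n : ℕ} (q : MvPolynomial (Fin n) K) (hq : q.IsHomogeneous 2) (t : K)
    (x : Fin n → K) : aeval (t • x) q = t ^ 2 * aeval x q := by
  have := (quad_expand q hq x 0).2.1 t 0
  simpa using this

/-- Two independent isotropic kernel vectors give a singular point of the intersection. -/
theorem kernel_two [IsAlgClosed K] {n : ℕ} (q r : MvPolynomial (Fin n) K)
    (hq : q.IsHomogeneous 2) (hr : r.IsHomogeneous 2)
    (h : ∀ x : Fin n → K, x ≠ 0 → aeval x q = 0 → aeval x r = 0 → ∃ y, dd q x y ≠ 0)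
    (v w : Fin n → K) (hvw : LinearIndependent K ![v, w])
    (hv : ∀ y, dd q v y = 0) (hw : ∀ y, dd q w y = 0) (hv0 : aeval v q = 0)
    (hw0 : aeval w q = 0) : False := by
  obtain ⟨s, t, hst, hz⟩ := quad_zero (aeval v r) (dd r v w) (aeval w r)
  obtain ⟨y, hy⟩ := h (s • v + t • w) (ne_zero_of_indep hvw hst)
    (by rw [(quad_expand q hq v w).2.1, hv0, hw0, hv]; ring)
    (by rw [(quad_expand r hr v w).2.1]; exact hz)
  apply hy
  rw [(quad_expand q hq v w).1, hv, hw]
  ring

theorem kernel_one [IsAlgClosed K] (q r : MvPolynomial (Fin 5) K)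
    (hq : q.IsHomogeneous 2) (hr : r.IsHomogeneous 2)
    (h : ∀ x : Fin 5 → K, x ≠ 0 → aeval x q = 0 → aeval x r = 0 → ∃ y, dd q x y ≠ 0)
    (v w : Fin 5 → K) (hvw : LinearIndependent K ![v, w])
    (hv : ∀ y, dd q v y = 0) (hw : ∀ y, dd q w y = 0) : False := by
  by_cases h2 : (2 : K) = 0
  · -- characteristic two: there is a third kernel vector
    obtain ⟨z₁, hz₁⟩ := exists_extend (by norm_num) _ hvw
    obtain ⟨z₂, hz₂⟩ := exists_extend (by norm_num) _ hz₁
    obtain ⟨z₃, hz₃⟩ := exists_extend (by norm_num) _ hz₂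
    have alt : ∀ x, dd q x x = 0 := fun x => by rw [dd_self q hq, h2, zero_mul]
    have third : ∃ x, LinearIndependent K ![x, v, w] ∧ ∀ y, dd q x y = 0 := by
      have indep : ∀ a b c : K, (a ≠ 0 ∨ b ≠ 0 ∨ c ≠ 0) →
          LinearIndependent K ![a • z₁ + b • z₂ + c • z₃, v, w] := by
        intro a b c habc
        rw [Fintype.linearIndependent_iff] at hz₃ ⊢
        intro g hg
        have := hz₃ ![g 0 * c, g 0 * b, g 0 * a, g 1, g 2] (by
          rw [← hg]
          simp only [Fin.sum_univ_five, Fin.sum_univ_three]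
          change (g 0 * c) • z₃ + (g 0 * b) • z₂ + (g 0 * a) • z₁ + g 1 • v + g 2 • w =
            g 0 • (a • z₁ + b • z₂ + c • z₃) + g 1 • v + g 2 • w
          module)
        have t0 : g 0 * c = 0 := this 0
        have t1 : g 0 * b = 0 := this 1
        have t2 : g 0 * a = 0 := this 2
        have t3 : g 1 = 0 := this 3
        have t4 : g 2 = 0 := this 4
        have t5 : g 0 = 0 := by
          rcases habc with h | h | h
          · exact (mul_eq_zero.mp t2).resolve_right h
          · exact (mul_eq_zero.mp t1).resolve_right h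
          · exact (mul_eq_zero.mp t0).resolve_right h
        intro i
        fin_cases i
        · exact t5
        · exact t3
        · exact t4
      have van : ∀ x, dd q x z₁ = 0 → dd q x z₂ = 0 → dd q x z₃ = 0 → ∀ y, dd q x y = 0 := by
        intro x h1 h2 h3 y
        have : ddL q x = 0 := by
          apply functional_zero _ hz₃
          intro i
          fin_cases i
          · exact h3
          · exact h2
          · exact h1
          · change dd q x v = 0
            rw [dd_symm q hq, hv]
          · change dd q x w = 0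
            rw [dd_symm q hq, hw]
        exact LinearMap.congr_fun this y
      by_cases hall : dd q z₁ z₂ = 0 ∧ dd q z₁ z₃ = 0
      · refine ⟨z₁, ?_, van z₁ (alt z₁) hall.1 hall.2⟩
        have := indep 1 0 0 (Or.inl one_ne_zero)
        simpa using this
      · refine ⟨dd q z₂ z₃ • z₁ + (-dd q z₁ z₃) • z₂ + dd q z₁ z₂ • z₃, ?_, ?_⟩
        · apply indep
          by_contra hcon
          push Not at hcon
          exact hall ⟨hcon.2.2, by simpa using hcon.2.1⟩
        · apply van
          · rw [dd_add_left' q hq, dd_add_left' q hq, dd_smul_left q hq, dd_smul_left q hq,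
              dd_smul_left q hq, alt, dd_symm q hq z₂ z₁, dd_symm q hq z₃ z₁]
            ring
          · rw [dd_add_left' q hq, dd_add_left' q hq, dd_smul_left q hq, dd_smul_left q hq,
              dd_smul_left q hq, alt, dd_symm q hq z₃ z₂]
            linear_combination dd q z₂ z₃ * dd q z₁ z₂ * h2
          · rw [dd_add_left' q hq, dd_add_left' q hq, dd_smul_left q hq, dd_smul_left q hq,
              dd_smul_left q hq, alt]
            ring
    obtain ⟨x, hx, hx0⟩ := third
    obtain ⟨a, ha⟩ := IsAlgClosed.exists_pow_nat_eq (aeval x q) (n := 2) (by norm_num)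
    obtain ⟨b, hb⟩ := IsAlgClosed.exists_pow_nat_eq (aeval v q) (n := 2) (by norm_num)
    obtain ⟨c, hc⟩ := IsAlgClosed.exists_pow_nat_eq (aeval w q) (n := 2) (by norm_num)
    let L : (Fin 3 → K) →ₗ[K] (Fin 1 → K) :=
      LinearMap.pi fun _ => a • LinearMap.proj 0 + b • LinearMap.proj 1 + c • LinearMap.proj 2
    obtain ⟨p, p', hpp, hp, hp'⟩ := two_in_ker (by norm_num) L
    have hp := congrFun hp 0
    have hp' := congrFun hp' 0
    simp only [L, LinearMap.pi_apply, LinearMap.add_apply, LinearMap.smul_apply,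
      LinearMap.proj_apply, smul_eq_mul, Pi.zero_apply] at hp hp'
    have hker : ∀ p : Fin 3 → K, ∀ y, dd q (∑ i, p i • ![x, v, w] i) y = 0 := by
      intro p y
      rw [Fin.sum_univ_three]
      change dd q (p 0 • x + p 1 • v + p 2 • w) y = 0
      rw [dd_add_left' q hq, dd_add_left' q hq, dd_smul_left q hq, dd_smul_left q hq,
        dd_smul_left q hq, hx0, hv, hw]
      ring
    have hiso : ∀ p : Fin 3 → K, a * p 0 + b * p 1 + c * p 2 = 0 →
        aeval (∑ i, p i • ![x, v, w] i) q = 0 := by
      intro p hp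
      rw [Fin.sum_univ_three]
      change aeval (p 0 • x + p 1 • v + p 2 • w) q = 0
      rw [quad_add q hq, quad_add q hq, quad_smul q hq, quad_smul q hq, quad_smul q hq,
        dd_add_left' q hq, dd_smul_left q hq, dd_smul_left q hq, dd_smul_left q hq, hx0, hx0, hv,
        ← ha, ← hb, ← hc]
      linear_combination (a * p 0 + b * p 1 + c * p 2) * hp -
        (a * p 0 * b * p 1 + a * p 0 * c * p 2 + b * p 1 * c * p 2) * h2
    exact kernel_two q r hq hr h _ _ (comb_indep _ hx p p' hpp) (hker p) (hker p')
      (hiso p (by linear_combination hp)) (hiso p' (by linear_combination hp'))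
  · have e : ∀ x : Fin 5 → K, (∀ y, dd q x y = 0) → aeval x q = 0 := by
      intro x hx
      have := dd_self q hq x
      rw [hx] at this
      exact (mul_eq_zero.mp this.symm).resolve_left h2
    exact kernel_two q r hq hr h v w hvw hv hw (e v hv) (e w hw)

/-- Kernels of the members of the pencil of a smooth intersection have dimension at most one. -/
theorem pen_kernel [IsAlgClosed K] (g : Fin 2 → MvPolynomial (Fin 5) K)
    (hg : ∀ a, (g a).IsHomogeneous 2) (hsm : Smooth2 g) (a b : K) (hab : a ≠ 0 ∨ b ≠ 0)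
    (v w : Fin 5 → K) (hvw : LinearIndependent K ![v, w])
    (hv : ∀ y, dd (pen g a b) v y = 0) (hw : ∀ y, dd (pen g a b) w y = 0) : False := by
  have key : ∀ r : MvPolynomial (Fin 5) K,
      (∀ x : Fin 5 → K, aeval x (pen g a b) = 0 → aeval x r = 0 → ∀ i, aeval x (g i) = 0) →
      ∀ x : Fin 5 → K, x ≠ 0 → aeval x (pen g a b) = 0 → aeval x r = 0 →
        ∃ y, dd (pen g a b) x y ≠ 0 := by
    intro r hr x hx h1 h2
    by_contra hcon
    push Not at hcon
    have := hsm x hx (hr x h1 h2) a b (fun y => by rw [← dd_pen]; exact hcon y)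
    rcases hab with h | h
    · exact h this.1
    · exact h this.2
  by_cases ha : a = 0
  · have hb : b ≠ 0 := by
      rcases hab with h | h
      · exact absurd ha h
      · exact h
    refine kernel_one (pen g a b) (g 0) (pen_homog g hg a b) (hg 0) (key (g 0) ?_) v w hvw hv hw
    intro x h1 h2 i
    rw [aeval_pen, h2, mul_zero, zero_add] at h1
    fin_cases i
    · exact h2
    · exact (mul_eq_zero.mp h1).resolve_left hb
  · refine kernel_one (pen g a b) (g 1) (pen_homog g hg a b) (hg 1) (key (g 1) ?_) v w hvw hv hw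
    intro x h1 h2 i
    rw [aeval_pen, h2, mul_zero, add_zero] at h1
    fin_cases i
    · exact (mul_eq_zero.mp h1).resolve_left ha
    · exact h2

theorem lin_coeffs {n : ℕ} (f : MvPolynomial (Fin n) K) (hf : f.IsHomogeneous 1) :
    (∀ x y : Fin n → K, dd f x y = aeval y f) := by
  obtain ⟨g, hg, rfl⟩ := exists_sum_X_mul f hf
  choose a ha using fun i => homog_zero (g i) (hg i)
  intro x y
  rw [dd_sum, map_sum]
  apply Finset.sum_congr rfl
  intro i _
  rw [ha i, mul_comm, dd_C_mul, dd_X]
  simp

theorem aeval_pderiv_eq_dd {n : ℕ} (f : MvPolynomial (Fin n) K) (x : Fin n → K) (l : Fin n) :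
    aeval x (pderiv l f) = dd f x (Pi.single l 1) := by
  unfold dd
  rw [Finset.sum_eq_single l]
  · simp
  · intro b _ hb
    simp [Pi.single_apply, hb]
  · simp

theorem pen_finite [IsAlgClosed K] (g : Fin 2 → MvPolynomial (Fin 5) K)
    (hg : ∀ a, (g a).IsHomogeneous 2) (hsm : Smooth2 g) :
    {μ : K | ∃ x : Fin 5 → K, x ≠ 0 ∧ aeval x (pen g 1 μ) = 0 ∧
      ∀ y, dd (pen g 1 μ) x y = 0}.Finite := by
  classical
  let G : MvPolynomial (Fin 5) K → MvPolynomial (Fin 5) K → MvPolynomial (Option (Fin 5)) K :=
    fun p q => rename some p + X none * rename some q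
  let S : Fin 5 → Set (MvPolynomial (Option (Fin 5)) K) := fun i =>
    {X (some i) - 1, G (g 0) (g 1)} ∪ Set.range fun l => G (pderiv l (g 0)) (pderiv l (g 1))
  have hfin : ∀ i, {x : Option (Fin 5) → K | ∀ p ∈ S i, aeval x p = 0}.Finite := by
    intro i
    apply finite_zeros
    intro x v hv
    let z : Fin 5 → K := fun l => x (some l)
    let z' : Fin 5 → K := fun l => v (some l)
    let μ := x none
    let μ' := v none
    -- dual evaluation of G
    have hG : ∀ p q : MvPolynomial (Fin 5) K,
        aeval (fun j => (TrivSqZeroExt.inl (x j) + TrivSqZeroExt.inr (v j) : DualNumber K))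
          (G p q) = 0 →
        (aeval z p + μ * aeval z q = 0) ∧ dd p z z' + μ * dd q z z' + μ' * aeval z q = 0 := by
      intro p q h
      simp only [G, map_add, map_mul, aeval_X, aeval_rename] at h
      have e1 := aeval_dual z z' p
      have e2 := aeval_dual z z' q
      have e3 : ((fun j => (TrivSqZeroExt.inl (x j) + TrivSqZeroExt.inr (v j) : DualNumber K)) ∘
        some) = fun l => (TrivSqZeroExt.inl (z l) + TrivSqZeroExt.inr (z' l) : DualNumber K) := rfl
      rw [e3, e1, e2] at h
      constructor
      · have := congrArg TrivSqZeroExt.fst h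
        simpa using this
      · have := congrArg TrivSqZeroExt.snd h
        simp only [TrivSqZeroExt.snd_add, TrivSqZeroExt.snd_inl, TrivSqZeroExt.snd_inr, zero_add,
          TrivSqZeroExt.snd_mul, TrivSqZeroExt.fst_add, TrivSqZeroExt.fst_inl,
          TrivSqZeroExt.fst_inr, add_zero, smul_eq_mul, MulOpposite.smul_eq_mul_unop,
          MulOpposite.unop_op, TrivSqZeroExt.snd_zero] at this
        unfold dd
        linear_combination this
    have f1 := aeval_zero_of_dual x v _ (hv (X (some i) - 1) (Or.inl (by simp)))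
    have f2 := hG _ _ (hv (G (g 0) (g 1)) (Or.inl (by simp)))
    have f3 := fun l => hG _ _ (hv (G (pderiv l (g 0)) (pderiv l (g 1))) (Or.inr ⟨l, rfl⟩))
    have hzi : z i = 1 := by
      have := f1.1
      simp only [map_sub, aeval_X, map_one, sub_eq_zero] at this
      exact this
    have hzi' : z' i = 0 := by
      have := f1.2
      rw [Finset.sum_eq_single (some i)] at this
      · simpa using this
      · intro b _ hb
        simp [pderiv_X, Pi.single_apply, Ne.symm hb]
      · simp
    have hz : z ≠ 0 := by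
      intro h
      rw [h] at hzi
      simp at hzi
    -- z is a kernel vector
    have hpd : ∀ a, ∀ l, (pderiv l (g a)).IsHomogeneous 1 := fun a l => (hg a).pderiv
    have hker : ∀ y, dd (pen g 1 μ) z y = 0 := by
      intro y
      unfold dd
      apply Finset.sum_eq_zero
      intro l _
      have := (f3 l).1
      have e : aeval z (pderiv l (pen g 1 μ)) = aeval z (pderiv l (g 0)) +
          μ * aeval z (pderiv l (g 1)) := by
        simp [pen, Derivation.leibniz]
      rw [e, this, zero_mul]
    have hpen0 : aeval z (pen g 1 μ) = 0 := by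
      rw [aeval_pen]; linear_combination f2.1
    have hg1 : aeval z (g 1) ≠ 0 := by
      intro h
      have h0 : aeval z (g 0) = 0 := by
        have := f2.1
        rw [h] at this
        linear_combination this
      have := hsm z hz (by intro a; fin_cases a; exacts [h0, h]) 1 μ
        (fun y => by rw [← dd_pen]; exact hker y)
      exact one_ne_zero this.1
    have hμ' : μ' = 0 := by
      have h1 := f2.2
      have h2 : dd (g 0) z z' + μ * dd (g 1) z z' = 0 := by
        have := hker z'
        rw [dd_pen] at this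
        linear_combination this
      rw [h2, zero_add] at h1
      exact (mul_eq_zero.mp h1).resolve_right hg1
    have hker' : ∀ y, dd (pen g 1 μ) z' y = 0 := by
      intro y
      unfold dd
      apply Finset.sum_eq_zero
      intro l _
      have := (f3 l).2
      rw [hμ', zero_mul, add_zero, lin_coeffs _ (hpd 0 l), lin_coeffs _ (hpd 1 l)] at this
      have e : aeval z' (pderiv l (pen g 1 μ)) = aeval z' (pderiv l (g 0)) +
          μ * aeval z' (pderiv l (g 1)) := by
        simp [pen, Derivation.leibniz]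
      rw [e, this, zero_mul]
    have hz' : z' = 0 := by
      by_contra hne
      apply pen_kernel g hg hsm 1 μ (Or.inl one_ne_zero) z z' _ hker hker'
      rw [LinearIndependent.pair_iff]
      intro s t hst
      have h1 := congrFun hst i
      simp only [Pi.add_apply, Pi.smul_apply, smul_eq_mul, hzi, hzi', mul_one, mul_zero, add_zero,
        Pi.zero_apply] at h1
      refine ⟨h1, ?_⟩
      rw [h1, zero_smul, zero_add] at hst
      exact (smul_eq_zero.mp hst).resolve_right hne
    funext j
    cases j with
    | none => exact hμ'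
    | some l => exact congrFun hz' l
  apply (Set.finite_iUnion fun i => (hfin i).image (fun x => x none)).subset
  rintro μ ⟨x, hx, h1, h2⟩
  obtain ⟨i, hi⟩ := Function.ne_iff.mp hx
  simp only [Pi.zero_apply] at hi
  simp only [Set.mem_iUnion]
  let y : Fin 5 → K := (x i)⁻¹ • x
  refine ⟨i, fun j => Option.elim j μ y, ?_, rfl⟩
  have hcomp : (fun j => Option.elim j μ y) ∘ some = y := rfl
  have hGe : ∀ p q : MvPolynomial (Fin 5) K, aeval (fun j => Option.elim j μ y) (G p q) =
      aeval y p + μ * aeval y q := by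
    intro p q
    simp only [G, map_add, map_mul, aeval_X, aeval_rename, hcomp]
    rfl
  rintro p (hp | ⟨l, rfl⟩)
  · simp only [Set.mem_insert_iff, Set.mem_singleton_iff] at hp
    rcases hp with rfl | rfl
    · simp [y, hi]
    · rw [hGe]
      have := quad_smul _ (pen_homog g hg 1 μ) (x i)⁻¹ x
      rw [h1, mul_zero, aeval_pen, one_mul] at this
      exact this
  · simp only
    rw [hGe]
    have e : aeval y (pderiv l (pen g 1 μ)) = aeval y (pderiv l (g 0)) +
        μ * aeval y (pderiv l (g 1)) := by
      simp [pen, Derivation.leibniz]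
    rw [← e, aeval_pderiv_eq_dd, dd_smul_left _ (pen_homog g hg 1 μ), h2, mul_zero]

/-! ### conics on intersections of two quadrics -/

theorem quad_conic_coeffs [Infinite K] {n : ℕ} (g : MvPolynomial (Fin n) K)
    (hg : g.IsHomogeneous 2) (v : Fin 3 → (Fin n → K))
    (h : ∀ s t : K, aeval (s ^ 2 • v 0 + (s * t) • v 1 + t ^ 2 • v 2) g = 0) :
    ∃ a : K, ∀ x y z : K, aeval (x • v 0 + y • v 1 + z • v 2) g = a * (x * z - y ^ 2) := by
  obtain ⟨T, hT, -⟩ := quad_bilinear g hg
  have hexp : ∀ x y z : K, aeval (x • v 0 + y • v 1 + z • v 2) g =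
      x ^ 2 * T (v 0) (v 0) + x * y * (T (v 0) (v 1) + T (v 1) (v 0)) +
      x * z * (T (v 0) (v 2) + T (v 2) (v 0)) +
      y ^ 2 * T (v 1) (v 1) + y * z * (T (v 1) (v 2) + T (v 2) (v 1)) +
      z ^ 2 * T (v 2) (v 2) := by
    intro x y z
    rw [hT]
    simp only [map_add, map_smul, LinearMap.add_apply, LinearMap.smul_apply, smul_eq_mul]
    ring
  obtain ⟨c0, c1, c2, c3, c4, -, -⟩ := sextic_coeffs
    (T (v 0) (v 0)) (T (v 0) (v 1) + T (v 1) (v 0))
    (T (v 0) (v 2) + T (v 2) (v 0) + T (v 1) (v 1))
    (T (v 1) (v 2) + T (v 2) (v 1)) (T (v 2) (v 2)) 0 0 (by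
      intro t
      have := h 1 t
      rw [hexp] at this
      linear_combination this)
  refine ⟨T (v 0) (v 2) + T (v 2) (v 0), ?_⟩
  intro x y z
  rw [hexp]
  linear_combination x ^ 2 * c0 + x * y * c1 + y ^ 2 * c2 + y * z * c3 + z ^ 2 * c4

/-- A member of the pencil containing a plane is singular. -/
theorem pen_singular_of_plane {q : MvPolynomial (Fin 5) K} (hq : q.IsHomogeneous 2)
    (v : Fin 3 → (Fin 5 → K)) (hv : LinearIndependent K v)
    (h : ∀ x y z : K, aeval (x • v 0 + y • v 1 + z • v 2) q = 0) :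
    ∃ x : Fin 5 → K, x ≠ 0 ∧ aeval x q = 0 ∧ ∀ y, dd q x y = 0 := by
  obtain ⟨z₁, hz₁⟩ := exists_extend (by norm_num) _ hv
  obtain ⟨z₂, hz₂⟩ := exists_extend (by norm_num) _ hz₁
  have hzero : ∀ p : Fin 3 → K, aeval (∑ i, p i • v i) q = 0 := by
    intro p
    rw [Fin.sum_univ_three]
    exact h _ _ _
  have hpol : ∀ p p' : Fin 3 → K, dd q (∑ i, p i • v i) (∑ i, p' i • v i) = 0 := by
    intro p p'
    have h1 := quad_add q hq (∑ i, p i • v i) (∑ i, p' i • v i)
    have h2 : ∑ i, p i • v i + ∑ i, p' i • v i = ∑ i, (p i + p' i) • v i := by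
      rw [← Finset.sum_add_distrib]
      apply Finset.sum_congr rfl
      intro i _
      rw [add_smul]
    rw [h2, hzero (fun i => p i + p' i), hzero, hzero] at h1
    linear_combination -h1
  let M : (Fin 3 → K) →ₗ[K] (Fin 2 → K) :=
    LinearMap.pi ![ddL q z₁ ∘ₗ Fintype.linearCombination K v,
      ddL q z₂ ∘ₗ Fintype.linearCombination K v]
  obtain ⟨p, hp0, hp⟩ := one_in_ker (by norm_num) M
  have hp1 : dd q z₁ (∑ i, p i • v i) = 0 := by
    have : ddL q z₁ (Fintype.linearCombination K v p) = 0 := congrFun hp 0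
    rw [Fintype.linearCombination_apply] at this
    exact this
  have hp2 : dd q z₂ (∑ i, p i • v i) = 0 := by
    have : ddL q z₂ (Fintype.linearCombination K v p) = 0 := congrFun hp 1
    rw [Fintype.linearCombination_apply] at this
    exact this
  refine ⟨∑ i, p i • v i, comb_ne_zero v hv p hp0, hzero p, ?_⟩
  have hvi : ∀ i, dd q (∑ i, p i • v i) (v i) = 0 := by
    intro i
    have := hpol p (Pi.single i 1)
    simpa [Pi.single_apply] using this
  have : ddL q (∑ i, p i • v i) = 0 := by
    apply functional_zero _ hz₂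
    intro i
    fin_cases i
    · change dd q _ z₂ = 0
      rw [dd_symm q hq]; exact hp2
    · change dd q _ z₁ = 0
      rw [dd_symm q hq]; exact hp1
    · exact hvi 0
    · exact hvi 1
    · exact hvi 2
  intro y
  exact LinearMap.congr_fun this y

/-- A conic in the intersection of two quadrics lies in a plane contained in a singular member
of the pencil. -/
theorem quad_conic_residual [Infinite K] (g : Fin 2 → MvPolynomial (Fin 5) K)
    (hg : ∀ a, (g a).IsHomogeneous 2) (v : Fin 3 → (Fin 5 → K)) (hv : LinearIndependent K v)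
    (h : ∀ s t : K, ∀ a, aeval (s ^ 2 • v 0 + (s * t) • v 1 + t ^ 2 • v 2) (g a) = 0) :
    ∃ a b : K, (a ≠ 0 ∨ b ≠ 0) ∧
      (∃ x : Fin 5 → K, x ≠ 0 ∧ aeval x (pen g a b) = 0 ∧ ∀ y, dd (pen g a b) x y = 0) ∧
      ∀ p p' : Fin 3 → K, dd (pen g a b) (∑ i, p i • v i) (∑ i, p' i • v i) = 0 := by
  choose α hα using fun a => quad_conic_coeffs (g a) (hg a) v (fun s t => h s t a)
  obtain ⟨a, b, hab, hlin⟩ := lin_zero (α 0) (α 1)
  have hz : ∀ x y z : K, aeval (x • v 0 + y • v 1 + z • v 2) (pen g a b) = 0 := by
    intro x y z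
    rw [aeval_pen, hα, hα]
    linear_combination (x * z - y ^ 2) * hlin
  refine ⟨a, b, hab, pen_singular_of_plane (pen_homog g hg a b) v hv hz, ?_⟩
  have hzero : ∀ p : Fin 3 → K, aeval (∑ i, p i • v i) (pen g a b) = 0 := by
    intro p
    rw [Fin.sum_univ_three]
    exact hz _ _ _
  intro p p'
  have h1 := quad_add _ (pen_homog g hg a b) (∑ i, p i • v i) (∑ i, p' i • v i)
  have h2 : ∑ i, p i • v i + ∑ i, p' i • v i = ∑ i, (p i + p' i) • v i := by
    rw [← Finset.sum_add_distrib]
    apply Finset.sum_congr rfl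
    intro i _
    rw [add_smul]
  rw [h2, hzero (fun i => p i + p' i), hzero, hzero] at h1
  linear_combination -h1

end Pool.Agent.R865.DP
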