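import Pool.Agent.R865.DPCubic

/-!
The conditions for intersections of two quadrics.
-/

namespace Pool.Agent.R865.DP

open MvPolynomial

variable {K : Type*} [Field K]

/-- tangent condition -/
noncomputable def T3 (f : Fin 2 → MvPolynomial (Fin 5) K) (x y z : Fin 5 → K) : K :=
  dd (f 0) x y * dd (f 1) x z - dd (f 0) x z * dd (f 1) x y

theorem T3_mem (f : Fin 2 → MvPolynomial (Fin 5) K) (i j l : Fin 3) :
    (fun P : Fin 3 → Fin 5 → K => T3 f (P i) (P j) (P l)) ∈ polyFn K 3 5 := by
  have : (fun P : Fin 3 → Fin 5 → K => T3 f (P i) (P j) (P l)) =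
      (fun P : Fin 3 → Fin 5 → K => dd (f 0) (P i) (P j)) *
        (fun P : Fin 3 → Fin 5 → K => dd (f 1) (P i) (P l)) -
      (fun P : Fin 3 → Fin 5 → K => dd (f 0) (P i) (P l)) *
        (fun P : Fin 3 → Fin 5 → K => dd (f 1) (P i) (P j)) := by
    funext P
    simp [T3]
  rw [this]
  exact Subalgebra.sub_mem _ (Subalgebra.mul_mem _ (dd_mem i j _) (dd_mem i l _))
    (Subalgebra.mul_mem _ (dd_mem i l _) (dd_mem i j _))

theorem T3_swap (f : Fin 2 → MvPolynomial (Fin 5) K) (x y z : Fin 5 → K) :
    T3 f x y z = - T3 f x z y := by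
  unfold T3; ring

theorem pen_scale (f : Fin 2 → MvPolynomial (Fin 5) K) (a b : K) (ha : a ≠ 0)
    (x y : Fin 5 → K) : dd (pen f 1 (b / a)) x y = a⁻¹ * dd (pen f a b) x y := by
  rw [dd_pen, dd_pen]
  field_simp

theorem conditions_quad [IsAlgClosed K] (f : Fin 2 → MvPolynomial (Fin (2 + 3)) K)
    (hf : IsDelPezzo 2 f) :
    ∃ W : Set ((Fin (2 + 1) → Fin (2 + 3) → K) → K), W.Finite ∧
      (∀ w ∈ W, w ∈ polyFn K (2 + 1) (2 + 3) ∧
        ∃ P, (∀ i a, aeval (P i) (f a) = 0) ∧ w P ≠ 0) ∧
      ∀ P : Fin (2 + 1) → Fin (2 + 3) → K, (∀ i a, aeval (P i) (f a) = 0) →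
        (∀ w ∈ W, w P ≠ 0) → TupleGP f P := by
  classical
  have hg := hf.homog
  have hspan := spans (by norm_num) f hf.homog hf.integral
  set S : Set (Fin 5 → K) := {x | ∀ a, aeval x (f a) = 0} with hS
  have hsm : Smooth2 f := by
    intro x hx hx0 μ ν h
    have hli := hf.smooth x hx hx0
    rw [Fintype.linearIndependent_iff] at hli
    have := hli ![μ, ν] (by
      rw [Fin.sum_univ_two]
      funext l
      have := h (Pi.single l 1)
      rw [← aeval_pderiv_eq_dd, ← aeval_pderiv_eq_dd] at this
      simpa using this)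
    exact ⟨this 0, this 1⟩
  obtain ⟨L, hLfin, hLind, hL⟩ := lines_finite (n := 5) (Set.range f) (by
    intro u w u' w' huw h1 h2
    exact quad_no_deformation f hg hsm u w u' w' huw (fun s t a => h1 s t _ ⟨a, rfl⟩)
      (fun s t a => h2 s t _ ⟨a, rfl⟩))
  have hΛ := pen_finite f hg hsm
  set Λ : Set K := {μ : K | ∃ x : Fin 5 → K, x ≠ 0 ∧ aeval x (pen f 1 μ) = 0 ∧
      ∀ y, dd (pen f 1 μ) x y = 0} with hΛdef
  let Q : Set (MvPolynomial (Fin 5) K) := insert (pen f 0 1) ((fun μ => pen f 1 μ) '' Λ)
  have hQfin : Q.Finite := (hΛ.image _).insert _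
  let D : (Fin 5 → K) × (Fin 5 → K) → (Fin (2 + 1) → Fin (2 + 3) → K) → K := fun ℓ P =>
    Matrix.det (Matrix.of ![P 0, P 1, P 2, ℓ.1, ℓ.2])
  let B : Fin 3 × Fin 3 → MvPolynomial (Fin 5) K → (Fin (2 + 1) → Fin (2 + 3) → K) → K :=
    fun ij q P => dd q (P ij.1) (P ij.2)
  refine ⟨({fun P => T3 f (P 0) (P 1) (P 2), fun P => T3 f (P 1) (P 0) (P 2),
    fun P => T3 f (P 2) (P 0) (P 1)} ∪ D '' L) ∪
    ⋃ ij ∈ ({(0, 1), (0, 2), (1, 2)} : Set (Fin 3 × Fin 3)), B ij '' Q,
    ((Set.toFinite _).union (hLfin.image D)).union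
      (Set.Finite.biUnion (Set.toFinite _) fun ij _ => hQfin.image _), ?_, ?_⟩
  · have hne : ∃ x ∈ S, x ≠ 0 := by
      obtain ⟨x, hxS, hx⟩ := exists_ne_zero_in S hspan (LinearMap.proj 0) (by
        intro h
        have := LinearMap.congr_fun h (Pi.single 0 1)
        simp at this)
      exact ⟨x, hxS, by rintro rfl; simp at hx⟩
    have htriple : ∃ x ∈ S, ∃ y ∈ S, ∃ z ∈ S, T3 f x y z ≠ 0 := by
      obtain ⟨x, hxS, hx0⟩ := hne
      have h0 : ddL (f 0) x ≠ 0 := by
        intro h
        have := hsm x hx0 hxS 1 0 (fun y => by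
          have := LinearMap.congr_fun h y
          simp only [ddL_apply, LinearMap.zero_apply] at this
          rw [this]; ring)
        exact one_ne_zero this.1
      obtain ⟨y, hyS, hy⟩ := exists_ne_zero_in S hspan _ h0
      have h1 : dd (f 0) x y • ddL (f 1) x - dd (f 1) x y • ddL (f 0) x ≠ 0 := by
        intro h
        have := hsm x hx0 hxS (-dd (f 1) x y) (dd (f 0) x y) (fun z => by
          have := LinearMap.congr_fun h z
          simp only [ddL_apply, LinearMap.zero_apply, LinearMap.sub_apply, LinearMap.smul_apply,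
            smul_eq_mul] at this
          linear_combination this)
        exact hy this.2
      obtain ⟨z, hzS, hz⟩ := exists_ne_zero_in S hspan _ h1
      refine ⟨x, hxS, y, hyS, z, hzS, ?_⟩
      intro h
      apply hz
      simp only [ddL_apply, LinearMap.sub_apply, LinearMap.smul_apply, smul_eq_mul]
      unfold T3 at h
      linear_combination h
    obtain ⟨x, hxS, y, hyS, z, hzS, hxyz⟩ := htriple
    have hmk : ∀ a b c : Fin 5 → K, a ∈ S → b ∈ S → c ∈ S →
        ∀ i j, aeval ((![a, b, c] : Fin 3 → Fin 5 → K) i) (f j) = 0 := by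
      intro a b c ha hb hc i j
      fin_cases i
      · exact ha j
      · exact hb j
      · exact hc j
    rintro w ((hw | ⟨ℓ, hℓ, rfl⟩) | hw)
    · simp only [Set.mem_insert_iff, Set.mem_singleton_iff] at hw
      rcases hw with rfl | rfl | rfl
      · exact ⟨T3_mem f 0 1 2, ![x, y, z], hmk _ _ _ hxS hyS hzS, hxyz⟩
      · exact ⟨T3_mem f 1 0 2, ![y, x, z], hmk _ _ _ hyS hxS hzS, hxyz⟩
      · exact ⟨T3_mem f 2 0 1, ![y, z, x], hmk _ _ _ hyS hzS hxS, hxyz⟩
    · constructor
      · apply det_mem (fun i j P => (![P 0, P 1, P 2, ℓ.1, ℓ.2] : Fin 5 → Fin 5 → K) i j)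
        intro i j
        fin_cases i
        · exact coord_mem 0 j
        · exact coord_mem 1 j
        · exact coord_mem 2 j
        · exact const_mem (ℓ.1 j)
        · exact const_mem (ℓ.2 j)
      · obtain ⟨z₂, hz₂S, hz₂⟩ := exists_extend_in S hspan (by norm_num) _ (hLind ℓ hℓ)
        obtain ⟨z₁, hz₁S, hz₁⟩ := exists_extend_in S hspan (by norm_num) _ hz₂
        obtain ⟨z₀, hz₀S, hz₀⟩ := exists_extend_in S hspan (by norm_num) _ hz₁
        exact ⟨![z₀, z₁, z₂], hmk _ _ _ hz₀S hz₁S hz₂S, (det_ne_zero_iff_indep _).mpr hz₀⟩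
    · -- the bilinear conditions
      simp only [Set.mem_iUnion] at hw
      obtain ⟨⟨i, j⟩, hij, q, hq, rfl⟩ := hw
      refine ⟨dd_mem i j q, ?_⟩
      have hq' : ∃ a b : K, (a ≠ 0 ∨ b ≠ 0) ∧ q = pen f a b := by
        rcases hq with rfl | ⟨μ, -, rfl⟩
        · exact ⟨0, 1, Or.inr one_ne_zero, rfl⟩
        · exact ⟨1, μ, Or.inl one_ne_zero, rfl⟩
      obtain ⟨a, b, hab, rfl⟩ := hq'
      have hnz : ∃ x ∈ S, ∃ y ∈ S, dd (pen f a b) x y ≠ 0 := by
        by_contra hcon
        push Not at hcon
        have h1 : ∀ x ∈ S, ddL (pen f a b) x = 0 := by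
          intro x hx
          by_contra h
          obtain ⟨y, hy, hy'⟩ := exists_ne_zero_in S hspan _ h
          exact hy' (hcon x hx y hy)
        have h2 : ∀ x y, dd (pen f a b) x y = 0 := by
          intro x y
          have : ddL (pen f a b) y = 0 := by
            by_contra h
            obtain ⟨z, hz, hz'⟩ := exists_ne_zero_in S hspan _ h
            apply hz'
            rw [ddL_apply, dd_symm _ (pen_homog f hg a b)]
            exact LinearMap.congr_fun (h1 z hz) y
          rw [dd_symm _ (pen_homog f hg a b)]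
          exact LinearMap.congr_fun this x
        apply pen_kernel f hg hsm a b hab (Pi.single 0 1) (Pi.single 1 1) _ (h2 _) (h2 _)
        rw [LinearIndependent.pair_iff]
        intro s t hst
        have e0 := congrFun hst 0
        have e1 := congrFun hst 1
        simp [Pi.single_apply] at e0 e1
        exact ⟨e0, e1⟩
      obtain ⟨x, hx, y, hy, hxy⟩ := hnz
      simp only [Set.mem_insert_iff, Set.mem_singleton_iff, Prod.mk.injEq] at hij
      rcases hij with ⟨rfl, rfl⟩ | ⟨rfl, rfl⟩ | ⟨rfl, rfl⟩
      · exact ⟨![x, y, y], hmk _ _ _ hx hy hy, hxy⟩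
      · exact ⟨![x, y, y], hmk _ _ _ hx hy hy, hxy⟩
      · exact ⟨![y, x, y], hmk _ _ _ hy hx hy, hxy⟩
  · intro P hP hW
    have t012 : T3 f (P 0) (P 1) (P 2) ≠ 0 :=
      hW (fun P => T3 f (P 0) (P 1) (P 2)) (Or.inl (Or.inl (Or.inl rfl)))
    have t102 : T3 f (P 1) (P 0) (P 2) ≠ 0 :=
      hW (fun P => T3 f (P 1) (P 0) (P 2)) (Or.inl (Or.inl (Or.inr (Or.inl rfl))))
    have t201 : T3 f (P 2) (P 0) (P 1) ≠ 0 :=
      hW (fun P => T3 f (P 2) (P 0) (P 1)) (Or.inl (Or.inl (Or.inr (Or.inr rfl))))
    have hD : ∀ ℓ ∈ L, LinearIndependent K (![P 0, P 1, P 2, ℓ.1, ℓ.2] : Fin 5 → Fin 5 → K) := by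
      intro ℓ hℓ
      rw [← det_ne_zero_iff_indep]
      exact hW (D ℓ) (Or.inl (Or.inr ⟨ℓ, hℓ, rfl⟩))
    have hQ : ∀ q ∈ Q, dd q (P 0) (P 1) ≠ 0 ∧ dd q (P 0) (P 2) ≠ 0 ∧ dd q (P 1) (P 2) ≠ 0 := by
      intro q hq
      refine ⟨hW (B (0, 1) q) (Or.inr ?_), hW (B (0, 2) q) (Or.inr ?_),
        hW (B (1, 2) q) (Or.inr ?_)⟩
      · simp only [Set.mem_iUnion]
        exact ⟨(0, 1), by simp, q, hq, rfl⟩
      · simp only [Set.mem_iUnion]
        exact ⟨(0, 2), by simp, q, hq, rfl⟩
      · simp only [Set.mem_iUnion]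
        exact ⟨(1, 2), by simp, q, hq, rfl⟩
    have hQhom : ∀ q ∈ Q, q.IsHomogeneous 2 := by
      rintro q (rfl | ⟨μ, -, rfl⟩)
      · exact pen_homog f hg _ _
      · exact pen_homog f hg _ _
    have hQ' : ∀ q ∈ Q, ∀ i j : Fin 3, i ≠ j → dd q (P i) (P j) ≠ 0 := by
      intro q hq i j hij
      obtain ⟨h01, h02, h12⟩ := hQ q hq
      fin_cases i <;> fin_cases j
      · exact absurd rfl hij
      · exact h01
      · exact h02
      · rw [dd_symm q (hQhom q hq)]; exact h01
      · exact absurd rfl hij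
      · exact h12
      · rw [dd_symm q (hQhom q hq)]; exact h02
      · rw [dd_symm q (hQhom q hq)]; exact h12
      · exact absurd rfl hij
    have hT : ∀ i j : Fin 3, i ≠ j → ∃ l, T3 f (P i) (P j) (P l) ≠ 0 := by
      intro i j hij
      fin_cases i <;> fin_cases j
      · exact absurd rfl hij
      · exact ⟨2, t012⟩
      · exact ⟨1, by rw [T3_swap]; exact neg_ne_zero.mpr t012⟩
      · exact ⟨2, t102⟩
      · exact absurd rfl hij
      · exact ⟨0, by rw [T3_swap]; exact neg_ne_zero.mpr t102⟩
      · exact ⟨1, t201⟩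
      · exact ⟨0, by rw [T3_swap]; exact neg_ne_zero.mpr t201⟩
      · exact absurd rfl hij
    have hex : ∀ i : Fin 3, ∃ j, i ≠ j := by
      intro i
      fin_cases i
      · exact ⟨1, by decide⟩
      · exact ⟨0, by decide⟩
      · exact ⟨0, by decide⟩
    have hne0 : ∀ i, P i ≠ 0 := by
      intro i hi
      obtain ⟨j, hj⟩ := hex i
      obtain ⟨l, hl⟩ := hT i j hj
      apply hl
      have h0 : ∀ a y, dd (f a) (P i) y = 0 := by
        intro a y
        rw [hi]
        have := dd_smul_left (f a) (hg a) 0 0 y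
        simpa using this
      unfold T3
      rw [h0, h0, h0, h0]; ring
    have hself : ∀ i a, dd (f a) (P i) (P i) = 0 := by
      intro i a
      rw [dd_self (f a) (hg a), hP i a, mul_zero]
    refine ⟨hne0, ?_, ?_, ?_⟩
    · intro i j hij r h
      obtain ⟨l, hl⟩ := hT i j hij
      apply hl
      unfold T3
      rw [h, dd_smul_right, dd_smul_right, hself, hself]
      ring
    · intro m hm1 hm3 v hv hline T hT
      interval_cases m
      · -- lines
        by_contra hcon
        obtain ⟨i, hi⟩ : ∃ i, i ∈ T := by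
          by_contra hno
          push Not at hno
          apply hcon
          have : T = ∅ := Finset.eq_empty_of_forall_notMem hno
          rw [this]; simp
        obtain ⟨ℓ, hℓ, hspanℓ⟩ := hL (v 0) (v 1) (indep_pair_of_fin_two v hv) (by
          rintro s t _ ⟨a, rfl⟩
          have := hline s t a
          rwa [ratCurve_one] at this)
        have hPi := hT i hi
        rw [span_pair_eq, hspanℓ] at hPi
        have hle : ∀ z z' : Fin 5 → K, Submodule.span K {ℓ.1, ℓ.2} ≤
            Submodule.span K (Set.range ![z, z', ℓ.1, ℓ.2]) := by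
          intro z z'
          rw [Submodule.span_le]
          rintro x (rfl | rfl)
          · exact Submodule.subset_span ⟨2, rfl⟩
          · exact Submodule.subset_span ⟨3, rfl⟩
        fin_cases i
        · refine not_indep_of_span (by norm_num) ![P 1, P 2, ℓ.1, ℓ.2] _ ?_ (hD ℓ hℓ)
          intro i
          fin_cases i
          · exact hle _ _ hPi
          · exact Submodule.subset_span ⟨0, rfl⟩
          · exact Submodule.subset_span ⟨1, rfl⟩
          · exact Submodule.subset_span ⟨2, rfl⟩
          · exact Submodule.subset_span ⟨3, rfl⟩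
        · refine not_indep_of_span (by norm_num) ![P 0, P 2, ℓ.1, ℓ.2] _ ?_ (hD ℓ hℓ)
          intro i
          fin_cases i
          · exact Submodule.subset_span ⟨0, rfl⟩
          · exact hle _ _ hPi
          · exact Submodule.subset_span ⟨1, rfl⟩
          · exact Submodule.subset_span ⟨2, rfl⟩
          · exact Submodule.subset_span ⟨3, rfl⟩
        · refine not_indep_of_span (by norm_num) ![P 0, P 1, ℓ.1, ℓ.2] _ ?_ (hD ℓ hℓ)
          intro i
          fin_cases i
          · exact Submodule.subset_span ⟨0, rfl⟩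
          · exact Submodule.subset_span ⟨1, rfl⟩
          · exact hle _ _ hPi
          · exact Submodule.subset_span ⟨2, rfl⟩
          · exact Submodule.subset_span ⟨3, rfl⟩
      · -- conics
        by_contra hcon
        have hcard : 1 < T.card := by omega
        obtain ⟨i, hi, j, hj, hij⟩ := Finset.one_lt_card.mp hcard
        obtain ⟨a, b, hab, ⟨x, hx0, hx1, hx2⟩, hzero⟩ := quad_conic_residual f hg v hv (by
          intro s t a
          have := hline s t a
          rwa [ratCurve_two] at this)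
        have hPP : dd (pen f a b) (P i) (P j) = 0 := by
          obtain ⟨p, hp⟩ := (Submodule.mem_span_range_iff_exists_fun K).mp (hT i hi)
          obtain ⟨p', hp'⟩ := (Submodule.mem_span_range_iff_exists_fun K).mp (hT j hj)
          rw [← hp, ← hp']
          exact hzero p p'
        by_cases ha : a = 0
        · have hb : b ≠ 0 := by
            rcases hab with h | h
            · exact absurd ha h
            · exact h
          apply hQ' (pen f 0 1) (Or.inl rfl) i j hij
          rw [dd_pen] at hPP ⊢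
          rw [ha, zero_mul, zero_add] at hPP
          rw [(mul_eq_zero.mp hPP).resolve_left hb]
          ring
        · apply hQ' (pen f 1 (b / a)) (Or.inr ⟨b / a, ⟨x, hx0, ?_, ?_⟩, rfl⟩) i j hij
          · rw [pen_scale f a b ha, hPP, mul_zero]
          · have : aeval x (pen f 1 (b / a)) = a⁻¹ * aeval x (pen f a b) := by
              rw [aeval_pen, aeval_pen]
              field_simp
            rw [this, hx1, mul_zero]
          · intro y
            rw [pen_scale f a b ha, hx2, mul_zero]
      · -- twisted cubics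
        by_contra hcon
        have hTu : T = Finset.univ := by
          apply Finset.eq_univ_of_card
          have := Finset.card_le_univ T
          simp only [Fintype.card_fin] at this ⊢
          omega
        obtain ⟨u, w, huw, hlin, hu, hw⟩ := quad_twisted_residual f hg v hv (by
          intro s t a
          have := hline s t a
          rwa [ratCurve_three] at this)
        obtain ⟨ℓ, hℓ, hspanℓ⟩ := hL u w huw (by
          rintro s t _ ⟨a, rfl⟩
          exact hlin s t a)
        have hle : Submodule.span K {ℓ.1, ℓ.2} ≤ Submodule.span K (Set.range v) := by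
          rw [← hspanℓ, Submodule.span_le]
          rintro x (rfl | rfl)
          · exact hu
          · exact hw
        refine not_indep_of_span (by norm_num) v _ ?_ (hD ℓ hℓ)
        intro i
        fin_cases i
        · exact hT 0 (by rw [hTu]; exact Finset.mem_univ _)
        · exact hT 1 (by rw [hTu]; exact Finset.mem_univ _)
        · exact hT 2 (by rw [hTu]; exact Finset.mem_univ _)
        · exact hle (Submodule.subset_span (Or.inl rfl))
        · exact hle (Submodule.subset_span (Or.inr rfl))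
    · intro i r hr h hh hz
      have hPi : r • P i ≠ 0 := smul_ne_zero hr (hne0 i)
      have hPi0 : ∀ a, aeval (r • P i) (f a) = 0 := by
        intro a
        rw [quad_smul (f a) (hg a), hP i a, mul_zero]
      refine linearIndependent_finCons.mpr ⟨hf.smooth _ hPi hPi0, ?_⟩
      intro hmem
      obtain ⟨μ, hμ⟩ := (Submodule.mem_span_range_iff_exists_fun K).mp hmem
      rw [Fin.sum_univ_two] at hμ
      have h1 : ∀ j, μ 0 * dd (f 0) (P i) (P j) + μ 1 * dd (f 1) (P i) (P j) = 0 := by
        intro j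
        have h1 := hz j
        rw [← hμ] at h1
        have h2 : ∑ l, ((μ 0 • fun l => aeval (r • P i) (pderiv l (f 0))) +
            (μ 1 • fun l => aeval (r • P i) (pderiv l (f 1))) : Fin 5 → K) l * P j l =
            μ 0 * dd (f 0) (r • P i) (P j) + μ 1 * dd (f 1) (r • P i) (P j) := by
          unfold dd
          rw [Finset.mul_sum, Finset.mul_sum, ← Finset.sum_add_distrib]
          apply Finset.sum_congr rfl
          intro l _
          simp only [Pi.add_apply, Pi.smul_apply, smul_eq_mul]
          ring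
        rw [h2, dd_smul_left (f 0) (hg 0), dd_smul_left (f 1) (hg 1)] at h1
        have h3 : r * (μ 0 * dd (f 0) (P i) (P j) + μ 1 * dd (f 1) (P i) (P j)) = 0 := by
          linear_combination h1
        exact (mul_eq_zero.mp h3).resolve_left hr
      obtain ⟨j, hj⟩ := hex i
      obtain ⟨l, hl⟩ := hT i j hj
      have e0 : μ 0 * T3 f (P i) (P j) (P l) = 0 := by
        unfold T3
        linear_combination dd (f 1) (P i) (P l) * h1 j - dd (f 1) (P i) (P j) * h1 l
      have e1 : μ 1 * T3 f (P i) (P j) (P l) = 0 := by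
        unfold T3
        linear_combination dd (f 0) (P i) (P j) * h1 l - dd (f 0) (P i) (P l) * h1 j
      apply hh
      rw [← hμ, (mul_eq_zero.mp e0).resolve_right hl, (mul_eq_zero.mp e1).resolve_right hl,
        zero_smul, zero_smul, add_zero]

end Pool.Agent.R865.DP
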