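import Mathlib

/-!
Finiteness of the common zeros of a system of polynomials over an algebraically closed field
at which the Jacobian is injective.
-/

namespace Pool.Agent.R865.DP

open MvPolynomial

variable {K : Type*} [Field K]

/-- Taylor expansion to first order over the dual numbers. -/
theorem aeval_dual {σ : Type*} [Fintype σ] (x v : σ → K) (p : MvPolynomial σ K) :
    aeval (fun j => (TrivSqZeroExt.inl (x j) + TrivSqZeroExt.inr (v j) : DualNumber K)) p
      = TrivSqZeroExt.inl (aeval x p) +
        TrivSqZeroExt.inr (∑ j, aeval x (pderiv j p) * v j) := by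
  classical
  induction p using MvPolynomial.induction_on with
  | C a =>
    ext
    · simp [TrivSqZeroExt.algebraMap_eq_inl]
    · simp [TrivSqZeroExt.algebraMap_eq_inl]
  | add p q hp hq =>
    rw [map_add, hp, hq]
    ext
    · simp
    · simp [add_mul, Finset.sum_add_distrib]
  | mul_X p i hp =>
    rw [map_mul, hp, aeval_X]
    ext
    · simp
    · simp only [TrivSqZeroExt.snd_mul, TrivSqZeroExt.snd_add, TrivSqZeroExt.fst_add,
        TrivSqZeroExt.snd_inl, TrivSqZeroExt.snd_inr, TrivSqZeroExt.fst_inl,
        TrivSqZeroExt.fst_inr, add_zero, zero_add, map_mul, aeval_X, Derivation.leibniz,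
        pderiv_X, map_add, smul_eq_mul, MulOpposite.smul_eq_mul_unop, MulOpposite.unop_op]
      simp only [add_mul, Finset.sum_add_distrib]
      congr 1
      · rw [Finset.sum_eq_single i]
        · simp
        · intro b _ hb
          simp [Pi.single_apply, Ne.symm hb]
        · simp
      · rw [Finset.sum_mul]
        apply Finset.sum_congr rfl
        intro j _
        ring

theorem span_eq_top_of_dot {σ : Type*} [Fintype σ] (R : Set (σ → K))
    (h : ∀ v : σ → K, (∀ r ∈ R, ∑ j, r j * v j = 0) → v = 0) :
    Submodule.span K R = ⊤ := by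
  classical
  by_contra hne
  obtain ⟨f, hf, hle⟩ := Submodule.exists_le_ker_of_lt_top _ (lt_top_iff_ne_top.mpr hne)
  apply hf
  have hv : (fun j => f (Pi.single j 1)) = (0 : σ → K) := by
    apply h
    intro r hr
    have h1 : f r = 0 := hle (Submodule.subset_span hr)
    have h2 : r = ∑ j, r j • (Pi.single j 1 : σ → K) := by
      ext i
      simp [Finset.sum_apply, Pi.single_apply]
    rw [h2, map_sum] at h1
    simpa using h1
  apply LinearMap.pi_ext'
  intro j
  ext
  simpa using congrFun hv j

set_option linter.unusedSimpArgs false in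
theorem chain_rule {σ : Type*} [Fintype σ] {A : Type*} [CommRing A] [Algebra K A]
    (π : MvPolynomial σ K →ₐ[K] A) (p : MvPolynomial σ K) :
    KaehlerDifferential.D K A (π p) =
      ∑ j, (π (pderiv j p)) • KaehlerDifferential.D K A (π (X j)) := by
  classical
  induction p using MvPolynomial.induction_on with
  | C a =>
    have : π (C a) = algebraMap K A a := by
      rw [← MvPolynomial.algebraMap_eq, AlgHom.commutes]
    rw [this, Derivation.map_algebraMap]
    simp
  | add p q hp hq =>
    rw [map_add, map_add, hp, hq]
    simp [add_smul, Finset.sum_add_distrib]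
  | mul_X p i hp =>
    rw [map_mul, Derivation.leibniz, hp]
    have : ∀ j, π (Pi.single (M := fun _ => MvPolynomial σ K) i 1 j) =
        (if j = i then (1 : A) else 0) := by
      intro j
      by_cases h : j = i
      · subst h; simp
      · simp [Pi.single_apply, h]
    simp only [Derivation.leibniz, pderiv_X, map_add, smul_eq_mul, map_mul, this, add_smul,
      Finset.sum_add_distrib, mul_ite, mul_one, mul_zero, ite_smul, zero_smul,
      Finset.sum_ite_eq', Finset.sum_ite_eq, Finset.mem_univ, if_true, Finset.smul_sum]
    congr 1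
    · rw [Finset.sum_eq_single i]
      · simp
      · intro b _ hb
        simp [Pi.single_apply, hb, Ne.symm hb]
      · simp
    · apply Finset.sum_congr rfl
      intro j _
      rw [smul_smul]

theorem gen_top {σ : Type*} [Fintype σ] {A : Type*} [CommRing A] [Algebra K A]
    (π : MvPolynomial σ K →ₐ[K] A) (hπ : Function.Surjective π)
    (N : Submodule A (Ω[A⁄K])) (hN : ∀ j, KaehlerDifferential.D K A (π (X j)) ∈ N) : N = ⊤ := by
  rw [eq_top_iff, ← KaehlerDifferential.span_range_derivation, Submodule.span_le]
  rintro _ ⟨a, rfl⟩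
  obtain ⟨p, rfl⟩ := hπ a
  change KaehlerDifferential.D K A _ ∈ N
  rw [chain_rule π p]
  exact Submodule.sum_mem _ fun j _ => Submodule.smul_mem _ _ (hN j)

theorem unramified_aux {σ : Type*} [Finite σ] [IsAlgClosed K] {A : Type*} [CommRing A]
    [Algebra K A] (π : MvPolynomial σ K →ₐ[K] A) (hπ : Function.Surjective π)
    (S : Set (MvPolynomial σ K)) (hS : ∀ p ∈ S, π p = 0)
    (h : ∀ x v : σ → K,
      (∀ p ∈ S, aeval
        (fun j => (TrivSqZeroExt.inl (x j) + TrivSqZeroExt.inr (v j) : DualNumber K)) p = 0) →
        v = 0) : Subsingleton (Ω[A⁄K]) := by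
  classical
  have := Fintype.ofFinite σ
  have hFT : Algebra.FiniteType K A := Algebra.FiniteType.of_surjective π hπ
  have hfin : Module.Finite A (Ω[A⁄K]) := inferInstance
  by_contra hns
  have hann : Module.annihilator A (Ω[A⁄K]) ≠ ⊤ := by
    intro h1
    apply hns
    rw [Module.annihilator_eq_top_iff] at h1
    exact h1
  obtain ⟨m, hm, hle⟩ := Ideal.exists_le_maximal _ hann
  -- the point
  have hmax : (m.comap π).IsMaximal := Ideal.comap_isMaximal_of_surjective π hπ
  obtain ⟨x, hx⟩ := eq_vanishingIdeal_singleton_of_isMaximal K hmax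
  have hx' : ∀ p : MvPolynomial σ K, π p ∈ m ↔ aeval x p = 0 := by
    intro p
    rw [← mem_vanishingIdeal_singleton_iff, ← hx, Ideal.mem_comap]
  have hS' : ∀ p ∈ S, aeval x p = 0 := by
    intro p hp
    rw [← hx', hS p hp]
    exact m.zero_mem
  have hspan := span_eq_top_of_dot ((fun p : MvPolynomial σ K => fun j => aeval x (pderiv j p)) '' S)
    (by
      intro v hv
      apply h x v
      intro p hp
      rw [aeval_dual, hS' p hp]
      have := hv _ ⟨p, hp, rfl⟩
      simp only at this
      rw [this]
      simp)
  -- every generator is in m • ⊤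
  have key : ∀ a : σ → K, ∑ j, (algebraMap K A (a j)) • KaehlerDifferential.D K A (π (X j)) ∈
      (m • ⊤ : Submodule A (Ω[A⁄K])) := by
    intro a
    have ha : a ∈ Submodule.span K
        ((fun p : MvPolynomial σ K => fun j => aeval x (pderiv j p)) '' S) := by
      rw [hspan]; trivial
    induction ha using Submodule.span_induction with
    | mem b hb =>
      obtain ⟨p, hp, rfl⟩ := hb
      have h0 : KaehlerDifferential.D K A (π p) = 0 := by
        rw [hS p hp, map_zero]
      rw [chain_rule π p] at h0
      have h1 : ∑ j, (algebraMap K A (aeval x (pderiv j p))) • KaehlerDifferential.D K A (π (X j)) =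
          ∑ j, (algebraMap K A (aeval x (pderiv j p)) - π (pderiv j p)) •
            KaehlerDifferential.D K A (π (X j)) := by
        rw [← sub_zero (∑ j, (algebraMap K A (aeval x (pderiv j p))) •
          KaehlerDifferential.D K A (π (X j))), ← h0, ← Finset.sum_sub_distrib]
        apply Finset.sum_congr rfl
        intro j _
        rw [sub_smul]
      simp only
      rw [h1]
      apply Submodule.sum_mem
      intro j _
      apply Submodule.smul_mem_smul _ Submodule.mem_top
      have : algebraMap K A (aeval x (pderiv j p)) - π (pderiv j p) =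
        π (C (aeval x (pderiv j p)) - pderiv j p) := by
          rw [map_sub, ← MvPolynomial.algebraMap_eq, AlgHom.commutes]
      rw [this, hx']
      simp
    | zero => simp
    | add b c _ _ hb hc =>
      have : ∑ j, (algebraMap K A ((b + c) j)) • KaehlerDifferential.D K A (π (X j)) =
        ∑ j, (algebraMap K A (b j)) • KaehlerDifferential.D K A (π (X j)) +
        ∑ j, (algebraMap K A (c j)) • KaehlerDifferential.D K A (π (X j)) := by
          simp only [Pi.add_apply, map_add, add_smul, Finset.sum_add_distrib]
      rw [this]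
      exact Submodule.add_mem _ hb hc
    | smul t b _ hb =>
      have : ∑ j, (algebraMap K A ((t • b) j)) • KaehlerDifferential.D K A (π (X j)) =
        algebraMap K A t • ∑ j, (algebraMap K A (b j)) • KaehlerDifferential.D K A (π (X j)) := by
          rw [Finset.smul_sum]
          apply Finset.sum_congr rfl
          intro j _
          rw [smul_smul]
          simp only [Pi.smul_apply, smul_eq_mul, map_mul]
      rw [this]
      exact Submodule.smul_mem _ _ hb
  have htop : (m • ⊤ : Submodule A (Ω[A⁄K])) = ⊤ := by
    apply gen_top π hπ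
    intro j
    have := key (Pi.single j 1)
    have e : ∑ i, (algebraMap K A ((Pi.single j 1 : σ → K) i)) •
        KaehlerDifferential.D K A (π (X i)) = KaehlerDifferential.D K A (π (X j)) := by
      rw [Finset.sum_eq_single j]
      · simp
      · intro b _ hb
        simp [Pi.single_apply, hb]
      · simp
    rwa [e] at this
  obtain ⟨r, hr, hr'⟩ := Submodule.exists_sub_one_mem_and_smul_eq_zero_of_fg_of_le_smul m
    (⊤ : Submodule A (Ω[A⁄K])) hfin.fg_top htop.ge
  have : r ∈ m := hle (by
    rw [Module.mem_annihilator]
    intro n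
    exact hr' n trivial)
  apply hm.ne_top
  rw [Ideal.eq_top_iff_one]
  have := m.sub_mem this hr
  simpa using this

theorem finite_zeros {σ : Type*} [Finite σ] [IsAlgClosed K] (S : Set (MvPolynomial σ K))
    (h : ∀ x v : σ → K,
      (∀ p ∈ S, aeval
        (fun j => (TrivSqZeroExt.inl (x j) + TrivSqZeroExt.inr (v j) : DualNumber K)) p = 0) →
        v = 0) :
    {x : σ → K | ∀ p ∈ S, aeval x p = 0}.Finite := by
  classical
  have hsub : Subsingleton (Ω[(MvPolynomial σ K ⧸ Ideal.span S)⁄K]) :=
    unramified_aux (Ideal.Quotient.mkₐ K (Ideal.span S)) (Ideal.Quotient.mkₐ_surjective _ _) S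
      (fun p hp => Ideal.Quotient.eq_zero_iff_mem.mpr (Ideal.subset_span hp)) h
  have hU : Algebra.FormallyUnramified K (MvPolynomial σ K ⧸ Ideal.span S) := ⟨hsub⟩
  have hE : Algebra.EssFiniteType K (MvPolynomial σ K ⧸ Ideal.span S) := inferInstance
  have hF : Module.Finite K (MvPolynomial σ K ⧸ Ideal.span S) :=
    Algebra.FormallyUnramified.finite_of_free K (MvPolynomial σ K ⧸ Ideal.span S)
  have hHom : Finite ((MvPolynomial σ K ⧸ Ideal.span S) →ₐ[K] K) := inferInstance
  -- injection into homs
  let Φ : {x : σ → K | ∀ p ∈ S, aeval x p = 0} → ((MvPolynomial σ K ⧸ Ideal.span S) →ₐ[K] K) :=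
    fun x => Ideal.Quotient.liftₐ (Ideal.span S) (aeval x.1) (by
      intro a ha
      have : Ideal.span S ≤ RingHom.ker (aeval x.1 : MvPolynomial σ K →ₐ[K] K) := by
        rw [Ideal.span_le]
        intro p hp
        exact x.2 p hp
      exact this ha)
  have hΦ : Function.Injective Φ := by
    intro x y hxy
    ext j
    have h1 := DFunLike.congr_fun hxy (Ideal.Quotient.mk (Ideal.span S) (X j))
    have h2 : ∀ z : {x : σ → K | ∀ p ∈ S, aeval x p = 0},
        Φ z (Ideal.Quotient.mk (Ideal.span S) (X j)) = z.1 j := by
      intro z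
      change aeval z.1 (X j) = _
      simp
    rw [h2, h2] at h1
    exact h1
  have : Finite {x : σ → K | ∀ p ∈ S, aeval x p = 0} := Finite.of_injective Φ hΦ
  exact this

end Pool.Agent.R865.DP
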