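import Pool.Agent.R865.MonoDefs

set_option autoImplicit false

open scoped Topology

namespace Pool.Agent.R865.Mono

/-- A holomorphic even germ is a holomorphic function of the square. -/
lemma exists_even {e : ℂ → ℂ} (he : AnalyticAt ℂ e 0) (hev : ∀ᶠ x in 𝓝 (0 : ℂ), e (-x) = e x) :
    ∃ α : ℂ → ℂ, AnalyticAt ℂ α 0 ∧ ∀ᶠ x in 𝓝 (0 : ℂ), e x = α (x ^ 2) := by
  obtain ⟨r, hr, hball⟩ : ∃ r > 0, ∀ x : ℂ, ‖x‖ < r → e (-x) = e x ∧ AnalyticAt ℂ e x := by
    have h := hev.and he.eventually_analyticAt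
    obtain ⟨r, hr, h⟩ := Metric.eventually_nhds_iff.1 h
    exact ⟨r, hr, fun x hx => h (by simpa using hx)⟩
  set s : ℂ → ℂ := fun y => y ^ (1 / 2 : ℂ) with hs
  have hs2 : ∀ y, s y ^ 2 = y := by
    intro y
    have := Complex.cpow_nat_inv_pow y (n := 2) (by norm_num)
    simpa [hs] using this
  have hsn : ∀ y, ‖s y‖ ^ 2 = ‖y‖ := by
    intro y
    rw [← norm_pow, hs2]
  have hlt : ∀ y w : ℂ, w ^ 2 = y → ‖y‖ < r ^ 2 → ‖w‖ < r := by
    intro y w hw hy
    have : ‖w‖ ^ 2 < r ^ 2 := by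
      rw [← norm_pow, hw]; exact hy
    exact lt_of_pow_lt_pow_left₀ 2 hr.le this
  have key : ∀ y w : ℂ, w ^ 2 = y → ‖y‖ < r ^ 2 → e w = e (s y) := by
    intro y w hw hy
    have h1 : w ^ 2 = (s y) ^ 2 := by rw [hw, hs2]
    rcases sq_eq_sq_iff_eq_or_eq_neg.1 h1 with h | h
    · rw [h]
    · rw [h]
      exact (hball _ (hlt y _ (hs2 y) hy)).1
  refine ⟨fun y => e (s y), ?_, ?_⟩
  · apply Complex.analyticAt_of_differentiable_on_punctured_nhds_of_continuousAt
    · have h1 : ∀ᶠ z in 𝓝 (0 : ℂ), ‖z‖ < r ^ 2 := by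
        have : Filter.Tendsto (fun z : ℂ => ‖z‖) (𝓝 0) (𝓝 0) := by
          simpa using (continuous_norm.tendsto (0 : ℂ))
        exact this.eventually (gt_mem_nhds (by positivity))
      have h1' : ∀ᶠ z in 𝓝[≠] (0 : ℂ), ‖z‖ < r ^ 2 := h1.filter_mono nhdsWithin_le_nhds
      filter_upwards [h1', self_mem_nhdsWithin] with z hz hz0
      by_cases hsl : z ∈ Complex.slitPlane
      · have hd : DifferentiableAt ℂ s z := by
          simpa [hs] using (differentiableAt_id.cpow_const (c := (1 / 2 : ℂ)) (by simpa using hsl))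
        exact ((hball _ (hlt z _ (hs2 z) hz)).2.differentiableAt).comp z hd
      · have hsl' : -z ∈ Complex.slitPlane := by
          rw [Complex.mem_slitPlane_iff] at hsl ⊢
          push Not at hsl
          obtain ⟨h1, h2⟩ := hsl
          left
          rcases lt_or_eq_of_le h1 with h | h
          · simpa using h
          · exact absurd (Complex.ext h h2) hz0
        have hd : DifferentiableAt ℂ (fun y => Complex.I * s (-y)) z := by
          apply DifferentiableAt.const_mul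
          have : DifferentiableAt ℂ s (-z) := by
            simpa [hs] using
              (differentiableAt_id.cpow_const (c := (1 / 2 : ℂ)) (by simpa using hsl'))
          exact this.comp z differentiableAt_id.neg
        have hw : ∀ y : ℂ, (Complex.I * s (-y)) ^ 2 = y := by
          intro y
          rw [mul_pow, hs2, Complex.I_sq]; ring
        have hd2 : DifferentiableAt ℂ (fun y => e (Complex.I * s (-y))) z :=
          ((hball _ (hlt z _ (hw z) hz)).2.differentiableAt).comp z hd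
        refine hd2.congr_of_eventuallyEq ?_
        have h3 : ∀ᶠ y in 𝓝 z, ‖y‖ < r ^ 2 :=
          (continuous_norm.tendsto z).eventually (gt_mem_nhds hz)
        filter_upwards [h3] with y hy
        exact (key y _ (hw y) hy).symm
    · have hs0 : s 0 = 0 := by simp [hs]
      have hsc : ContinuousAt s 0 := by
        rw [ContinuousAt, hs0, tendsto_zero_iff_norm_tendsto_zero]
        have h1 : (fun y => ‖s y‖) = fun y => Real.sqrt ‖y‖ := by
          funext y
          rw [← hsn y, Real.sqrt_sq (norm_nonneg _)]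
        rw [h1]
        have h2 : Continuous fun y : ℂ => Real.sqrt ‖y‖ := by fun_prop
        simpa using h2.tendsto 0
      have : ContinuousAt e (s 0) := by rw [hs0]; exact he.continuousAt
      exact this.comp hsc
  · have h1 : ∀ᶠ x in 𝓝 (0 : ℂ), ‖x‖ < r := by
      have : Filter.Tendsto (fun z : ℂ => ‖z‖) (𝓝 0) (𝓝 0) := by
        simpa using (continuous_norm.tendsto (0 : ℂ))
      exact this.eventually (gt_mem_nhds hr)
    filter_upwards [h1] with x hx
    refine key (x ^ 2) x rfl ?_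
    rw [norm_pow]
    exact pow_lt_pow_left₀ hx (norm_nonneg _) (by norm_num)

/-- Every holomorphic germ `g` is of the form `α(x²) + x³ β(x²) + c x`. -/
lemma exists_decomp {g : ℂ → ℂ} (hg : AnalyticAt ℂ g 0) :
    ∃ (α β : ℂ → ℂ) (c : ℂ), AnalyticAt ℂ α 0 ∧ AnalyticAt ℂ β 0 ∧
      ∀ᶠ x in 𝓝 (0 : ℂ), g x = α (x ^ 2) + x ^ 3 * β (x ^ 2) + c * x := by
  have hneg : AnalyticAt ℂ (fun x : ℂ => -x) 0 := by fun_prop
  have hgn : AnalyticAt ℂ (fun x => g (-x)) 0 := by
    have : AnalyticAt ℂ g ((fun x : ℂ => -x) 0) := by simpa using hg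
    exact this.comp hneg
  -- even part
  obtain ⟨α, hα, hα'⟩ := exists_even (e := fun x => (g x + g (-x)) / 2)
    ((hg.add hgn).div_const) (by
      filter_upwards with x
      simp [add_comm])
  -- odd part
  set o : ℂ → ℂ := fun x => (g x - g (-x)) / 2 with ho
  have hoa : AnalyticAt ℂ o 0 := (hg.sub hgn).div_const
  have ho0 : o 0 = 0 := by simp [ho]
  have hda : AnalyticAt ℂ (dslope o 0) 0 := by
    obtain ⟨p, hp⟩ := hoa
    exact ⟨_, hp.has_fpower_series_dslope_fslope⟩
  obtain ⟨β, hβ, hβ'⟩ := exists_even (e := dslope o 0) hda (by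
    filter_upwards with x
    by_cases hx : x = 0
    · simp [hx]
    · rw [dslope_of_ne _ hx, dslope_of_ne _ (neg_ne_zero.2 hx), slope_def_field,
        slope_def_field, ho0]
      have : o (-x) = - o x := by simp only [ho, neg_neg]; ring
      rw [this]
      simp only [sub_zero, neg_div_neg_eq])
  have hdb : AnalyticAt ℂ (dslope β 0) 0 := by
    obtain ⟨p, hp⟩ := hβ
    exact ⟨_, hp.has_fpower_series_dslope_fslope⟩
  refine ⟨α, dslope β 0, β 0, hα, hdb, ?_⟩
  filter_upwards [hα', hβ'] with x h1 h2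
  have h3 : g x = (g x + g (-x)) / 2 + o x := by simp only [ho]; ring
  have h4 : o x = x * dslope o 0 x := by
    have := sub_smul_dslope o 0 x
    simp only [sub_zero, smul_eq_mul, ho0] at this
    exact this.symm
  have h5 : β (x ^ 2) = β 0 + x ^ 2 * dslope β 0 (x ^ 2) := by
    have := sub_smul_dslope β 0 (x ^ 2)
    simp only [sub_zero, smul_eq_mul] at this
    rw [this]; ring
  rw [h3, h1, h4, h2, h5]
  ring

variable (q : ℕ)

/-- The cuspidal germ `x ↦ (x², x³, 0, …, 0)`. -/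
noncomputable def cusp (x : Fin 1 → ℂ) : Fin (q + 2) → ℂ :=
  (x 0) ^ 2 • Pi.single 0 1 + (x 0) ^ 3 • Pi.single 1 1

/-- The unfolding `(x, u) ↦ (x² + u₀ x, x³ + u₁ x, u₂ x, …)`. -/
noncomputable def unf (x : Fin 1 → ℂ) (u : Fin (q + 2) → ℂ) : Fin (q + 2) → ℂ :=
  cusp q x + x 0 • u

lemma spans : SpansNormal (cusp q) fun (i : Fin (q + 2)) x => x 0 • Pi.single i 1 := by
  intro θ hθ
  have hline : AnalyticAt ℂ (fun t : ℂ => (fun _ : Fin 1 => t)) 0 := by
    rw [analyticAt_pi_iff]
    intro i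
    exact analyticAt_id
  have hθ' : AnalyticAt ℂ θ ((fun t : ℂ => (fun _ : Fin 1 => t)) 0) := by
    have : (fun _ : Fin 1 => (0 : ℂ)) = 0 := rfl
    simpa [this] using hθ
  have hg : ∀ j, AnalyticAt ℂ (fun t : ℂ => θ (fun _ => t) j) 0 := by
    intro j
    have h1 := hθ'.comp hline
    have := (analyticAt_pi_iff.1 h1) j
    exact this
  choose α β c hα hβ h using fun j => exists_decomp (hg j)
  refine ⟨c, 0, fun y j => α j (y 0) + y 1 * β j (y 0), analyticAt_const, ?_, ?_⟩
  · rw [analyticAt_pi_iff]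
    intro j
    have hp0 : AnalyticAt ℂ (fun y : Fin (q + 2) → ℂ => y 0) 0 :=
      (ContinuousLinearMap.proj (R := ℂ) (φ := fun _ : Fin (q + 2) => ℂ) 0).analyticAt 0
    have hp1 : AnalyticAt ℂ (fun y : Fin (q + 2) → ℂ => y 1) 0 :=
      (ContinuousLinearMap.proj (R := ℂ) (φ := fun _ : Fin (q + 2) => ℂ) 1).analyticAt 0
    have ha : AnalyticAt ℂ (fun y : Fin (q + 2) → ℂ => α j (y 0)) 0 :=
      AnalyticAt.comp (g := α j) (by simpa using hα j) hp0
    have hb : AnalyticAt ℂ (fun y : Fin (q + 2) → ℂ => β j (y 0)) 0 :=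
      AnalyticAt.comp (g := β j) (by simpa using hβ j) hp0
    exact ha.add (hp1.mul hb)
  · have hev : ∀ᶠ t in 𝓝 (0 : ℂ), ∀ j, θ (fun _ => t) j
        = α j (t ^ 2) + t ^ 3 * β j (t ^ 2) + c j * t := by
      rw [Filter.eventually_all]
      exact h
    have ht : Filter.Tendsto (fun x : Fin 1 → ℂ => x 0) (𝓝 0) (𝓝 0) := by
      have := (continuous_apply (0 : Fin 1) (A := fun _ => ℂ)).tendsto (0 : Fin 1 → ℂ)
      simpa using this
    filter_upwards [ht.eventually hev] with x hx
    funext j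
    have hx' : x = fun _ => x 0 := by
      funext i; fin_cases i; rfl
    have hc0 : cusp q x 0 = (x 0) ^ 2 := by simp [cusp]
    have hc1 : cusp q x 1 = (x 0) ^ 3 := by simp [cusp]
    have hj := hx j
    rw [← hx'] at hj
    rw [hj]
    simp only [Pi.zero_apply, map_zero, add_zero, Pi.add_apply, Finset.sum_apply, Pi.smul_apply,
      smul_eq_mul, Pi.single_apply]
    rw [hc0, hc1]
    simp
    ring

lemma afinite : AFinite (cusp q) := by
  refine ⟨q + 2, _, fun i => ?_, spans q⟩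
  have h : AnalyticAt ℂ (fun x : Fin 1 → ℂ => x 0) 0 :=
    (ContinuousLinearMap.proj (R := ℂ) (φ := fun _ : Fin 1 => ℂ) 0).analyticAt 0
  exact h.smul analyticAt_const

lemma cusp_analytic : AnalyticAt ℂ (cusp q) 0 := by
  have h : AnalyticAt ℂ (fun x : Fin 1 → ℂ => x 0) 0 :=
    (ContinuousLinearMap.proj (R := ℂ) (φ := fun _ : Fin 1 => ℂ) 0).analyticAt 0
  exact ((h.pow 2).smul analyticAt_const).add ((h.pow 3).smul analyticAt_const)

lemma versal : IsVersalUnfolding (cusp q) (unf q) := by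
  refine ⟨?_, fun x => by simp [unf], ?_⟩
  · have h1 : AnalyticAt ℂ (fun z : (Fin 1 → ℂ) × (Fin (q + 2) → ℂ) => z.1) 0 := analyticAt_fst
    have h2 : AnalyticAt ℂ (fun z : (Fin 1 → ℂ) × (Fin (q + 2) → ℂ) => z.2) 0 := analyticAt_snd
    have h3 : AnalyticAt ℂ (fun z : (Fin 1 → ℂ) × (Fin (q + 2) → ℂ) => z.1 0) 0 :=
      AnalyticAt.comp (g := fun x : Fin 1 → ℂ => x 0)
        ((ContinuousLinearMap.proj (R := ℂ) (φ := fun _ : Fin 1 => ℂ) 0).analyticAt _) h1
    have h4 : AnalyticAt ℂ (fun z : (Fin 1 → ℂ) × (Fin (q + 2) → ℂ) => cusp q z.1) 0 :=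
      AnalyticAt.comp (g := cusp q) (cusp_analytic q) h1
    exact h4.add (h3.smul h2)
  · convert spans q using 1
    funext i x
    have h1 : (fun u => unf q x u) = fun u => cusp q x + x 0 • u := rfl
    rw [h1, fderiv_const_add]
    have h2 : fderiv ℂ (fun u : Fin (q + 2) → ℂ => x 0 • u) 0
        = x 0 • ContinuousLinearMap.id ℂ (Fin (q + 2) → ℂ) := by
      have := (x 0 • ContinuousLinearMap.id ℂ (Fin (q + 2) → ℂ)).fderiv (x := 0)
      exact this
    rw [h2]
    simp

end Pool.Agent.R865.Mono
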