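import Pool.Agent.R865.MonoA

set_option autoImplicit false

open scoped Topology

namespace Pool.Agent.R865.Mono

section Chains

variable {E : Type} [TopologicalSpace E] {k : ℕ}

lemma bdry_single (j : ℕ) (s : Simp E k (j + 1)) (m : ℤ) :
    bdry j (Finsupp.single s m) =
      ∑ i : Fin (j + 2), (-1 : ℤ) ^ (i : ℕ) • Finsupp.single (s.comp (faceMap j i)) m := by
  simp only [bdry, AddMonoidHom.finsetSum_apply, AddMonoidHom.smul_apply,
    Finsupp.mapDomain.addMonoidHom_apply, Finsupp.mapDomain_single]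

lemma bdry_bdry (c : Chain E k 2) : bdry 0 (bdry 1 c) = 0 := by
  induction c using Finsupp.induction_linear with
  | zero => simp
  | add a b ha hb => rw [map_add, map_add, ha, hb, add_zero]
  | single s m =>
    rw [bdry_single, map_sum]
    simp only [map_zsmul, bdry_single, Fin.sum_univ_succ, Finset.univ_unique,
      Fin.default_eq_zero, Finset.sum_singleton, ContinuousMap.comp_assoc]
    have key : ∀ (i : Fin 3) (l : Fin 2) (i' : Fin 3) (l' : Fin 2),
        (i.succAbove ∘ l.succAbove : Fin 1 → Fin 3) = i'.succAbove ∘ l'.succAbove →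
        (faceMap 1 i).comp (faceMap 0 l) = (faceMap 1 i').comp (faceMap 0 l') := by
      intro i l i' l' h
      ext x : 1
      simp only [faceMap, ContinuousMap.comp_apply, ContinuousMap.coe_mk,
        stdSimplex.map_comp_apply]
      rw [h]
    have e1 := key 0 0 1 0 (by decide)
    have e2 := key 0 1 2 0 (by decide)
    have e3 := key 1 1 2 1 (by decide)
    simp only [show (Fin.succ (0 : Fin 2)) = 1 from rfl, show (Fin.succ (1 : Fin 2)) = 2 from rfl,
      show (Fin.succ (0 : Fin 1)) = 1 from rfl, e1, e2, e3]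
    simp
    abel

/-- A subset in which all paths are constant has no alternating one-dimensional boundaries. -/
lemma bdry_eq_zero_of_const {A : Set (Fin k → E)}
    (hA : ∀ s : Simp E k 1, (∀ x, s x ∈ A) → ∀ x y, s x = s y) {a : Chain E k 1}
    (ha : a ∈ altChain 1 A) : bdry 0 a = 0 := by
  have h := ha.1
  rw [← Finsupp.sum_single a, Finsupp.sum, map_sum]
  refine Finset.sum_eq_zero fun s hs => ?_
  rw [bdry_single]
  have hc := hA s (h s hs)
  have : s.comp (faceMap 0 0) = s.comp (faceMap 0 1) := by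
    ext x : 1
    exact hc _ _
  rw [Fin.sum_univ_two, this]
  simp

end Chains

section Two

variable {E : Type} [TopologicalSpace E]

lemma perm_two (σ : Equiv.Perm (Fin 2)) : σ = 1 ∨ σ = Equiv.swap 0 1 := by
  revert σ; decide

lemma permMap_comp_one {k j : ℕ} (s : Simp E k j) : (permMap (1 : Equiv.Perm (Fin k))).comp s = s := by
  ext x : 1
  rfl

/-- The alternating chain `s - τ s` for the transposition `τ`. -/
lemma alt_two {j : ℕ} {D : Set (Fin 2 → E)} (s : Simp E 2 j) (h1 : ∀ x, s x ∈ D)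
    (h2 : ∀ x, (permMap (Equiv.swap 0 1)).comp s x ∈ D) :
    (Finsupp.single s 1 - Finsupp.single ((permMap (Equiv.swap 0 1)).comp s) 1 : Chain E 2 j)
      ∈ altChain j D := by
  refine ⟨fun t ht x => ?_, fun σ => ?_⟩
  · by_cases e1 : t = s
    · rw [e1]; exact h1 x
    · by_cases e2 : t = (permMap (Equiv.swap 0 1)).comp s
      · rw [e2]; exact h2 x
      · exfalso
        rw [Finsupp.mem_support_iff] at ht
        apply ht
        rw [Finsupp.sub_apply, Finsupp.single_eq_of_ne e1, Finsupp.single_eq_of_ne e2, sub_zero]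
  · rcases perm_two σ with rfl | rfl
    · simp only [permChain, map_sub, Finsupp.mapDomain.addMonoidHom_apply,
        Finsupp.mapDomain_single, permMap_comp_one, Equiv.Perm.sign_one, Units.val_one, one_smul]
    · have hh : (permMap (Equiv.swap 0 1)).comp ((permMap (Equiv.swap 0 1)).comp s) = s := by
        ext x : 1
        funext i
        simp only [ContinuousMap.comp_apply, permMap, ContinuousMap.coe_mk, Function.comp_apply,
          Equiv.swap_apply_self]
      simp only [permChain, map_sub, Finsupp.mapDomain.addMonoidHom_apply,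
        Finsupp.mapDomain_single, hh]
      rw [Equiv.Perm.sign_swap (by decide)]
      simp

/-- Non-vanishing of the first relative alternating homology group for two-point sets. -/
lemma nontrivial_alt {D A : Set (Fin 2 → E)} (γ : Simp E 2 1) (h1 : ∀ x, γ x ∈ D)
    (h2 : ∀ x, (permMap (Equiv.swap 0 1)).comp γ x ∈ D)
    (h0 : (permMap (Equiv.swap 0 1)).comp (γ.comp (faceMap 0 1)) = γ.comp (faceMap 0 1))
    (h3 : ∀ x, (γ.comp (faceMap 0 0)) x ∈ A)
    (h4 : ∀ x, ((permMap (Equiv.swap 0 1)).comp (γ.comp (faceMap 0 0))) x ∈ A)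
    (h5 : (permMap (Equiv.swap 0 1)).comp (γ.comp (faceMap 0 0)) ≠ γ.comp (faceMap 0 0))
    (hA : ∀ s : Simp E 2 1, (∀ x, s x ∈ A) → ∀ x y, s x = s y) :
    Nontrivial (AltHomology 0 D A) := by
  set c : Chain E 2 1 :=
    Finsupp.single γ 1 - Finsupp.single ((permMap (Equiv.swap 0 1)).comp γ) 1 with hc
  have hcD : c ∈ altChain 1 D := alt_two γ h1 h2
  have hb : bdry 0 c = Finsupp.single (γ.comp (faceMap 0 0)) 1
      - Finsupp.single ((permMap (Equiv.swap 0 1)).comp (γ.comp (faceMap 0 0))) 1 := by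
    rw [hc, map_sub, bdry_single, bdry_single, Fin.sum_univ_two, Fin.sum_univ_two]
    simp only [ContinuousMap.comp_assoc] at h0 ⊢
    rw [h0]
    simp
  have hcA : c ∈ relCycles 0 D A := by
    refine ⟨hcD, ?_⟩
    change bdry 0 c ∈ altChain 0 A
    rw [hb]
    exact alt_two _ h3 h4
  refine ⟨⟨QuotientAddGroup.mk ⟨c, hcA⟩, 0, ?_⟩⟩
  intro h
  rw [QuotientAddGroup.eq_zero_iff, AddSubgroup.mem_addSubgroupOf] at h
  obtain ⟨y, hy, a, ha, hya⟩ := AddSubgroup.mem_sup.1 h
  obtain ⟨d, hd, rfl⟩ := hy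
  have hz : bdry 0 c = 0 := by
    have : c = bdry 1 d + a := hya.symm
    rw [this, map_add, bdry_bdry, bdry_eq_zero_of_const hA ha, add_zero]
  rw [hb, sub_eq_zero] at hz
  have := Finsupp.single_left_injective (one_ne_zero (α := ℤ)) hz
  exact h5 this.symm

end Two

variable (q : ℕ)

/-- The curve `t ↦ (0, t, 0, …)` in the base of the unfolding. -/
noncomputable def curve (t : ℂ) : Fin (q + 2) → ℂ := t • Pi.single 1 1

/-- The point `(± s a, s² t)` of the double point curve. -/
noncomputable def pt (a t : ℂ) (s : ℝ) : (Fin 1 → ℂ) × (Fin (q + 2) → ℂ) :=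
  (fun _ => (s : ℂ) * a, ((s : ℂ) ^ 2 * t) • Pi.single 1 1)

lemma pt_cont (a t : ℂ) : Continuous (pt q a t) := by
  unfold pt
  fun_prop

/-- The path in the double point space. -/
noncomputable def path (a t : ℂ) :
    C(stdSimplex ℝ (Fin 2), Fin 2 → (Fin 1 → ℂ) × (Fin (q + 2) → ℂ)) where
  toFun x := ![pt q a t (x 1), pt q (-a) t (x 1)]
  continuous_toFun := by
    have hx : Continuous fun x : stdSimplex ℝ (Fin 2) => x 1 :=
      (continuous_apply (1 : Fin 2)).comp continuous_subtype_val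
    refine continuous_pi fun i => ?_
    fin_cases i
    · exact (pt_cont q a t).comp hx
    · exact (pt_cont q (-a) t).comp hx

lemma unf_apply (x : Fin 1 → ℂ) (u : Fin (q + 2) → ℂ) (j : Fin (q + 2)) :
    unf q x u j = (if j = 0 then x 0 ^ 2 else 0) + (if j = 1 then x 0 ^ 3 else 0) + x 0 * u j := by
  simp [unf, cusp, Pi.single_apply]

lemma unf_pt {a t : ℂ} (h : a ^ 2 = -t) (s : ℝ) :
    unf q (pt q a t s).1 (pt q a t s).2 = ((s : ℂ) * a) ^ 2 • Pi.single 0 1 := by
  funext j
  rw [unf_apply]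
  simp only [pt, Pi.smul_apply, Pi.single_apply, smul_eq_mul]
  by_cases h0 : j = 0
  · have h1 : (0 : Fin (q + 2)) ≠ 1 := by simp
    simp [h0]
  · by_cases h1 : j = 1
    · simp only [h1, if_true, mul_one]
      have : ¬ ((1 : Fin (q + 2)) = 0) := by simp
      simp only [this, if_false, mul_zero, zero_add]
      linear_combination ((s : ℂ) ^ 3 * a) * h
    · simp [h0, h1]


lemma inj_pt {a t : ℂ} (ha : a ≠ 0) {s : ℝ} (hs : s ≠ 0) : pt q a t s ≠ pt q (-a) t s := by
  intro h
  have h1 := congrFun (congrArg Prod.fst h) 0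
  simp only [pt, mul_neg] at h1
  have h2 : (s : ℂ) * a ≠ 0 := mul_ne_zero (by exact_mod_cast hs) ha
  apply h2
  have h3 : (2 : ℂ) * ((s : ℂ) * a) = 0 := by linear_combination h1
  simpa using h3

/-- The defining equations of the double point space. -/
lemma multiPts_eqs {U : Set ((Fin 1 → ℂ) × (Fin (q + 2) → ℂ))}
    {z : Fin 2 → (Fin 1 → ℂ) × (Fin (q + 2) → ℂ)} (hz : z ∈ multiPts 2 (unf q) U) :
    (z 0).1 0 + (z 1).1 0 + (z 0).2 0 = 0 ∧
      (z 0).1 0 ^ 2 + (z 0).1 0 * (z 1).1 0 + (z 1).1 0 ^ 2 + (z 0).2 1 = 0 := by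
  have hcl : IsClosed {z : Fin 2 → (Fin 1 → ℂ) × (Fin (q + 2) → ℂ) |
      (z 0).1 0 + (z 1).1 0 + (z 0).2 0 = 0 ∧
      (z 0).1 0 ^ 2 + (z 0).1 0 * (z 1).1 0 + (z 1).1 0 ^ 2 + (z 0).2 1 = 0} := by
    apply IsClosed.inter
    · exact isClosed_eq (by fun_prop) continuous_const
    · exact isClosed_eq (by fun_prop) continuous_const
  refine closure_minimal ?_ hcl hz.2
  rintro w ⟨-, hinj, hw⟩
  obtain ⟨he, hp⟩ := hw 0 1
  have hne : (w 0).1 0 ≠ (w 1).1 0 := by
    intro h
    have : w 0 = w 1 := by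
      refine Prod.ext ?_ hp
      funext i; fin_cases i; exact h
    exact absurd (hinj this) (by decide)
  have e0 := congrFun he 0
  have e1 := congrFun he 1
  rw [unf_apply, unf_apply] at e0 e1
  have h01 : ¬ ((0 : Fin (q + 2)) = 1) := by simp
  have h10 : ¬ ((1 : Fin (q + 2)) = 0) := by simp
  simp only [if_true, h01, h10, if_false, add_zero, zero_add] at e0 e1
  have q0 : (w 1).2 0 = (w 0).2 0 := by rw [hp]
  have q1 : (w 1).2 1 = (w 0).2 1 := by rw [hp]
  rw [q0] at e0
  rw [q1] at e1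
  have hsub : (w 0).1 0 - (w 1).1 0 ≠ 0 := sub_ne_zero.2 hne
  constructor
  · apply mul_left_cancel₀ hsub
    linear_combination e0
  · apply mul_left_cancel₀ hsub
    linear_combination e1

lemma pt_norm {a t : ℂ} {ε : ℝ} (ha : ‖a‖ < ε) (ht : ‖t‖ < ε) {s : ℝ} (h0 : 0 ≤ s) (h1 : s ≤ 1) :
    pt q a t s ∈ Metric.ball (0 : (Fin 1 → ℂ) × (Fin (q + 2) → ℂ)) ε := by
  have hε : 0 < ε := lt_of_le_of_lt (norm_nonneg _) ha
  rw [mem_ball_zero_iff, Prod.norm_def, max_lt_iff]
  constructor
  · rw [pi_norm_lt_iff hε]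
    intro i
    simp only [pt, norm_mul, Complex.norm_real, Real.norm_of_nonneg h0]
    calc s * ‖a‖ ≤ 1 * ‖a‖ := by gcongr
      _ < ε := by rw [one_mul]; exact ha
  · rw [pi_norm_lt_iff hε]
    intro i
    simp only [pt, Pi.smul_apply, Pi.single_apply, smul_eq_mul]
    split_ifs
    · rw [mul_one, norm_mul, norm_pow, Complex.norm_real, Real.norm_of_nonneg h0]
      have : s ^ 2 ≤ 1 := pow_le_one₀ h0 h1
      calc s ^ 2 * ‖t‖ ≤ 1 * ‖t‖ := by gcongr
        _ < ε := by rw [one_mul]; exact ht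
    · simpa using hε

lemma path_mem {a t : ℂ} (h : a ^ 2 = -t) (ha0 : a ≠ 0) {ε : ℝ} (ha : ‖a‖ < ε) (ht : ‖t‖ < ε)
    {s : ℝ} (h0 : 0 ≤ s) (h1 : s ≤ 1) (z : Fin 2 → (Fin 1 → ℂ) × (Fin (q + 2) → ℂ))
    (hz : z = ![pt q a t s, pt q (-a) t s] ∨ z = ![pt q (-a) t s, pt q a t s]) :
    z ∈ multiPts 2 (unf q) (Metric.ball 0 ε) := by
  have ha' : ‖-a‖ < ε := by simpa using ha
  have hn : (-a) ^ 2 = -t := by rw [neg_sq]; exact h
  have hna : -a ≠ 0 := neg_ne_zero.2 ha0
  -- reduce to the general statement for one order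
  have key : ∀ (b c : ℂ), b ^ 2 = -t → c ^ 2 = -t → ‖b‖ < ε → ‖c‖ < ε → c = -b → b ≠ 0 →
      ![pt q b t s, pt q c t s] ∈ multiPts 2 (unf q) (Metric.ball 0 ε) := by
    intro b c hb hc hbn hcn hcb hb0
    refine ⟨fun i => ?_, ?_⟩
    · fin_cases i
      · exact pt_norm q hbn ht h0 h1
      · exact pt_norm q hcn ht h0 h1
    · have hcont : Continuous fun s : ℝ => ![pt q b t s, pt q c t s] := by
        refine continuous_pi fun i => ?_
        fin_cases i
        · exact pt_cont q b t
        · exact pt_cont q c t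
      have hmem : s ∈ closure (Set.Ioc (0 : ℝ) 1) := by
        rw [closure_Ioc (by norm_num)]
        exact ⟨h0, h1⟩
      have htd := hcont.continuousWithinAt (s := Set.Ioc (0 : ℝ) 1) (x := s)
      have : (𝓝[Set.Ioc (0 : ℝ) 1] s).NeBot := mem_closure_iff_nhdsWithin_neBot.1 hmem
      refine mem_closure_of_tendsto (f := fun s : ℝ => ![pt q b t s, pt q c t s])
        (b := 𝓝[Set.Ioc (0 : ℝ) 1] s) htd ?_
      filter_upwards [self_mem_nhdsWithin] with r hr
      have hr0 : r ≠ 0 := ne_of_gt hr.1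
      refine ⟨fun i => ?_, ?_, ?_⟩
      · fin_cases i
        · exact pt_norm q hbn ht hr.1.le hr.2
        · exact pt_norm q hcn ht hr.1.le hr.2
      · have hne : pt q b t r ≠ pt q c t r := by
          rw [hcb]; exact inj_pt q hb0 hr0
        intro i j hij
        fin_cases i <;> fin_cases j
        · rfl
        · exact absurd hij hne
        · exact absurd hij.symm hne
        · rfl
      · have hbc : unf q (pt q b t r).1 (pt q b t r).2 = unf q (pt q c t r).1 (pt q c t r).2 := by
          rw [unf_pt q hb, unf_pt q hc, hcb]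
          simp
        have hbc' : (pt q b t r).2 = (pt q c t r).2 := rfl
        intro i j
        fin_cases i <;> fin_cases j
        · exact ⟨rfl, rfl⟩
        · exact ⟨hbc, hbc'⟩
        · exact ⟨hbc.symm, hbc'.symm⟩
        · exact ⟨rfl, rfl⟩
  rcases hz with rfl | rfl
  · exact key a (-a) h hn ha ha' rfl ha0
  · exact key (-a) a hn h ha' ha (by ring) hna

lemma unexpected (hq : 1 ≤ q) : HasUnexpectedHomology (unf q) (curve q) := by
  refine ⟨2, by push_cast; omega, ?_⟩
  filter_upwards [self_mem_nhdsWithin] with ε hε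
  have hε : 0 < ε := hε
  have hnear : ∀ᶠ t in 𝓝 (0 : ℂ), ‖t‖ < ε ∧ ‖t‖ < ε ^ 2 := by
    have : Filter.Tendsto (fun z : ℂ => ‖z‖) (𝓝 0) (𝓝 0) := by
      simpa using (continuous_norm.tendsto (0 : ℂ))
    exact (this.eventually (gt_mem_nhds hε)).and (this.eventually (gt_mem_nhds (by positivity)))
  filter_upwards [hnear.filter_mono nhdsWithin_le_nhds, self_mem_nhdsWithin] with t ht ht0
  have ht0 : t ≠ 0 := ht0
  obtain ⟨a, ha⟩ : ∃ a : ℂ, a ^ 2 = -t := by
    obtain ⟨a, ha⟩ := IsAlgClosed.exists_pow_nat_eq (-t) (n := 2) (by norm_num)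
    exact ⟨a, ha⟩
  have ha0 : a ≠ 0 := by
    rintro rfl
    apply ht0
    have : -t = 0 := by rw [← ha]; simp
    simpa using this
  have han : ‖a‖ < ε := by
    have : ‖a‖ ^ 2 < ε ^ 2 := by rw [← norm_pow, ha, norm_neg]; exact ht.2
    exact lt_of_pow_lt_pow_left₀ 2 hε.le this
  have hs : ∀ x : stdSimplex ℝ (Fin 2), 0 ≤ x 1 ∧ x 1 ≤ 1 := fun x => ⟨x.2.1 1, by
    have h1 := x.2.2
    have h2 := x.2.1 0
    rw [Fin.sum_univ_two] at h1
    change x.1 1 ≤ 1
    linarith⟩
  have hswap : ∀ (j : ℕ) (f : C(stdSimplex ℝ (Fin (j + 1)), stdSimplex ℝ (Fin 2))) x,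
      (permMap (Equiv.swap 0 1)).comp ((path q a t).comp f) x
        = ![pt q (-a) t (f x 1), pt q a t (f x 1)] := by
    intro j f x
    funext i
    fin_cases i <;> rfl
  have hface0 : ∀ x, (faceMap 0 0 x) 1 = (1 : ℝ) := by
    intro x
    have : x = stdSimplex.vertex 0 := Subsingleton.elim _ _
    rw [this]
    simp only [faceMap, ContinuousMap.coe_mk, stdSimplex.map_vertex]
    simp
  have hface1 : ∀ x, (faceMap 0 1 x) 1 = (0 : ℝ) := by
    intro x
    have : x = stdSimplex.vertex 0 := Subsingleton.elim _ _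
    rw [this]
    simp only [faceMap, ContinuousMap.coe_mk, stdSimplex.map_vertex]
    simp
  have hA : multiPtsAt 2 (unf q) (Metric.ball 0 ε) (curve q t) ⊆
      {![pt q a t 1, pt q (-a) t 1], ![pt q (-a) t 1, pt q a t 1]} := by
    rintro z ⟨hz, hz'⟩
    obtain ⟨e1, e2⟩ := multiPts_eqs q hz
    have c0 : (z 0).2 0 = 0 := by rw [hz' 0]; simp [curve]
    have c1 : (z 0).2 1 = t := by rw [hz' 0]; simp [curve]
    rw [c0, add_zero] at e1
    rw [c1] at e2
    have e3 : (z 1).1 0 = -(z 0).1 0 := by linear_combination e1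
    have e4 : (z 0).1 0 ^ 2 = a ^ 2 := by rw [ha]; rw [e3] at e2; linear_combination e2
    have hpt : ∀ (b : ℂ) (i : Fin 2), (z i).1 0 = b → z i = pt q b t 1 := by
      intro b i hb
      refine Prod.ext ?_ ?_
      · funext l; fin_cases l; simp [pt, hb]
      · rw [hz' i]; simp [pt, curve]
    rcases sq_eq_sq_iff_eq_or_eq_neg.1 e4 with h | h
    · left
      funext i
      fin_cases i
      · exact hpt a 0 h
      · exact hpt (-a) 1 (by rw [e3, h])
    · right
      rw [Set.mem_singleton_iff]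
      funext i
      fin_cases i
      · exact hpt (-a) 0 h
      · exact hpt a 1 (by rw [e3, h, neg_neg])
  have hparam : ∀ b : ℂ, (pt q b t 1).2 = curve q t := by
    intro b; simp [pt, curve]
  apply nontrivial_alt (path q a t)
  · intro x
    exact path_mem q ha ha0 han ht.1 (hs x).1 (hs x).2 _ (Or.inl rfl)
  · intro x
    have := hswap 1 (ContinuousMap.id _) x
    rw [ContinuousMap.comp_id] at this
    rw [this]
    exact path_mem q ha ha0 han ht.1 (hs x).1 (hs x).2 _ (Or.inr rfl)
  · ext x : 1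
    rw [hswap 0 (faceMap 0 1) x]
    change _ = ![pt q a t (faceMap 0 1 x 1), pt q (-a) t (faceMap 0 1 x 1)]
    rw [hface1 x]
    simp [pt]
  · intro x
    have hx : (path q a t).comp (faceMap 0 0) x = ![pt q a t 1, pt q (-a) t 1] := by
      change ![pt q a t (faceMap 0 0 x 1), pt q (-a) t (faceMap 0 0 x 1)] = _
      rw [hface0 x]
    rw [hx]
    refine ⟨path_mem q ha ha0 han ht.1 zero_le_one le_rfl _ (Or.inl rfl), fun i => ?_⟩
    fin_cases i
    · exact hparam a
    · exact hparam (-a)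
  · intro x
    rw [hswap 0 (faceMap 0 0) x, hface0 x]
    refine ⟨path_mem q ha ha0 han ht.1 zero_le_one le_rfl _ (Or.inr rfl), fun i => ?_⟩
    fin_cases i
    · exact hparam (-a)
    · exact hparam a
  · intro h
    have h1 := DFunLike.congr_fun h (stdSimplex.vertex 0)
    rw [hswap 0 (faceMap 0 0) _, hface0 _] at h1
    have h2 : (path q a t).comp (faceMap 0 0) (stdSimplex.vertex 0)
        = ![pt q a t 1, pt q (-a) t 1] := by
      change ![pt q a t (faceMap 0 0 _ 1), pt q (-a) t (faceMap 0 0 _ 1)] = _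
      rw [hface0 _]
    rw [h2] at h1
    have h3 := congrFun h1 0
    exact inj_pt q ha0 one_ne_zero h3.symm
  · intro s hsA x y
    have hfin : (multiPtsAt 2 (unf q) (Metric.ball 0 ε) (curve q t)).Countable :=
      (Set.Finite.subset (by simp) hA).countable
    have hconn : IsPreconnected (Set.range s) := isPreconnected_range s.continuous
    exact hfin.isTotallyDisconnected _ (Set.range_subset_iff.2 hsA) hconn
      (Set.mem_range_self x) (Set.mem_range_self y)

end Pool.Agent.R865.Mono
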