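import Mathlib

/-!
# Deformations of map germs, multiple point spaces and alternating homology

Definitions for problem MP_622402_ag.
-/

set_option autoImplicit false

open scoped Topology

namespace Pool.Agent.R865.Mono

/-- The vector fields `v i` along the germ `f : (ℂⁿ, 0) → (ℂᵖ, 0)` span, together with the extended
tangent space `T𝒜ₑ f = tf(θₙ) + wf(θₚ)`, the space `θ(f)` of all germs of holomorphic vector fields
along `f`: every such germ `θ` can be written as `∑ cᵢ vᵢ + df(ξ) + η ∘ f` with constants `cᵢ` and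
holomorphic germs `ξ`, `η` of vector fields on the source and on the target. -/
def SpansNormal {n p N : ℕ} (f : (Fin n → ℂ) → (Fin p → ℂ))
    (v : Fin N → (Fin n → ℂ) → (Fin p → ℂ)) : Prop :=
  ∀ θ : (Fin n → ℂ) → (Fin p → ℂ), AnalyticAt ℂ θ 0 →
    ∃ (c : Fin N → ℂ) (ξ : (Fin n → ℂ) → (Fin n → ℂ)) (η : (Fin p → ℂ) → (Fin p → ℂ)),
      AnalyticAt ℂ ξ 0 ∧ AnalyticAt ℂ η 0 ∧
        ∀ᶠ x in 𝓝 (0 : Fin n → ℂ), θ x = ∑ i, c i • v i x + fderiv ℂ f x (ξ x) + η (f x)

/-- The germ `f` is `𝒜`-finite: its extended tangent space has finite codimension in `θ(f)`. -/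
def AFinite {n p : ℕ} (f : (Fin n → ℂ) → (Fin p → ℂ)) : Prop :=
  ∃ (N : ℕ) (v : Fin N → (Fin n → ℂ) → (Fin p → ℂ)),
    (∀ i, AnalyticAt ℂ (v i) 0) ∧ SpansNormal f v

/-- `F(x, u) = (F x u, u)` is a versal unfolding of `f` with parameters `u ∈ ℂᵈ` (infinitesimal
form): `F` is holomorphic, `F x 0 = f x`, and the initial velocities `∂F/∂uᵢ (x, 0)` span
`θ(f) / T𝒜ₑ f`. -/
def IsVersalUnfolding {n p d : ℕ} (f : (Fin n → ℂ) → (Fin p → ℂ))
    (F : (Fin n → ℂ) → (Fin d → ℂ) → (Fin p → ℂ)) : Prop :=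
  AnalyticAt ℂ (fun z : (Fin n → ℂ) × (Fin d → ℂ) => F z.1 z.2) 0 ∧ (∀ x, F x 0 = f x) ∧
    SpansNormal f fun (i : Fin d) x => fderiv ℂ (fun u => F x u) 0 (Pi.single i 1)

/-- The multiple point space `Dᵏ(F)` of the map `(x, u) ↦ (F x u, u)` on the open set `U`: the
closure, in `Uᵏ`, of the set of `k`-tuples of pairwise distinct points of `U` with equal images. -/
def multiPts {n p d : ℕ} (k : ℕ) (F : (Fin n → ℂ) → (Fin d → ℂ) → (Fin p → ℂ))
    (U : Set ((Fin n → ℂ) × (Fin d → ℂ))) : Set (Fin k → (Fin n → ℂ) × (Fin d → ℂ)) :=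
  {z | (∀ i, z i ∈ U) ∧ z ∈ closure {w | (∀ i, w i ∈ U) ∧ Function.Injective w ∧
    ∀ i j, F (w i).1 (w i).2 = F (w j).1 (w j).2 ∧ (w i).2 = (w j).2}}

/-- The multiple point space of the map `x ↦ F x a`: the slice of `Dᵏ(F)` at the parameter `a`. -/
def multiPtsAt {n p d : ℕ} (k : ℕ) (F : (Fin n → ℂ) → (Fin d → ℂ) → (Fin p → ℂ))
    (U : Set ((Fin n → ℂ) × (Fin d → ℂ))) (a : Fin d → ℂ) :
    Set (Fin k → (Fin n → ℂ) × (Fin d → ℂ)) :=
  {z | z ∈ multiPts k F U ∧ ∀ i, (z i).2 = a}

section Chains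

variable (E : Type) [TopologicalSpace E] (k j : ℕ)

/-- Singular `j`-simplices of `Eᵏ`. -/
abbrev Simp : Type := C(stdSimplex ℝ (Fin (j + 1)), Fin k → E)

/-- Singular `j`-chains of `Eᵏ` with integral coefficients. -/
abbrev Chain : Type := Simp E k j →₀ ℤ

/-- The `i`-th face inclusion of the standard simplex. -/
noncomputable def faceMap (i : Fin (j + 2)) :
    C(stdSimplex ℝ (Fin (j + 1)), stdSimplex ℝ (Fin (j + 2))) :=
  ⟨stdSimplex.map i.succAbove, stdSimplex.continuous_map _⟩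

variable {E k}

/-- The boundary map `∂ s = ∑ᵢ (-1)ⁱ s ∘ δᵢ` on singular chains. -/
noncomputable def bdry : Chain E k (j + 1) →+ Chain E k j :=
  ∑ i : Fin (j + 2), (-1 : ℤ) ^ (i : ℕ) •
    Finsupp.mapDomain.addMonoidHom fun s : Simp E k (j + 1) => s.comp (faceMap j i)

/-- The symmetric group acts on `Eᵏ` by permuting the factors. -/
def permMap (σ : Equiv.Perm (Fin k)) : C(Fin k → E, Fin k → E) :=
  ⟨fun z => z ∘ σ, by fun_prop⟩

/-- The induced action on chains. -/
noncomputable def permChain (σ : Equiv.Perm (Fin k)) : Chain E k j →+ Chain E k j :=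
  Finsupp.mapDomain.addMonoidHom fun s : Simp E k j => (permMap σ).comp s

/-- The alternating `j`-chains of a subset `D` of `Eᵏ`: the singular chains of `D` on which every
permutation `σ` of the factors acts by multiplication with `sign σ`. -/
noncomputable def altChain (D : Set (Fin k → E)) : AddSubgroup (Chain E k j) where
  carrier := {c | (∀ s ∈ c.support, ∀ x, s x ∈ D) ∧
    ∀ σ : Equiv.Perm (Fin k), permChain j σ c = (Equiv.Perm.sign σ : ℤ) • c}
  zero_mem' := by simp
  add_mem' := by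
    rintro a b ⟨ha, ha'⟩ ⟨hb, hb'⟩
    refine ⟨fun s hs x => ?_, fun σ => by rw [map_add, ha', hb', smul_add]⟩
    by_cases h : s ∈ a.support
    · exact ha s h x
    · by_cases h' : s ∈ b.support
      · exact hb s h' x
      · simp only [Finsupp.mem_support_iff, not_not] at h h'
        simp [h, h'] at hs
  neg_mem' := by
    rintro a ⟨ha, ha'⟩
    refine ⟨fun s hs x => ha s (by simpa using hs) x, fun σ => by rw [map_neg, ha', smul_neg]⟩

/-- Relative alternating cycles of degree `j + 1` of the pair `(D, A)`. -/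
noncomputable def relCycles (D A : Set (Fin k → E)) : AddSubgroup (Chain E k (j + 1)) :=
  altChain (j + 1) D ⊓ (altChain j A).comap (bdry j)

/-- Relative alternating boundaries of degree `j + 1` of the pair `(D, A)`. -/
noncomputable def relBoundaries (D A : Set (Fin k → E)) : AddSubgroup (Chain E k (j + 1)) :=
  (altChain (j + 2) D).map (bdry (j + 1)) ⊔ altChain (j + 1) A

/-- The relative alternating homology group `H_{j+1}^Alt(D, A)`. -/
abbrev AltHomology (D A : Set (Fin k → E)) : Type :=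
  relCycles j D A ⧸ (relBoundaries j D A).addSubgroupOf (relCycles j D A)

end Chains

/-- The deformation `f_t = F(·, h t)` induced from the unfolding `F` has unexpected homology: for
some `k` with `p - k (p - n) < 0` the group `H₁^Alt(Dᵏ(F), Dᵏ(f_t))` is not zero, where `F` is
restricted to any sufficiently small ball around the origin and `t ≠ 0` is sufficiently small. -/
def HasUnexpectedHomology {n p d : ℕ} (F : (Fin n → ℂ) → (Fin d → ℂ) → (Fin p → ℂ))
    (h : ℂ → (Fin d → ℂ)) : Prop :=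
  ∃ k : ℕ, (p : ℤ) - k * ((p : ℤ) - n) < 0 ∧
    ∀ᶠ ε in 𝓝[>] (0 : ℝ), ∀ᶠ t in 𝓝[≠] (0 : ℂ),
      Nontrivial (AltHomology 0 (multiPts k F (Metric.ball 0 ε))
        (multiPtsAt k F (Metric.ball 0 ε) (h t)))

end Pool.Agent.R865.Mono
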