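import Pool.Agent.R765.CO
import Pool.Agent.R765.CAll
import Pool.Agent.R769.Loc
import Pool.Agent.Y522.Sch

/-!
# The Schoenflies conclusion from a diffeomorphism of the open ball onto its image

Auxiliary file for `MP_6c077c_gt.TameBall`.
-/

set_option autoImplicit false

open Set Filter Topology Metric Function
open scoped Manifold ContDiff

noncomputable section

namespace Pool.Agent.R865.SchT

open Pool.Agent.Y522 TopologicalSpace

/-- the open unit ball -/
def UBall (n : ℕ) : Opens (E n) := ⟨ball 0 1, isOpen_ball⟩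

theorem sch_of_diffeo (n : ℕ) (H : E n → E n) (δ : ℝ) (hδ : 0 < δ)
    (hi : InjOn H (ball 0 (1 + δ))) (hL : ∀ x, 1 ≤ ‖x‖ → ‖x‖ < 1 + δ → LD n H x)
    (V : Opens (E n)) (g : UBall n → V) (hg : ∀ x, (g x : E n) = H x) (hgs : Surjective g)
    (Φ : Diffeomorph (𝓡 n) (𝓡 n) (UBall n) V ∞) (C : Set (UBall n)) (hC : IsCompact C)
    (hΦ : ∀ x, x ∉ C → Φ x = g x) :
    ∃ (G : E n → E n) (O : E n ≃ₗᵢ[ℝ] E n) (R' : ℝ), Bijective G ∧
      (∀ x, LD n G x) ∧ (∀ x, ‖x‖ = 1 → G x = H x) ∧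
      G '' closedBall 0 1 = H '' closedBall 0 1 ∧ ∀ x, R' ≤ ‖x‖ → G x = O x := by
  classical
  have hmem : ∀ y : E n, Pool.Agent.Y514.SH.UB n y ∈ UBall n := fun y =>
    mem_ball_zero_iff.2 (Pool.Agent.Y514.SH.UB_norm n y)
  let F : E n → E n := fun y => if hy : y ∈ UBall n then (Φ ⟨y, hy⟩ : E n) else H y
  have hF : ∀ y : UBall n, F y.1 = (Φ y : E n) := fun y => dif_pos y.2
  have hFL : ∀ y : UBall n, LD n F y.1 := by
    intro y
    apply Pool.Agent.R769.LD_of_restrict (UBall n)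
    have h1 : LD n (fun z : UBall n => ((Φ z : V) : E n)) y :=
      LD.comp_fun (g := (Subtype.val : V → E n)) (f := Φ) (Pool.Agent.R769.LD_val V _)
        (Φ.isLocalDiffeomorph y)
    refine h1.congr (Filter.Eventually.of_forall fun z => ?_)
    exact hF z
  have hBcont : Continuous fun x : UBall n => (Pool.Agent.Y514.SH.UB n).symm x.1 := by
    have h1 := (Pool.Agent.Y514.SH.UB n).continuousOn_symm
    rw [Pool.Agent.Y514.SH.UB_target] at h1
    exact h1.comp_continuous continuous_subtype_val fun x => x.2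
  refine Pool.Agent.Y514.SH.finish Pool.Agent.Y702.SH.extO n H δ hδ hi hL
    (fun y => F (Pool.Agent.Y514.SH.UB n y))
    ((fun x : UBall n => (Pool.Agent.Y514.SH.UB n).symm x.1) '' C) (hC.image hBcont) ?_ ?_ ?_ ?_
  · intro x y hxy
    have h1 := hF ⟨_, hmem x⟩
    have h2 := hF ⟨_, hmem y⟩
    change F (Pool.Agent.Y514.SH.UB n x) = F (Pool.Agent.Y514.SH.UB n y) at hxy
    change F (Pool.Agent.Y514.SH.UB n x) = _ at h1
    change F (Pool.Agent.Y514.SH.UB n y) = _ at h2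
    rw [h1, h2] at hxy
    have h3 := Φ.injective (Subtype.ext hxy)
    exact Pool.Agent.Y514.SH.UB_inj n (congrArg Subtype.val h3)
  · rw [Pool.Agent.Y514.SH.range_comp_UB n F, Pool.Agent.Y514.SH.range_comp_UB n H]
    ext z
    constructor
    · rintro ⟨y, hy, rfl⟩
      obtain ⟨w, hw⟩ := hgs (Φ ⟨y, hy⟩)
      refine ⟨w.1, w.2, ?_⟩
      rw [← hg, hw]
      exact (hF ⟨y, hy⟩).symm
    · rintro ⟨y, hy, rfl⟩
      refine ⟨(Φ.symm (g ⟨y, hy⟩)).1, (Φ.symm (g ⟨y, hy⟩)).2, ?_⟩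
      rw [hF, Φ.apply_symm_apply]
      exact hg ⟨y, hy⟩
  · intro p hp
    have h1 : (⟨_, hmem p⟩ : UBall n) ∉ C := by
      intro hc
      refine hp ⟨_, hc, ?_⟩
      exact Pool.Agent.Y514.SH.UB_left n p
    have h2 := hF ⟨_, hmem p⟩
    rw [hΦ _ h1, hg] at h2
    exact h2
  · intro x
    rw [Pool.Agent.Y514.SH.LD_iff]
    exact hFL ⟨_, hmem x⟩

end Pool.Agent.R865.SchT
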